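import Mathlib

/-!
# Spanning trees and connected unicyclic subgraphs by deletion-contraction on labelings

A *labeling* `c : α → α` of the vertices stores a partition (two vertices are in the same block iff
they have the same label).
-/

namespace Pool.Agent.Uni

open Finset Polynomial

variable {α : Type*} [DecidableEq α]

/-- merge the class of `v` into the class of `u` -/
def mrg (c : α → α) (u v : α) : α → α := fun w => if c w = c v then c u else c w

section rec
variable {R : Type*} [CommRing R]

/-- weighted deletion-contraction of tree type -/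
def tc (b : (α → α) → R) : List (α × α × R) → (α → α) → R
  | [], c => b c
  | e :: L, c => if c e.1 = c e.2.1 then tc b L c else tc b L c + e.2.2 * tc b L (mrg c e.1 e.2.1)

/-- weighted deletion-contraction of unicyclic type -/
def uc (b b' : (α → α) → R) : List (α × α × R) → (α → α) → R
  | [], c => b' c
  | e :: L, c => if c e.1 = c e.2.1 then uc b b' L c + 2 * e.2.2 * tc b L c
      else uc b b' L c + e.2.2 * uc b b' L (mrg c e.1 e.2.1) + e.2.2 ^ 2 * tc b L (mrg c e.1 e.2.1)

theorem tc_append (b : (α → α) → R) (L1 L2 : List (α × α × R)) (c : α → α) :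
    tc b (L1 ++ L2) c = tc (tc b L2) L1 c := by
  induction L1 generalizing c with
  | nil => rfl
  | cons e L ih => simp only [List.cons_append, tc, ih]

theorem uc_append (b b' : (α → α) → R) (L1 L2 : List (α × α × R)) (c : α → α) :
    uc b b' (L1 ++ L2) c = uc (tc b L2) (uc b b' L2) L1 c := by
  induction L1 generalizing c with
  | nil => rfl
  | cons e L ih => simp only [List.cons_append, uc, ih, tc_append]

end rec

/-- merge all classes in `J` into the class of `h` -/
def mI (c : α → α) (J : Finset α) (h : α) : α → α := fun v => if c v ∈ J then h else c v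

/-- total weight of the vertices in the list `R` with label `l` -/
def tR (c : α → α) (R : List α) (ρ : α → ℚ) (l : α) : ℚ :=
  (R.map (fun w => if c w = l then ρ w else 0)).sum

theorem mrg_mI {c : α → α} {J : Finset α} {h w : α} (hc : c h = h) (hJ : h ∉ J)
    (hw : c w ∉ J) (hwh : c w ≠ h) : mrg (mI c J h) h w = mI c (insert (c w) J) h := by
  funext v
  simp only [mrg, mI, hc, hJ, hw, if_false, mem_insert]
  by_cases h1 : c v ∈ J
  · simp [h1, Ne.symm hwh]
  · by_cases h2 : c v = c w
    · simp [h2, hw]
    · simp [h1, h2]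

theorem hub_tc (b : (α → α) → ℚ) (ρ : α → ℚ) (c : α → α) (h : α) (hc : c h = h) (K : Finset α)
    (hK : h ∉ K) (R : List α) (hR : ∀ w ∈ R, c w ∈ K) :
    ∀ J ⊆ K, tc b (R.map fun w => (h, w, ρ w)) (mI c J h)
      = ∑ I ∈ (K \ J).powerset, (∏ l ∈ I, tR c R ρ l) * b (mI c (J ∪ I) h) := by
  induction R with
  | nil =>
    intro J hJ
    rw [Finset.sum_eq_single ∅]
    · simp [tc]
    · intro I hI hne
      obtain ⟨l, hl⟩ := Finset.nonempty_iff_ne_empty.mpr hne
      rw [Finset.prod_eq_zero hl (by simp [tR]), zero_mul]
    · intro h; simp at h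
  | cons w R ih =>
    intro J hJ
    have ih' := ih (fun w' hw' => hR w' (List.mem_cons_of_mem _ hw'))
    have hwK : c w ∈ K := hR w (List.mem_cons_self ..)
    have hwh : c w ≠ h := fun e => hK (e ▸ hwK)
    have hhJ : h ∉ J := fun e => hK (hJ e)
    have e1 : mI c J h h = h := by simp [mI, hc, hhJ]
    by_cases hw : c w ∈ J
    · have e2 : mI c J h w = h := by simp [mI, hw]
      simp only [List.map_cons, tc]
      rw [if_pos (by rw [e1, e2]), ih' J hJ]
      apply Finset.sum_congr rfl
      intro I hI
      congr 1
      apply Finset.prod_congr rfl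
      intro l hl
      have : l ∉ J := (Finset.mem_sdiff.mp ((Finset.mem_powerset.mp hI) hl)).2
      have : c w ≠ l := fun e => this (e ▸ hw)
      simp [tR, this]
    · have e2 : mI c J h w = c w := by simp [mI, hw]
      simp only [List.map_cons, tc]
      rw [if_neg (by rw [e1, e2]; exact fun e => hwh e.symm), mrg_mI hc hhJ hw hwh, ih' J hJ,
        ih' (insert (c w) J) (Finset.insert_subset hwK hJ)]
      have hins : K \ J = insert (c w) (K \ insert (c w) J) := by
        ext l; simp only [mem_sdiff, mem_insert]
        by_cases hl : l = c w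
        · subst hl; simp [hwK, hw]
        · simp [hl]
      have hni : c w ∉ K \ insert (c w) J := by simp
      rw [hins, Finset.sum_powerset_insert hni, Finset.sum_powerset_insert hni, Finset.mul_sum,
        add_assoc, ← Finset.sum_add_distrib]
      congr 1
      · apply Finset.sum_congr rfl
        intro I hI
        congr 1
        apply Finset.prod_congr rfl
        intro l hl
        have : c w ≠ l := fun e => hni (e ▸ (Finset.mem_powerset.mp hI) hl)
        simp [tR, this]
      · apply Finset.sum_congr rfl
        intro I hI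
        have hnI : c w ∉ I := fun e => hni ((Finset.mem_powerset.mp hI) e)
        rw [Finset.prod_insert hnI, Finset.prod_insert hnI]
        have : ∏ l ∈ I, tR c (w :: R) ρ l = ∏ l ∈ I, tR c R ρ l := by
          apply Finset.prod_congr rfl
          intro l hl
          have : c w ≠ l := fun e => hni (e ▸ (Finset.mem_powerset.mp hI) hl)
          simp [tR, this]
        rw [this]
        have h3 : tR c (w :: R) ρ (c w) = ρ w + tR c R ρ (c w) := by simp [tR]
        have h4 : J ∪ insert (c w) I = insert (c w) J ∪ I := by
          ext l; simp only [mem_union, mem_insert]; tauto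
        rw [h3, h4]; ring

theorem hub_uc (b b' : (α → α) → ℚ) (ρ : α → ℚ) (c : α → α) (h : α) (hc : c h = h) (K : Finset α)
    (hK : h ∉ K) (R : List α) (hR : ∀ w ∈ R, c w ∈ K) :
    ∀ J ⊆ K, uc b b' (R.map fun w => (h, w, ρ w)) (mI c J h)
      = ∑ I ∈ (K \ J).powerset, (∏ l ∈ I, tR c R ρ l) * (b' (mI c (J ∪ I) h)
          + (2 * ∑ l ∈ J, tR c R ρ l + ∑ l ∈ I, tR c R ρ l) * b (mI c (J ∪ I) h)) := by
  induction R with
  | nil =>
    intro J hJ
    rw [Finset.sum_eq_single ∅]
    · simp [uc, tR]
    · intro I hI hne
      obtain ⟨l, hl⟩ := Finset.nonempty_iff_ne_empty.mpr hne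
      rw [Finset.prod_eq_zero hl (by simp [tR]), zero_mul]
    · intro h; simp at h
  | cons w R ih =>
    intro J hJ
    have ih' := ih (fun w' hw' => hR w' (List.mem_cons_of_mem _ hw'))
    have it' := hub_tc b ρ c h hc K hK R (fun w' hw' => hR w' (List.mem_cons_of_mem _ hw'))
    have hwK : c w ∈ K := hR w (List.mem_cons_self ..)
    have hwh : c w ≠ h := fun e => hK (e ▸ hwK)
    have hhJ : h ∉ J := fun e => hK (hJ e)
    have e1 : mI c J h h = h := by simp [mI, hc, hhJ]
    have hne : ∀ l, c w ≠ l → tR c (w :: R) ρ l = tR c R ρ l := by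
      intro l hl; simp [tR, hl]
    have h3 : tR c (w :: R) ρ (c w) = ρ w + tR c R ρ (c w) := by simp [tR]
    by_cases hw : c w ∈ J
    · have e2 : mI c J h w = h := by simp [mI, hw]
      simp only [List.map_cons, uc]
      rw [if_pos (by rw [e1, e2]), ih' J hJ, it' J hJ, Finset.mul_sum (K \ J).powerset,
        ← Finset.sum_add_distrib]
      apply Finset.sum_congr rfl
      intro I hI
      have hl : ∀ l ∈ I, c w ≠ l := fun l hl e =>
        (Finset.mem_sdiff.mp ((Finset.mem_powerset.mp hI) hl)).2 (e ▸ hw)
      have h5 : ∏ l ∈ I, tR c (w :: R) ρ l = ∏ l ∈ I, tR c R ρ l :=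
        Finset.prod_congr rfl fun l hl' => hne l (hl l hl')
      have h6 : ∑ l ∈ I, tR c (w :: R) ρ l = ∑ l ∈ I, tR c R ρ l :=
        Finset.sum_congr rfl fun l hl' => hne l (hl l hl')
      have h7 : ∑ l ∈ J, tR c (w :: R) ρ l = ρ w + ∑ l ∈ J, tR c R ρ l := by
        rw [← Finset.add_sum_erase _ _ hw, ← Finset.add_sum_erase J (fun l => tR c R ρ l) hw, h3,
          Finset.sum_congr rfl fun l hl' => hne l (Ne.symm (Finset.ne_of_mem_erase hl'))]
        ring
      rw [h5, h6, h7]; ring
    · have e2 : mI c J h w = c w := by simp [mI, hw]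
      simp only [List.map_cons, uc]
      rw [if_neg (by rw [e1, e2]; exact fun e => hwh e.symm), mrg_mI hc hhJ hw hwh, ih' J hJ,
        ih' (insert (c w) J) (Finset.insert_subset hwK hJ),
        it' (insert (c w) J) (Finset.insert_subset hwK hJ)]
      have hins : K \ J = insert (c w) (K \ insert (c w) J) := by
        ext l; simp only [mem_sdiff, mem_insert]
        by_cases hl : l = c w
        · subst hl; simp [hwK, hw]
        · simp [hl]
      have hni : c w ∉ K \ insert (c w) J := by simp
      rw [hins, Finset.sum_powerset_insert hni, Finset.sum_powerset_insert hni,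
        Finset.mul_sum (K \ insert (c w) J).powerset, Finset.mul_sum (K \ insert (c w) J).powerset,
        add_assoc, add_assoc, ← Finset.sum_add_distrib, ← Finset.sum_add_distrib]
      have hJe : ∑ l ∈ J, tR c (w :: R) ρ l = ∑ l ∈ J, tR c R ρ l :=
        Finset.sum_congr rfl fun l hl' => hne l (fun e => hw (e ▸ hl'))
      congr 1
      · apply Finset.sum_congr rfl
        intro I hI
        have hl : ∀ l ∈ I, c w ≠ l := fun l hl e => hni (e ▸ (Finset.mem_powerset.mp hI) hl)
        rw [Finset.prod_congr rfl fun l hl' => hne l (hl l hl'),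
          Finset.sum_congr rfl fun l hl' => hne l (hl l hl'), hJe]
      · apply Finset.sum_congr rfl
        intro I hI
        have hnI : c w ∉ I := fun e => hni ((Finset.mem_powerset.mp hI) e)
        have hl : ∀ l ∈ I, c w ≠ l := fun l hl e => hni (e ▸ (Finset.mem_powerset.mp hI) hl)
        rw [Finset.prod_insert hnI, Finset.prod_insert hnI, Finset.sum_insert hnI,
          Finset.sum_insert hnI, Finset.sum_insert hw,
          Finset.prod_congr rfl fun l hl' => hne l (hl l hl'),
          Finset.sum_congr rfl fun l hl' => hne l (hl l hl'), hJe, h3]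
        have h4 : J ∪ insert (c w) I = insert (c w) J ∪ I := by
          ext l; simp only [mem_union, mem_insert]; tauto
        rw [h4]; ring

end Pool.Agent.Uni
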