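import Pool.Agent.H527R2.UniA

/-!
# Closed forms for hub graphs
-/

namespace Pool.Agent.Uni

open Finset Polynomial

variable {α : Type*} [DecidableEq α]

/-- the linear functional `y^j ↦ (κ)_j (j-2)! n^{κ-j}`, `j ≥ 2` -/
noncomputable def lam (N κ : ℕ) (n : ℚ) (p : ℚ[X]) : ℚ :=
  n ^ κ * ∑ i ∈ range N,
    (κ.descFactorial (i + 2) : ℚ) * (i.factorial : ℚ) * n⁻¹ ^ (i + 2) * p.coeff (i + 2)

theorem lam_add (N κ : ℕ) (n : ℚ) (p q : ℚ[X]) : lam N κ n (p + q) = lam N κ n p + lam N κ n q := by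
  simp only [lam, coeff_add, mul_add, Finset.sum_add_distrib]

theorem lam_C_mul (N κ : ℕ) (n a : ℚ) (p : ℚ[X]) : lam N κ n (C a * p) = a * lam N κ n p := by
  simp only [lam, coeff_C_mul, Finset.mul_sum]
  exact Finset.sum_congr rfl fun i _ => by ring

theorem lam_zero' (N κ : ℕ) (n : ℚ) : lam N κ n 0 = 0 := by simp [lam]

theorem lam_sum {ι : Type*} (N κ : ℕ) (n : ℚ) (s : Finset ι) (p : ι → ℚ[X]) :
    lam N κ n (∑ i ∈ s, p i) = ∑ i ∈ s, lam N κ n (p i) := by
  classical
  induction s using Finset.induction_on with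
  | empty => simp [lam_zero']
  | insert a s ha ih => rw [Finset.sum_insert ha, Finset.sum_insert ha, lam_add, ih]

theorem lam_step (N x : ℕ) (hx : x + 1 ≤ N) (n : ℚ) (hn : n ≠ 0) (q : ℚ[X]) :
    lam N x n (C n * q - derivative q + X * derivative (derivative q))
      = lam N (x + 1) n q - 2 * x * (n ^ x * n⁻¹) * q.coeff 2 := by
  have hc : ∀ i : ℕ, (C n * q - derivative q + X * derivative (derivative q)).coeff (i + 2)
      = n * q.coeff (i + 2) + ((i : ℚ) + 3) * (i + 1) * q.coeff (i + 3) := by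
    intro i
    rw [coeff_add, coeff_sub, coeff_C_mul, coeff_derivative,
      show i + 2 = (i + 1) + 1 from rfl, coeff_X_mul, coeff_derivative, coeff_derivative]
    push_cast; ring_nf
  obtain ⟨M, rfl⟩ : ∃ M, N = M + 1 := ⟨N - 1, by omega⟩
  have hx' : x ≤ M := by omega
  unfold lam
  simp only [hc]
  have h1 : ∑ i ∈ range (M + 1), ((x.descFactorial (i + 2) : ℕ) : ℚ) * (i.factorial : ℚ) *
        n⁻¹ ^ (i + 2) * (n * q.coeff (i + 2) + ((i : ℚ) + 3) * (i + 1) * q.coeff (i + 3))
      = ∑ i ∈ range (M + 1), (x.descFactorial (i + 2) : ℚ) * (i.factorial : ℚ) *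
        n⁻¹ ^ (i + 1) * q.coeff (i + 2)
        + ∑ i ∈ range (M + 1), (x.descFactorial (i + 2) : ℚ) * ((i + 1).factorial : ℚ) *
        ((i : ℚ) + 3) * n⁻¹ ^ (i + 2) * q.coeff (i + 3) := by
    rw [← Finset.sum_add_distrib]
    apply Finset.sum_congr rfl
    intro i _
    have : n⁻¹ ^ (i + 2) * n = n⁻¹ ^ (i + 1) := by
      rw [pow_succ, mul_assoc, inv_mul_cancel₀ hn, mul_one]
    rw [Nat.factorial_succ]
    push_cast
    linear_combination ((x.descFactorial (i + 2) : ℕ) : ℚ) * (i.factorial : ℚ) *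
      q.coeff (i + 2) * this
  have h2 : ∑ i ∈ range (M + 1), (x.descFactorial (i + 2) : ℚ) * ((i + 1).factorial : ℚ) *
        ((i : ℚ) + 3) * n⁻¹ ^ (i + 2) * q.coeff (i + 3)
      = ∑ i ∈ range M, (x.descFactorial (i + 2) : ℚ) * ((i + 1).factorial : ℚ) *
        ((i : ℚ) + 3) * n⁻¹ ^ (i + 2) * q.coeff (i + 3) := by
    rw [Finset.sum_range_succ]
    have : x.descFactorial (M + 2) = 0 := Nat.descFactorial_eq_zero_iff_lt.mpr (by omega)
    rw [this]; simp
  have h3 : ∀ i : ℕ, ((x + 1).descFactorial (i + 2) : ℚ)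
      = (x.descFactorial (i + 2) : ℚ) + (i + 2) * (x.descFactorial (i + 1) : ℚ) := by
    intro i
    rw [Nat.succ_descFactorial_succ]
    rw [show x.descFactorial (i + 2) = (x - (i + 1)) * x.descFactorial (i + 1) from
      Nat.descFactorial_succ x (i + 1)]
    by_cases h : i + 1 ≤ x
    · rw [Nat.cast_mul, Nat.cast_mul, Nat.cast_sub h]; push_cast; ring
    · have : x.descFactorial (i + 1) = 0 := Nat.descFactorial_eq_zero_iff_lt.mpr (by omega)
      rw [this]; push_cast; ring
  rw [h1, h2, Finset.sum_range_succ' (fun i => (x.descFactorial (i + 2) : ℚ) * (i.factorial : ℚ) *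
        n⁻¹ ^ (i + 1) * q.coeff (i + 2)) M,
    Finset.sum_range_succ' (fun i => ((x + 1).descFactorial (i + 2) : ℚ) * (i.factorial : ℚ) *
        n⁻¹ ^ (i + 2) * q.coeff (i + 2)) M]
  rw [pow_succ n x]
  have h4 : ∑ i ∈ range M, ((x + 1).descFactorial (i + 1 + 2) : ℚ) * ((i + 1).factorial : ℚ) *
        n⁻¹ ^ (i + 1 + 2) * q.coeff (i + 1 + 2)
      = n⁻¹ * (∑ i ∈ range M, (x.descFactorial (i + 1 + 2) : ℚ) * ((i + 1).factorial : ℚ) *
        n⁻¹ ^ (i + 1 + 1) * q.coeff (i + 1 + 2) +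
        ∑ i ∈ range M, (x.descFactorial (i + 2) : ℚ) * ((i + 1).factorial : ℚ) *
        ((i : ℚ) + 3) * n⁻¹ ^ (i + 2) * q.coeff (i + 3)) := by
    rw [← Finset.sum_add_distrib, Finset.mul_sum]
    apply Finset.sum_congr rfl
    intro i _
    rw [h3 (i + 1)]
    push_cast
    ring
  rw [h4, h3 0]
  have h5 : (x.descFactorial (0 + 1) : ℚ) = x := by simp
  rw [h5]
  generalize (∑ i ∈ range M, (x.descFactorial (i + 1 + 2) : ℚ) * ((i + 1).factorial : ℚ) *
        n⁻¹ ^ (i + 1 + 1) * q.coeff (i + 1 + 2)) = A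
  generalize (∑ i ∈ range M, (x.descFactorial (i + 2) : ℚ) * ((i + 1).factorial : ℚ) *
        ((i : ℚ) + 3) * n⁻¹ ^ (i + 2) * q.coeff (i + 3)) = B
  simp only [zero_add, Nat.cast_zero, pow_one]
  field_simp
  ring

section powerset

variable (s : α → ℚ) (x : ℚ)

theorem sum_powerset_aux {M : Type*} [AddCommMonoid M] {l : α} {K : Finset α} (hl : l ∉ K)
    (g : Finset α → Finset α → M) :
    ∑ I ∈ (insert l K).powerset, g I (insert l K \ I)
      = ∑ I ∈ K.powerset, (g I (insert l (K \ I)) + g (insert l I) (K \ I)) := by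
  rw [Finset.sum_powerset_insert hl, ← Finset.sum_add_distrib]
  apply Finset.sum_congr rfl
  intro I hI
  have hlI : l ∉ I := fun e => hl ((Finset.mem_powerset.mp hI) e)
  congr 2
  · ext y; simp only [mem_sdiff, mem_insert]
    by_cases hy : y = l
    · subst hy; simp [hlI]
    · simp [hy]
  · ext y; simp only [mem_sdiff, mem_insert]
    by_cases hy : y = l
    · subst hy; simp [hl]
    · simp [hy]

/-- `∏ (x + 1 + s_l y)` -/
noncomputable def qq (K : Finset α) : ℚ[X] := ∏ l ∈ K, (C (x + 1) + C (s l) * X)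

theorem qq_insert {l : α} {K : Finset α} (hl : l ∉ K) :
    qq s x (insert l K) = (C (x + 1) + C (s l) * X) * qq s x K := by
  rw [qq, Finset.prod_insert hl, qq]

theorem sum0 (K : Finset α) :
    ∑ I ∈ K.powerset, ∏ l ∈ K \ I, (C x + C (s l) * X) = qq s x K := by
  induction K using Finset.induction_on with
  | empty => simp [qq]
  | insert a K ha ih =>
    rw [sum_powerset_aux ha (fun _ J => ∏ l ∈ J, (C x + C (s l) * X)), Finset.sum_add_distrib, ih,
      qq_insert _ _ ha]
    have : ∀ I ∈ K.powerset, ∏ l ∈ insert a (K \ I), (C x + C (s l) * X)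
        = (C x + C (s a) * X) * ∏ l ∈ K \ I, (C x + C (s l) * X) := by
      intro I hI
      rw [Finset.prod_insert (by simp [ha])]
    rw [Finset.sum_congr rfl this, ← Finset.mul_sum, ih]
    rw [C_add, C_1]; ring

theorem sum1 (K : Finset α) :
    ∑ I ∈ K.powerset, C (∑ l ∈ I, s l) * ∏ l ∈ K \ I, (C x + C (s l) * X)
      = derivative (qq s x K) := by
  induction K using Finset.induction_on with
  | empty => simp [qq]
  | insert a K ha ih =>
    rw [sum_powerset_aux ha (fun I J => C (∑ l ∈ I, s l) * ∏ l ∈ J, (C x + C (s l) * X)),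
      Finset.sum_add_distrib, qq_insert _ _ ha]
    have h1 : ∀ I ∈ K.powerset, C (∑ l ∈ I, s l) * ∏ l ∈ insert a (K \ I), (C x + C (s l) * X)
        = (C x + C (s a) * X) * (C (∑ l ∈ I, s l) * ∏ l ∈ K \ I, (C x + C (s l) * X)) := by
      intro I hI
      rw [Finset.prod_insert (by simp [ha])]; ring
    have h2 : ∀ I ∈ K.powerset, C (∑ l ∈ insert a I, s l) * ∏ l ∈ K \ I, (C x + C (s l) * X)
        = C (s a) * ∏ l ∈ K \ I, (C x + C (s l) * X) +
          C (∑ l ∈ I, s l) * ∏ l ∈ K \ I, (C x + C (s l) * X) := by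
      intro I hI
      have haI : a ∉ I := fun e => ha ((Finset.mem_powerset.mp hI) e)
      rw [Finset.sum_insert haI, C_add]; ring
    rw [Finset.sum_congr rfl h1, Finset.sum_congr rfl h2, ← Finset.mul_sum, Finset.sum_add_distrib,
      ← Finset.mul_sum, ih, sum0]
    simp only [derivative_mul, derivative_add, derivative_C, derivative_X, C_add, C_1]
    ring_nf
    simp

theorem sum2 (K : Finset α) :
    X * ∑ I ∈ K.powerset, C (∑ l ∈ I, s l) ^ 2 * ∏ l ∈ K \ I, (C x + C (s l) * X)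
      = C (∑ l ∈ K, s l) * qq s x K - C (x + 1) * derivative (qq s x K)
        + X * derivative (derivative (qq s x K)) := by
  induction K using Finset.induction_on with
  | empty => simp [qq]
  | insert a K ha ih =>
    rw [sum_powerset_aux ha (fun I J => C (∑ l ∈ I, s l) ^ 2 * ∏ l ∈ J, (C x + C (s l) * X)),
      Finset.sum_add_distrib, qq_insert _ _ ha]
    have h1 : ∀ I ∈ K.powerset, C (∑ l ∈ I, s l) ^ 2 * ∏ l ∈ insert a (K \ I), (C x + C (s l) * X)
        = (C x + C (s a) * X) * (C (∑ l ∈ I, s l) ^ 2 * ∏ l ∈ K \ I, (C x + C (s l) * X)) := by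
      intro I hI
      rw [Finset.prod_insert (by simp [ha])]; ring
    have h2 : ∀ I ∈ K.powerset, C (∑ l ∈ insert a I, s l) ^ 2 * ∏ l ∈ K \ I, (C x + C (s l) * X)
        = C (s a) ^ 2 * ∏ l ∈ K \ I, (C x + C (s l) * X) +
          2 * C (s a) * (C (∑ l ∈ I, s l) * ∏ l ∈ K \ I, (C x + C (s l) * X)) +
          C (∑ l ∈ I, s l) ^ 2 * ∏ l ∈ K \ I, (C x + C (s l) * X) := by
      intro I hI
      have haI : a ∉ I := fun e => ha ((Finset.mem_powerset.mp hI) e)
      rw [Finset.sum_insert haI, C_add]; ring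
    rw [Finset.sum_congr rfl h1, Finset.sum_congr rfl h2, ← Finset.mul_sum, Finset.sum_add_distrib,
      Finset.sum_add_distrib, ← Finset.mul_sum, ← Finset.mul_sum, sum0, sum1, Finset.sum_insert ha]
    set Q := qq s x K
    set Z := ∑ I ∈ K.powerset, C (∑ l ∈ I, s l) ^ 2 * ∏ l ∈ K \ I, (C x + C (s l) * X)
    have e1 : derivative ((C (x + 1) + C (s a) * X) * Q)
        = C (s a) * Q + (C (x + 1) + C (s a) * X) * derivative Q := by
      simp only [derivative_mul, derivative_add, derivative_C, derivative_X]; ring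
    have e2 : derivative (C (s a) * Q + (C (x + 1) + C (s a) * X) * derivative Q)
        = 2 * C (s a) * derivative Q + (C (x + 1) + C (s a) * X) * derivative (derivative Q) := by
      simp only [derivative_mul, derivative_add, derivative_C, derivative_X]; ring
    rw [e1, e2]
    simp only [C_add, C_1] at ih ⊢
    linear_combination ((C x + 1) + C (s a) * X) * ih

theorem qq_coeff_zero (K : Finset α) : (qq s x K).coeff 0 = (x + 1) ^ K.card := by
  induction K using Finset.induction_on with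
  | empty => simp [qq]
  | insert a K ha ih =>
    rw [qq_insert _ _ ha, Finset.card_insert_of_notMem ha, mul_coeff_zero, ih]
    simp; ring

theorem qq_coeff_one (K : Finset α) :
    (x + 1) * (qq s x K).coeff 1 = (∑ l ∈ K, s l) * (x + 1) ^ K.card := by
  induction K using Finset.induction_on with
  | empty => simp [qq, coeff_one]
  | insert a K ha ih =>
    have : ((C (x + 1) + C (s a) * X) * qq s x K).coeff 1
        = (x + 1) * (qq s x K).coeff 1 + s a * (qq s x K).coeff 0 := by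
      rw [add_mul, coeff_add, coeff_C_mul, mul_assoc, coeff_C_mul,
        show (1 : ℕ) = 0 + 1 from rfl, coeff_X_mul]
    rw [qq_insert _ _ ha, Finset.card_insert_of_notMem ha, this, qq_coeff_zero,
      Finset.sum_insert ha]
    rw [pow_succ]
    linear_combination (x + 1) * ih

theorem scal1 (K : Finset α) :
    ∑ I ∈ K.powerset, (∑ l ∈ I, s l) * x ^ (K \ I).card = (qq s x K).coeff 1 := by
  have h := congrArg (fun p => p.coeff 0) (sum1 s x K)
  simp only [finsetSum_coeff, coeff_derivative] at h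
  rw [show (qq s x K).coeff 1 = (qq s x K).coeff (0 + 1) * ((0 : ℕ) + 1 : ℚ) by simp, ← h]
  apply Finset.sum_congr rfl
  intro I _
  rw [coeff_C_mul]
  congr 1
  rw [coeff_zero_prod]
  simp

theorem scal2 (K : Finset α) :
    ∑ I ∈ K.powerset, (∑ l ∈ I, s l) ^ 2 * x ^ (K \ I).card
      = (∑ l ∈ K, s l) * (qq s x K).coeff 1 - 2 * x * (qq s x K).coeff 2 := by
  have h := congrArg (fun p => p.coeff (0 + 1)) (sum2 s x K)
  simp only [coeff_X_mul, coeff_add, coeff_sub, coeff_C_mul,
    coeff_derivative, finsetSum_coeff] at h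
  have h2 : ∑ I ∈ K.powerset, (∑ l ∈ I, s l) ^ 2 * x ^ (K \ I).card
      = ∑ b ∈ K.powerset, (C (∑ l ∈ b, s l) ^ 2 * ∏ l ∈ K \ b, (C x + C (s l) * X)).coeff 0 := by
    apply Finset.sum_congr rfl
    intro I _
    rw [← C_pow, coeff_C_mul, coeff_zero_prod]
    simp
  rw [h2, h]
  push_cast; ring

end powerset

end Pool.Agent.Uni
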