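import Pool.Agent.H527R2.UniB

/-!
# The hub graph: closed forms for all labelings
-/

namespace Pool.Agent.Uni

open Finset Polynomial

variable {α : Type*} [DecidableEq α]

/-- base value of the tree recursion: is the labeling constant on `S`? -/
def bT (S : Finset α) (c : α → α) : ℚ := if (S.image c).card = 1 then 1 else 0

/-- the edges of the hubs in `hs` -/
def hubE (ρ : α → ℚ) (R hs : List α) : List (α × α × ℚ) :=
  hs.flatMap fun h => R.map fun w => (h, w, ρ w)

noncomputable def hubT (κ : ℕ) (n : ℚ) (K : Finset α) (s : α → ℚ) : ℚ :=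
  n ^ κ * n⁻¹ * (κ : ℚ) ^ (K.card - 1) * ∏ l ∈ K, s l

noncomputable def hubU (N κ : ℕ) (n : ℚ) (K : Finset α) (s : α → ℚ) : ℚ :=
  (∏ l ∈ K, s l) * (n ^ κ * (κ : ℚ) ^ K.card - lam N κ n (∏ l ∈ K, (C (κ : ℚ) + C (s l) * X)))

theorem sum_tR (c : α → α) (ρ : α → ℚ) (K : Finset α) (R : List α) (hR : ∀ w ∈ R, c w ∈ K) :
    ∑ l ∈ K, tR c R ρ l = (R.map ρ).sum := by
  induction R with
  | nil => simp [tR]
  | cons w R ih =>
    have h1 : ∀ l, tR c (w :: R) ρ l = (if c w = l then ρ w else 0) + tR c R ρ l := by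
      intro l; simp [tR]
    simp only [h1, Finset.sum_add_distrib]
    rw [ih (fun w' hw' => hR w' (List.mem_cons_of_mem _ hw')),
      Finset.sum_ite_eq, if_pos (hR w (List.mem_cons_self ..))]
    simp

theorem tR_mI_of_ne (c : α → α) (ρ : α → ℚ) (h : α) (I : Finset α) (R : List α)
    (l : α) (hl : l ≠ h) (hlI : l ∉ I) : tR (mI c I h) R ρ l = tR c R ρ l := by
  unfold tR
  congr 1
  apply List.map_congr_left
  intro w _
  by_cases h1 : c w ∈ I
  · have : c w ≠ l := fun e => hlI (e ▸ h1)
    simp [mI, h1, this, Ne.symm hl]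
  · simp [mI, h1]

theorem tR_mI_self (c : α → α) (ρ : α → ℚ) (h : α) (I : Finset α) (R : List α)
    (hR : ∀ w ∈ R, c w ≠ h) : tR (mI c I h) R ρ h = ∑ l ∈ I, tR c R ρ l := by
  induction R with
  | nil => simp [tR]
  | cons w R ih =>
    have h1 : ∀ l, tR c (w :: R) ρ l = (if c w = l then ρ w else 0) + tR c R ρ l := by
      intro l; simp [tR]
    have h2 : tR (mI c I h) (w :: R) ρ h
        = (if mI c I h w = h then ρ w else 0) + tR (mI c I h) R ρ h := by simp [tR]
    rw [h2, ih (fun w' hw' => hR w' (List.mem_cons_of_mem _ hw'))]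
    simp only [h1, Finset.sum_add_distrib, Finset.sum_ite_eq]
    congr 1
    by_cases h3 : c w ∈ I
    · simp [mI, h3]
    · simp [mI, h3, hR w (List.mem_cons_self ..)]

theorem image_mI (c : α → α) (W : Finset α) (h : α) (hc : c h = h) (I : Finset α)
    (hI : I ⊆ W.image c) (hh : h ∉ W.image c) :
    (insert h W).image (mI c I h) = insert h (W.image c \ I) := by
  ext l
  simp only [mem_image, mem_insert, mem_sdiff]
  constructor
  · rintro ⟨w, hw, rfl⟩
    rcases hw with rfl | hw
    · left; simp [mI, hc]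
    · by_cases h1 : c w ∈ I
      · left; simp [mI, h1]
      · right; simp only [mI, h1, if_false]; exact ⟨⟨w, hw, rfl⟩, not_false⟩
  · rintro (rfl | ⟨⟨w, hw, rfl⟩, h2⟩)
    · exact ⟨l, Or.inl rfl, by simp [mI, hc]⟩
    · exact ⟨w, Or.inr hw, by simp [mI, h2]⟩

theorem hubs_closed (ρ : α → ℚ) (R : List α) (N : ℕ) (n : ℚ) (hn : n ≠ 0)
    (hnR : n = (R.map ρ).sum) :
    ∀ (hs : List α) (W : Finset α) (c : α → α), W.Nonempty → hs.Nodup → (∀ h ∈ hs, h ∉ W) →
      (∀ h ∈ hs, c h = h) → (∀ w ∈ W, c w ∈ W) → (∀ w ∈ R, w ∈ W) → hs.length ≤ N →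
      tc (bT (W ∪ hs.toFinset)) (hubE ρ R hs) c = hubT hs.length n (W.image c) (tR c R ρ) ∧
      uc (bT (W ∪ hs.toFinset)) (fun _ => 0) (hubE ρ R hs) c
        = hubU N hs.length n (W.image c) (tR c R ρ) := by
  intro hs
  induction hs with
  | nil =>
    intro W c hW _ _ _ _ hR _
    have hKn : (W.image c).Nonempty := hW.image c
    have hcard : 1 ≤ (W.image c).card := hKn.card_pos
    have hsum : ∑ l ∈ W.image c, tR c R ρ l = n := by
      rw [sum_tR c ρ _ R (fun w hw => Finset.mem_image_of_mem c (hR w hw)), hnR]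
    constructor
    · simp only [hubE, List.flatMap_nil, tc, bT, List.toFinset_nil, Finset.union_empty, hubT,
        List.length_nil]
      by_cases h1 : (W.image c).card = 1
      · obtain ⟨l, hl⟩ := Finset.card_eq_one.mp h1
        rw [hl] at hsum ⊢
        simp only [Finset.sum_singleton] at hsum
        simp [hsum, hn]
      · have : (W.image c).card - 1 ≠ 0 := by omega
        simp [h1, this]
    · simp only [hubE, List.flatMap_nil, uc, hubU, List.length_nil, lam]
      have : (W.image c).card ≠ 0 := by omega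
      have h0 : ∀ i : ℕ, Nat.descFactorial 0 (i + 2) = 0 := fun i =>
        Nat.descFactorial_eq_zero_iff_lt.mpr (by omega)
      simp [this, h0]
  | cons h hs ih =>
    intro W c hW hnd hdis hch hcW hR hN
    have hhW : h ∉ W := hdis h (List.mem_cons_self ..)
    have hc : c h = h := hch h (List.mem_cons_self ..)
    set K := W.image c with hK
    have hKW : K ⊆ W := by
      intro l hl
      obtain ⟨w, hw, rfl⟩ := Finset.mem_image.mp hl
      exact hcW w hw
    have hhK : h ∉ K := fun e => hhW (hKW e)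
    have hRK : ∀ w ∈ R, c w ∈ K := fun w hw => Finset.mem_image_of_mem c (hR w hw)
    have hS : W ∪ (h :: hs).toFinset = insert h W ∪ hs.toFinset := by
      ext v; simp only [List.toFinset_cons, mem_union, mem_insert]; tauto
    have hsum : ∑ l ∈ K, tR c R ρ l = n := by rw [sum_tR c ρ _ R hRK, hnR]
    have hlen : hs.length + 1 ≤ N := by simpa using hN
    -- the inductive hypothesis for merged states
    have IH : ∀ I ⊆ K,
        tc (bT (insert h W ∪ hs.toFinset)) (hubE ρ R hs) (mI c I h)
          = hubT hs.length n (insert h (K \ I)) (tR (mI c I h) R ρ) ∧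
        uc (bT (insert h W ∪ hs.toFinset)) (fun _ => 0) (hubE ρ R hs) (mI c I h)
          = hubU N hs.length n (insert h (K \ I)) (tR (mI c I h) R ρ) := by
      intro I hI
      have hres := ih (insert h W) (mI c I h) (Finset.insert_nonempty _ _)
        (List.nodup_cons.mp hnd).2 ?_ ?_ ?_ ?_ (by omega)
      · rw [image_mI c W h hc I hI hhK] at hres
        exact hres
      · intro h' hh' hmem
        rcases Finset.mem_insert.mp hmem with e | e
        · exact (List.nodup_cons.mp hnd).1 (e ▸ hh')
        · exact hdis h' (List.mem_cons_of_mem _ hh') e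
      · intro h' hh'
        have h1 : c h' = h' := hch h' (List.mem_cons_of_mem _ hh')
        have h2 : h' ∉ I := fun e => hdis h' (List.mem_cons_of_mem _ hh') (hKW (hI e))
        simp [mI, h1, h2]
      · intro w hw
        rcases Finset.mem_insert.mp hw with e | e
        · have : h ∉ I := fun e => hhK (hI e)
          simp [e, mI, hc, this]
        · by_cases h1 : c w ∈ I
          · simp [mI, h1]
          · simp only [mI, h1, if_false]; exact Finset.mem_insert_of_mem (hcW w e)
      · intro w hw; exact Finset.mem_insert_of_mem (hR w hw)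
    have hmI : mI c ∅ h = c := by funext v; simp [mI]
    have hsI : ∀ I ⊆ K, (∏ l ∈ insert h (K \ I), tR (mI c I h) R ρ l)
        = (∑ l ∈ I, tR c R ρ l) * ∏ l ∈ K \ I, tR c R ρ l := by
      intro I hI
      rw [Finset.prod_insert (by simp [hhK]), tR_mI_self c ρ h I R
        (fun w hw e => hhK (e ▸ hRK w hw))]
      congr 1
      apply Finset.prod_congr rfl
      intro l hl
      obtain ⟨hl1, hl2⟩ := Finset.mem_sdiff.mp hl
      exact tR_mI_of_ne c ρ h I R l (fun e => hhK (e ▸ hl1)) hl2
    have hsP : ∀ I ⊆ K, (∏ l ∈ insert h (K \ I), (C (hs.length : ℚ) + C (tR (mI c I h) R ρ l) * X))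
        = (C (hs.length : ℚ) + C (∑ l ∈ I, tR c R ρ l) * X) *
          ∏ l ∈ K \ I, (C (hs.length : ℚ) + C (tR c R ρ l) * X) := by
      intro I hI
      rw [Finset.prod_insert (by simp [hhK]), tR_mI_self c ρ h I R
        (fun w hw e => hhK (e ▸ hRK w hw))]
      congr 1
      apply Finset.prod_congr rfl
      intro l hl
      obtain ⟨hl1, hl2⟩ := Finset.mem_sdiff.mp hl
      rw [tR_mI_of_ne c ρ h I R l (fun e => hhK (e ▸ hl1)) hl2]
    have hcardI : ∀ I ⊆ K, (insert h (K \ I)).card = (K \ I).card + 1 := by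
      intro I _
      rw [Finset.card_insert_of_notMem (by simp [hhK])]
    have hprod : ∀ I ⊆ K, (∏ l ∈ I, tR c R ρ l) * ∏ l ∈ K \ I, tR c R ρ l = ∏ l ∈ K, tR c R ρ l := by
      intro I hI
      rw [mul_comm]; exact Finset.prod_sdiff hI
    set s := tR c R ρ with hs_def
    set x : ℚ := (hs.length : ℚ) with hx_def
    set Q := qq s x K with hQ
    have hKpos : 1 ≤ K.card := (hW.image c).card_pos
    have hq1 : (x + 1) * Q.coeff 1 = n * (x + 1) ^ K.card := by rw [hQ, qq_coeff_one, hsum]
    have hx1 : x + 1 ≠ 0 := by positivity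
    constructor
    · have e1 : tc (bT (W ∪ (h :: hs).toFinset)) (hubE ρ R (h :: hs)) c
          = ∑ I ∈ K.powerset, (∏ l ∈ I, s l) *
            (n ^ hs.length * n⁻¹ * x ^ (K \ I).card * ((∑ l ∈ I, s l) * ∏ l ∈ K \ I, s l)) := by
        rw [hS]
        simp only [hubE, List.flatMap_cons]
        rw [tc_append, ← hmI]
        have := hub_tc (tc (bT (insert h W ∪ hs.toFinset)) (hubE ρ R hs)) ρ c h hc K hhK R hRK ∅
          (Finset.empty_subset _)
        simp only [hubE] at this
        rw [this]
        rw [Finset.sdiff_empty]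
        apply Finset.sum_congr rfl
        intro I hI
        have hI' := Finset.mem_powerset.mp hI
        rw [Finset.empty_union]
        have := (IH I hI').1
        simp only [hubE] at this
        rw [this, hubT, hsI I hI', hcardI I hI']
        simp
        ring
      rw [e1]
      have e2 : ∀ I ∈ K.powerset, (∏ l ∈ I, s l) *
            (n ^ hs.length * n⁻¹ * x ^ (K \ I).card * ((∑ l ∈ I, s l) * ∏ l ∈ K \ I, s l))
          = (∏ l ∈ K, s l) * (n ^ hs.length * n⁻¹) * ((∑ l ∈ I, s l) * x ^ (K \ I).card) := by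
        intro I hI
        rw [← hprod I (Finset.mem_powerset.mp hI)]; ring
      rw [Finset.sum_congr rfl e2, ← Finset.mul_sum, scal1 s x K]
      unfold hubT
      have e3 : Q.coeff 1 = n * (x + 1) ^ (K.card - 1) := by
        apply mul_left_cancel₀ hx1
        rw [hq1]
        conv_lhs => rw [← Nat.sub_add_cancel hKpos, pow_succ]
        ring
      rw [← hQ, e3]
      simp only [List.length_cons, Nat.cast_add, Nat.cast_one, pow_succ]
      rw [← hx_def]
      ring
    · have e1 : uc (bT (W ∪ (h :: hs).toFinset)) (fun _ => 0) (hubE ρ R (h :: hs)) c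
          = ∑ I ∈ K.powerset, (∏ l ∈ I, s l) *
            (((∑ l ∈ I, s l) * ∏ l ∈ K \ I, s l) *
              (n ^ hs.length * x ^ ((K \ I).card + 1) - lam N hs.length n
                ((C x + C (∑ l ∈ I, s l) * X) * ∏ l ∈ K \ I, (C x + C (s l) * X)))
             + (∑ l ∈ I, s l) *
            (n ^ hs.length * n⁻¹ * x ^ (K \ I).card * ((∑ l ∈ I, s l) * ∏ l ∈ K \ I, s l))) := by
        rw [hS]
        simp only [hubE, List.flatMap_cons]
        rw [uc_append, ← hmI]
        have := hub_uc (tc (bT (insert h W ∪ hs.toFinset)) (hubE ρ R hs))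
          (uc (bT (insert h W ∪ hs.toFinset)) (fun _ => 0) (hubE ρ R hs)) ρ c h hc K hhK R hRK ∅
          (Finset.empty_subset _)
        simp only [hubE] at this
        rw [this]
        rw [Finset.sdiff_empty]
        apply Finset.sum_congr rfl
        intro I hI
        have hI' := Finset.mem_powerset.mp hI
        rw [Finset.empty_union]
        have t1 := (IH I hI').1
        have t2 := (IH I hI').2
        simp only [hubE] at t1 t2
        rw [t1, t2, hubT, hubU, hsI I hI', hcardI I hI', hsP I hI']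
        simp
        ring
      rw [e1]
      have e2 : ∀ I ∈ K.powerset, (∏ l ∈ I, s l) *
            (((∑ l ∈ I, s l) * ∏ l ∈ K \ I, s l) *
              (n ^ hs.length * x ^ ((K \ I).card + 1) - lam N hs.length n
                ((C x + C (∑ l ∈ I, s l) * X) * ∏ l ∈ K \ I, (C x + C (s l) * X)))
             + (∑ l ∈ I, s l) *
            (n ^ hs.length * n⁻¹ * x ^ (K \ I).card * ((∑ l ∈ I, s l) * ∏ l ∈ K \ I, s l)))
          = (∏ l ∈ K, s l) * (n ^ hs.length * x * ((∑ l ∈ I, s l) * x ^ (K \ I).card)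
            + n ^ hs.length * n⁻¹ * ((∑ l ∈ I, s l) ^ 2 * x ^ (K \ I).card)
            - lam N hs.length n (C (∑ l ∈ I, s l) * ((C x + C (∑ l ∈ I, s l) * X) *
              ∏ l ∈ K \ I, (C x + C (s l) * X)))) := by
        intro I hI
        rw [← hprod I (Finset.mem_powerset.mp hI), lam_C_mul]; ring
      rw [Finset.sum_congr rfl e2, ← Finset.mul_sum, Finset.sum_sub_distrib,
        Finset.sum_add_distrib, ← Finset.mul_sum, ← Finset.mul_sum, scal1 s x K, scal2 s x K,
        ← lam_sum, hsum, ← hQ]
      have e3 : ∑ I ∈ K.powerset, (C (∑ l ∈ I, s l) * ((C x + C (∑ l ∈ I, s l) * X) *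
              ∏ l ∈ K \ I, (C x + C (s l) * X)))
          = C n * Q - derivative Q + X * derivative (derivative Q) := by
        have a1 := sum1 s x K
        have a2 := sum2 s x K
        rw [hsum, ← hQ] at a2
        rw [← hQ] at a1
        have : ∑ I ∈ K.powerset, (C (∑ l ∈ I, s l) * ((C x + C (∑ l ∈ I, s l) * X) *
              ∏ l ∈ K \ I, (C x + C (s l) * X)))
            = C x * ∑ I ∈ K.powerset, C (∑ l ∈ I, s l) * ∏ l ∈ K \ I, (C x + C (s l) * X)
            + X * ∑ I ∈ K.powerset, C (∑ l ∈ I, s l) ^ 2 * ∏ l ∈ K \ I, (C x + C (s l) * X) := by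
          rw [Finset.mul_sum, Finset.mul_sum, ← Finset.sum_add_distrib]
          exact Finset.sum_congr rfl fun I _ => by ring
        rw [this, a1, a2]
        simp only [C_add, C_1]; ring
      rw [e3, hx_def, lam_step N hs.length hlen n hn Q, ← hx_def]
      unfold hubU
      have e4 : ∏ l ∈ K, (C (((h :: hs).length : ℕ) : ℚ) + C (s l) * X) = Q := by
        rw [hQ, qq]; simp [hx_def]
      rw [e4]
      simp only [List.length_cons, Nat.cast_add, Nat.cast_one]
      rw [← hx_def]
      have e5 : n ^ hs.length * x * Q.coeff 1 + n ^ hs.length * n⁻¹ *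
          (n * Q.coeff 1 - 2 * x * Q.coeff 2) = n ^ hs.length * ((x + 1) * Q.coeff 1)
            - 2 * x * (n ^ hs.length * n⁻¹) * Q.coeff 2 := by
        have : n⁻¹ * n = 1 := inv_mul_cancel₀ hn
        linear_combination (n ^ hs.length * Q.coeff 1) * this
      rw [e5, hq1]
      ring

end Pool.Agent.Uni
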