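import Pool.Agent.H527R2.UniC

/-!
# Forest sums, the dependence on the number of hubs and its inversion
-/

namespace Pool.Agent.Uni

open Finset Polynomial

variable {α : Type*} [DecidableEq α]

/-- total weight of the class with label `l`, in any ring -/
def tw {A : Type*} [CommRing A] (R : List α) (ρ : α → A) (c : α → α) (l : α) : A :=
  (R.map (fun w => if c w = l then ρ w else 0)).sum

/-- product over the classes of `g (weight)` -/
def fb {A : Type*} [CommRing A] (W : Finset α) (R : List α) (ρ : α → A) (g : A → A)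
    (c : α → α) : A := ∏ l ∈ W.image c, g (tw R ρ c l)

theorem tw_map {A B : Type*} [CommRing A] [CommRing B] (f : A →+* B) (R : List α) (ρ : α → A)
    (c : α → α) (l : α) : f (tw R ρ c l) = tw R (fun v => f (ρ v)) c l := by
  unfold tw
  rw [map_list_sum, List.map_map]
  congr 1
  apply List.map_congr_left
  intro w _
  by_cases h : c w = l <;> simp [h]

theorem tc_map {A B : Type*} [CommRing A] [CommRing B] (f : A →+* B) (b : (α → α) → A)
    (L : List (α × α × A)) (c : α → α) :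
    f (tc b L c) = tc (fun c => f (b c)) (L.map fun e => (e.1, e.2.1, f e.2.2)) c := by
  induction L generalizing c with
  | nil => rfl
  | cons e L ih =>
    simp only [List.map_cons, tc]
    by_cases h : c e.1 = c e.2.1
    · simp [h, ih]
    · simp [h, ih]

/-- the polynomial-valued forest sum -/
noncomputable def Epol (W : Finset α) (R : List α) (ρ : α → ℚ) (L : List (α × α × ℚ))
    (c : α → α) : ℚ[X] :=
  tc (fun c => ∏ l ∈ W.image c, (C (tw R ρ c l) * (1 + C (tw R ρ c l) * X)))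
    (L.map fun e => (e.1, e.2.1, C e.2.2)) c

theorem coeff_scale (K : Finset α) (s : α → ℚ) (k : ℚ) (hk : k ≠ 0) : ∀ j : ℕ,
    (∏ l ∈ K, (C k + C (s l) * X)).coeff j
      = k ^ K.card * k⁻¹ ^ j * (∏ l ∈ K, (1 + C (s l) * X)).coeff j := by
  induction K using Finset.induction_on with
  | empty =>
    intro j
    rcases j with _ | j
    · simp
    · simp [coeff_one]
  | insert a K ha ih =>
    intro j
    rw [Finset.prod_insert ha, Finset.prod_insert ha, Finset.card_insert_of_notMem ha]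
    rcases j with _ | j
    · simp only [mul_coeff_zero, ih]
      simp; ring
    · have h1 : ∀ (q : ℚ[X]) (z b : ℚ), ((C z + C b * X) * q).coeff (j + 1)
          = z * q.coeff (j + 1) + b * q.coeff j := by
        intro q z b
        rw [add_mul, coeff_add, coeff_C_mul, mul_assoc, coeff_C_mul, coeff_X_mul]
      have h1' : ∀ (q : ℚ[X]) (b : ℚ), ((1 + C b * X) * q).coeff (j + 1)
          = q.coeff (j + 1) + b * q.coeff j := by
        intro q b
        have := h1 q 1 b
        rwa [C_1, one_mul] at this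
      rw [h1, h1', ih, ih]
      have : k⁻¹ * k = 1 := inv_mul_cancel₀ hk
      rw [pow_succ k⁻¹ j, pow_succ k]
      linear_combination (-(k ^ K.card * k⁻¹ ^ j * s a * (∏ l ∈ K, (1 + C (s l) * X)).coeff j)) *
        this

theorem mrg_maps {W : Finset α} {c : α → α} (hc : ∀ w ∈ W, c w ∈ W) {u v : α} (hu : u ∈ W) :
    ∀ w ∈ W, mrg c u v w ∈ W := by
  intro w hw
  unfold mrg
  split_ifs
  · exact hc u hu
  · exact hc w hw

theorem image_mrg {W : Finset α} {c : α → α} {u v : α} (hu : u ∈ W) (huv : c u ≠ c v) :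
    W.image (mrg c u v) = (W.image c).erase (c v) := by
  ext l
  simp only [mem_image, mem_erase, mrg]
  constructor
  · rintro ⟨w, hw, rfl⟩
    split_ifs with h
    · exact ⟨huv, u, hu, rfl⟩
    · exact ⟨h, w, hw, rfl⟩
  · rintro ⟨h1, w, hw, rfl⟩
    exact ⟨w, hw, by rw [if_neg h1]⟩

theorem card_mrg {W : Finset α} {c : α → α} {u v : α} (hu : u ∈ W) (hv : v ∈ W)
    (huv : c u ≠ c v) : (W.image (mrg c u v)).card + 1 = (W.image c).card := by
  rw [image_mrg hu huv, Finset.card_erase_of_mem (Finset.mem_image_of_mem c hv)]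
  have : 0 < (W.image c).card := Finset.card_pos.mpr ⟨_, Finset.mem_image_of_mem c hv⟩
  omega

/-- `∑_{i<N} (k)_{i+2} i! (1/(nk))^{i+2} e_{i+2}` -/
noncomputable def sig (N : ℕ) (n : ℚ) (e : ℕ → ℚ) (k : ℕ) : ℚ :=
  ∑ i ∈ range N, (k.descFactorial (i + 2) : ℚ) * (i.factorial : ℚ) * (n⁻¹ * (k : ℚ)⁻¹) ^ (i + 2)
    * e (i + 2)

theorem sig_add (N : ℕ) (n : ℚ) (e e' : ℕ → ℚ) (a : ℚ) (k : ℕ) :
    sig N n (fun j => e j + a * e' j) k = sig N n e k + a * sig N n e' k := by
  unfold sig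
  rw [Finset.mul_sum, ← Finset.sum_add_distrib]
  exact Finset.sum_congr rfl fun i _ => by ring

theorem npart (W : Finset α) (hW : W.Nonempty) (R : List α) (ρ : α → ℚ) (n : ℚ) (N : ℕ) :
    ∀ (L : List (α × α × ℚ)), (∀ e ∈ L, e.1 ∈ W ∧ e.2.1 ∈ W) → ∀ (c : α → α),
      ∃ A : ℚ, ∀ k : ℕ, 1 ≤ k →
      tc (fun c => hubT k n (W.image c) (tR c R ρ)) (L.map fun e => (e.1, e.2.1, (k : ℚ) * e.2.2)) c
        = n ^ k * n⁻¹ * ((k : ℚ) ^ (W.image c).card * (k : ℚ)⁻¹) * (Epol W R ρ L c).coeff 0 ∧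
      uc (fun c => hubT k n (W.image c) (tR c R ρ)) (fun c => hubU N k n (W.image c) (tR c R ρ))
          (L.map fun e => (e.1, e.2.1, (k : ℚ) * e.2.2)) c
        = n ^ k * (k : ℚ) ^ (W.image c).card *
          (A - sig N n (fun j => (Epol W R ρ L c).coeff j) k) := by
  intro L
  induction L with
  | nil =>
    intro _ c
    set K := W.image c with hK
    have hKpos : 1 ≤ K.card := (hW.image c).card_pos
    have hE : Epol W R ρ [] c = C (∏ l ∈ K, tR c R ρ l) * ∏ l ∈ K, (1 + C (tR c R ρ l) * X) := by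
      simp only [Epol, List.map_nil, tc]
      rw [Finset.prod_mul_distrib, map_prod]
      rfl
    refine ⟨∏ l ∈ K, tR c R ρ l, fun k hk => ?_⟩
    have hk0 : (k : ℚ) ≠ 0 := by positivity
    simp only [List.map_nil, tc, uc, hE, coeff_C_mul]
    rw [← hK]
    constructor
    · have h0 : (∏ l ∈ K, (1 + C (tR c R ρ l) * X)).coeff 0 = 1 := by
        rw [coeff_zero_prod]; simp
      rw [h0, mul_one, hubT]
      have : (k : ℚ) ^ K.card * (k : ℚ)⁻¹ = (k : ℚ) ^ (K.card - 1) := by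
        conv_lhs => rw [← Nat.sub_add_cancel hKpos, pow_succ]
        rw [mul_assoc, mul_inv_cancel₀ hk0, mul_one]
      rw [this]
    · unfold hubU lam sig
      simp only [coeff_scale K (tR c R ρ) (k : ℚ) hk0]
      have : ∑ i ∈ range N, ((k.descFactorial (i + 2) : ℕ) : ℚ) * (i.factorial : ℚ) *
          (n⁻¹ * (k : ℚ)⁻¹) ^ (i + 2) * ((∏ l ∈ K, tR c R ρ l) *
          (∏ l ∈ K, (1 + C (tR c R ρ l) * X)).coeff (i + 2))
          = (∏ l ∈ K, tR c R ρ l) * ∑ i ∈ range N, ((k.descFactorial (i + 2) : ℕ) : ℚ) *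
          (i.factorial : ℚ) * (n⁻¹ * (k : ℚ)⁻¹) ^ (i + 2) *
          (∏ l ∈ K, (1 + C (tR c R ρ l) * X)).coeff (i + 2) := by
        rw [Finset.mul_sum]; exact Finset.sum_congr rfl fun i _ => by ring
      rw [this]
      have h2 : ∑ i ∈ range N, ((k.descFactorial (i + 2) : ℕ) : ℚ) * (i.factorial : ℚ) *
          n⁻¹ ^ (i + 2) * ((k : ℚ) ^ K.card * (k : ℚ)⁻¹ ^ (i + 2) *
          (∏ l ∈ K, (1 + C (tR c R ρ l) * X)).coeff (i + 2))
          = (k : ℚ) ^ K.card * ∑ i ∈ range N, ((k.descFactorial (i + 2) : ℕ) : ℚ) *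
          (i.factorial : ℚ) * (n⁻¹ * (k : ℚ)⁻¹) ^ (i + 2) *
          (∏ l ∈ K, (1 + C (tR c R ρ l) * X)).coeff (i + 2) := by
        rw [Finset.mul_sum]; exact Finset.sum_congr rfl fun i _ => by rw [mul_pow]; ring
      rw [h2]; ring
  | cons e L ih =>
    intro hL c
    have hL' : ∀ e ∈ L, e.1 ∈ W ∧ e.2.1 ∈ W := fun e he => hL e (List.mem_cons_of_mem _ he)
    obtain ⟨he1, he2⟩ := hL e (List.mem_cons_self ..)
    by_cases h : c e.1 = c e.2.1
    · obtain ⟨A, hA⟩ := ih hL' c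
      refine ⟨A + 2 * e.2.2 * n⁻¹ * (Epol W R ρ L c).coeff 0, fun k hk => ?_⟩
      have hk0 : (k : ℚ) ≠ 0 := by positivity
      have hkk : (k : ℚ)⁻¹ * k = 1 := inv_mul_cancel₀ hk0
      obtain ⟨h1, h2⟩ := hA k hk
      have hE : Epol W R ρ (e :: L) c = Epol W R ρ L c := by
        simp only [Epol, List.map_cons, tc, h, if_true]
      rw [hE]
      simp only [List.map_cons, tc, uc, h, if_true]
      refine ⟨h1, ?_⟩
      rw [h2, h1]
      linear_combination (2 * e.2.2 * n ^ k * n⁻¹ * (k : ℚ) ^ (W.image c).card *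
        (Epol W R ρ L c).coeff 0) * hkk
    · obtain ⟨A, hA⟩ := ih hL' c
      obtain ⟨A', hA'⟩ := ih hL' (mrg c e.1 e.2.1)
      refine ⟨A + e.2.2 * A' + e.2.2 ^ 2 * n⁻¹ * (Epol W R ρ L (mrg c e.1 e.2.1)).coeff 0,
        fun k hk => ?_⟩
      have hk0 : (k : ℚ) ≠ 0 := by positivity
      have hkk : (k : ℚ)⁻¹ * k = 1 := inv_mul_cancel₀ hk0
      obtain ⟨h1, h2⟩ := hA k hk
      obtain ⟨h1', h2'⟩ := hA' k hk
      have hcard := card_mrg he1 he2 h
      have hpow : (k : ℚ) ^ (W.image c).card = k * (k : ℚ) ^ (W.image (mrg c e.1 e.2.1)).card := by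
        rw [← hcard, pow_succ]; ring
      have hE : Epol W R ρ (e :: L) c = Epol W R ρ L c + C e.2.2 * Epol W R ρ L (mrg c e.1 e.2.1) := by
        simp only [Epol, List.map_cons, tc, h, if_false]
      have hs : sig N n (fun j => (Epol W R ρ (e :: L) c).coeff j) k
          = sig N n (fun j => (Epol W R ρ L c).coeff j) k + e.2.2 *
            sig N n (fun j => (Epol W R ρ L (mrg c e.1 e.2.1)).coeff j) k := by
        rw [← sig_add]; simp only [hE, coeff_add, coeff_C_mul]
      rw [hs, hE, coeff_add, coeff_C_mul]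
      simp only [List.map_cons, tc, uc, h, if_false]
      rw [h1, h2, h1', h2', hpow]
      constructor
      · ring
      · linear_combination (e.2.2 ^ 2 * n ^ k * n⁻¹ * (k : ℚ) *
          (k : ℚ) ^ (W.image (mrg c e.1 e.2.1)).card *
          (Epol W R ρ L (mrg c e.1 e.2.1)).coeff 0) * hkk

/-! ### inversion -/

theorem findiff (P : ℚ[X]) (m : ℕ) (h : P.natDegree < m) :
    ∑ k ∈ range (m + 1), (-1 : ℚ) ^ (m - k) * (m.choose k : ℚ) * P.eval (k : ℚ) = 0 := by
  have h1 := congrFun (Polynomial.fwdDiff_iter_eq_zero_of_degree_lt h) 0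
  rw [fwdDiff_iter_eq_sum_shift] at h1
  simp only [Pi.zero_apply] at h1
  rw [← h1]
  apply Finset.sum_congr rfl
  intro k _
  simp

theorem inner_sum (m j : ℕ) (hj : 1 ≤ j) :
    ∑ k ∈ range (m + 1), (-1 : ℚ) ^ (m - k) * (m.choose k : ℚ) * (k : ℚ) ^ (m - 1) *
      ((k.descFactorial j : ℚ) * ((k : ℚ)⁻¹) ^ j)
      = if j = m then ((m - 1).factorial : ℚ) else 0 := by
  rcases lt_trichotomy j m with h | h | h
  · rw [if_neg h.ne, ← findiff (X ^ (m - 1 - j) * descPochhammer ℚ j) m]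
    · apply Finset.sum_congr rfl
      intro k _
      rw [eval_mul, eval_pow, eval_X, descPochhammer_eval_eq_descFactorial]
      rcases Nat.eq_zero_or_pos k with rfl | hk
      · rw [Nat.descFactorial_eq_zero_iff_lt.mpr hj]; simp
      · have hk0 : (k : ℚ) ≠ 0 := by positivity
        have : (k : ℚ) ^ (m - 1) * ((k : ℚ)⁻¹) ^ j = (k : ℚ) ^ (m - 1 - j) := by
          rw [inv_pow, ← div_eq_mul_inv, div_eq_iff (pow_ne_zero _ hk0), ← pow_add]
          congr 1; omega
        linear_combination ((-1 : ℚ) ^ (m - k) * (m.choose k : ℚ) * (k.descFactorial j : ℚ)) * this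
    · calc (X ^ (m - 1 - j) * descPochhammer ℚ j : ℚ[X]).natDegree
          ≤ (m - 1 - j) + j := by
            refine natDegree_mul_le.trans ?_
            rw [descPochhammer_natDegree]
            gcongr
            simp
        _ < m := by omega
  · subst h
    rw [if_pos rfl, Finset.sum_range_succ, Finset.sum_eq_zero]
    · have hk0 : (j : ℚ) ≠ 0 := by positivity
      rw [Nat.descFactorial_self, zero_add, Nat.sub_self, Nat.choose_self]
      obtain ⟨i, rfl⟩ : ∃ i, j = i + 1 := ⟨j - 1, by omega⟩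
      rw [Nat.factorial_succ, Nat.add_sub_cancel, inv_pow]
      push_cast at hk0 ⊢
      field_simp
      ring
    · intro k hk
      rw [Nat.descFactorial_eq_zero_iff_lt.mpr (Finset.mem_range.mp hk)]; simp
  · rw [if_neg h.ne', Finset.sum_eq_zero]
    intro k hk
    rw [Nat.descFactorial_eq_zero_iff_lt.mpr (by have := Finset.mem_range.mp hk; omega)]; simp

theorem invert (N : ℕ) (n : ℚ) (hn : n ≠ 0) (e : ℕ → ℚ) (A : ℚ) (m : ℕ) (hm : 2 ≤ m)
    (hmN : m ≤ N + 1) :
    n ^ m * ∑ k ∈ range (m + 1), (-1 : ℚ) ^ (m - k) * (m.choose k : ℚ) * (k : ℚ) ^ (m - 1) *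
      (A - sig N n e k) = - (((m - 2).factorial : ℚ) * ((m - 1).factorial : ℚ)) * e m := by
  have h1 : ∑ k ∈ range (m + 1), (-1 : ℚ) ^ (m - k) * (m.choose k : ℚ) * (k : ℚ) ^ (m - 1) *
      (A - sig N n e k)
      = A * ∑ k ∈ range (m + 1), (-1 : ℚ) ^ (m - k) * (m.choose k : ℚ) * (k : ℚ) ^ (m - 1)
      - ∑ i ∈ range N, ((i.factorial : ℚ) * n⁻¹ ^ (i + 2) * e (i + 2)) *
        ∑ k ∈ range (m + 1), (-1 : ℚ) ^ (m - k) * (m.choose k : ℚ) * (k : ℚ) ^ (m - 1) *
      ((k.descFactorial (i + 2) : ℚ) * ((k : ℚ)⁻¹) ^ (i + 2)) := by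
    unfold sig
    simp only [mul_sub, Finset.sum_sub_distrib, Finset.mul_sum]
    congr 1
    · exact Finset.sum_congr rfl fun k _ => by ring
    · rw [Finset.sum_comm]
      refine Finset.sum_congr rfl fun i _ => Finset.sum_congr rfl fun k _ => ?_
      rw [mul_pow]; ring
  have h2 : ∑ k ∈ range (m + 1), (-1 : ℚ) ^ (m - k) * (m.choose k : ℚ) * (k : ℚ) ^ (m - 1) = 0 := by
    rw [← findiff (X ^ (m - 1)) m (by rw [natDegree_X_pow]; omega)]
    simp
  rw [h1, h2, mul_zero, zero_sub]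
  have h3 : ∀ i ∈ range N, ((i.factorial : ℚ) * n⁻¹ ^ (i + 2) * e (i + 2)) *
        ∑ k ∈ range (m + 1), (-1 : ℚ) ^ (m - k) * (m.choose k : ℚ) * (k : ℚ) ^ (m - 1) *
      ((k.descFactorial (i + 2) : ℚ) * ((k : ℚ)⁻¹) ^ (i + 2))
      = if i = m - 2 then ((m - 2).factorial : ℚ) * n⁻¹ ^ m * e m * ((m - 1).factorial : ℚ) else 0 := by
    intro i _
    rw [inner_sum m (i + 2) (by omega)]
    by_cases h : i = m - 2
    · subst h
      rw [if_pos (by omega), if_pos rfl, show m - 2 + 2 = m by omega]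
    · rw [if_neg (by omega), if_neg h, mul_zero]
  rw [Finset.sum_congr rfl h3, Finset.sum_ite_eq', if_pos (Finset.mem_range.mpr (by omega))]
  have : n ^ m * n⁻¹ ^ m = 1 := by rw [← mul_pow, mul_inv_cancel₀ hn, one_pow]
  linear_combination (-(((m - 2).factorial : ℚ) * e m * ((m - 1).factorial : ℚ))) * this

end Pool.Agent.Uni
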