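import Pool.Agent.H527R2.UniD

/-!
# Counting edge subsets: the link with the weighted recursions
-/

namespace Pool.Agent.Uni

open Finset Polynomial

variable {α : Type*} [DecidableEq α]

/-- number of edge subsets of size `a` that, starting from the labeling `c`, connect `S` -/
def rc (S : Finset α) : List (α × α) → (α → α) → ℕ → ℕ
  | [], c, a => if a = 0 ∧ (S.image c).card = 1 then 1 else 0
  | _ :: E, c, 0 => rc S E c 0
  | e :: E, c, a + 1 => rc S E c (a + 1) + rc S E (mrg c e.1 e.2) a

theorem mrg_loop {c : α → α} {u v : α} (h : c u = c v) : mrg c u v = c := by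
  funext w; unfold mrg; split_ifs with h1
  · rw [h1, h]
  · rfl

theorem card_mrg_le (S : Finset α) (c : α → α) {u v : α} (hu : u ∈ S) :
    (S.image c).card ≤ (S.image (mrg c u v)).card + 1 := by
  by_cases h : c u = c v
  · rw [mrg_loop h]; omega
  · rw [image_mrg hu h]
    have := Finset.pred_card_le_card_erase (s := S.image c) (a := c v)
    omega

theorem rc_lt (S : Finset α) : ∀ (E : List (α × α)), (∀ e ∈ E, e.1 ∈ S ∧ e.2 ∈ S) →
    ∀ (c : α → α) (a : ℕ), a + 1 < (S.image c).card → rc S E c a = 0 := by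
  intro E
  induction E with
  | nil =>
    intro _ c a ha
    simp only [rc]
    rw [if_neg]; rintro ⟨rfl, h⟩; omega
  | cons e E ih =>
    intro hE c a ha
    have hE' := fun e' he' => hE e' (List.mem_cons_of_mem _ he')
    rcases a with _ | a
    · exact ih hE' c 0 ha
    · simp only [rc]
      rw [ih hE' c (a + 1) ha, ih hE' (mrg c e.1 e.2) a]
      have := card_mrg_le S c (v := e.2) (hE e (List.mem_cons_self ..)).1
      omega

/-- unicyclic count, as a rational -/
noncomputable def pp (S : Finset α) (E : List (α × α)) (c : α → α) : ℚ := rc S E c (S.image c).card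
/-- tree count, as a rational -/
noncomputable def tt (S : Finset α) (E : List (α × α)) (c : α → α) : ℚ :=
  rc S E c ((S.image c).card - 1)

theorem tt_loop (S : Finset α) (e : α × α) (E : List (α × α)) (hE : ∀ e ∈ E, e.1 ∈ S ∧ e.2 ∈ S)
    (c : α → α) (h : c e.1 = c e.2) : tt S (e :: E) c = tt S E c := by
  unfold tt
  rcases hc : (S.image c).card - 1 with _ | b
  · rfl
  · simp only [rc]
    rw [mrg_loop h, rc_lt S E hE c b (by omega)]; simp

theorem pp_loop (S : Finset α) (hS : S.Nonempty) (e : α × α) (E : List (α × α))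
    (c : α → α) (h : c e.1 = c e.2) : pp S (e :: E) c = pp S E c + tt S E c := by
  unfold pp tt
  have hc : 0 < (S.image c).card := (hS.image c).card_pos
  rcases hc' : (S.image c).card with _ | b
  · omega
  · simp only [rc]
    rw [mrg_loop h]; push_cast; simp

theorem tt_ne (S : Finset α) (e : α × α) (E : List (α × α)) (he : e.1 ∈ S ∧ e.2 ∈ S)
    (c : α → α) (h : c e.1 ≠ c e.2) : tt S (e :: E) c = tt S E c + tt S E (mrg c e.1 e.2) := by
  unfold tt
  have hc := card_mrg he.1 he.2 h
  have hpos : 0 < (S.image (mrg c e.1 e.2)).card :=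
    Finset.card_pos.mpr ⟨_, Finset.mem_image_of_mem _ he.1⟩
  obtain ⟨b, hb⟩ : ∃ b, (S.image (mrg c e.1 e.2)).card = b + 1 := ⟨_, (Nat.sub_add_cancel hpos).symm⟩
  rw [← hc, hb]
  simp only [Nat.add_sub_cancel, rc]
  push_cast; rfl

theorem pp_ne (S : Finset α) (e : α × α) (E : List (α × α)) (he : e.1 ∈ S ∧ e.2 ∈ S)
    (c : α → α) (h : c e.1 ≠ c e.2) : pp S (e :: E) c = pp S E c + pp S E (mrg c e.1 e.2) := by
  unfold pp
  have hc := card_mrg he.1 he.2 h
  rw [← hc]
  simp only [rc]
  push_cast; rfl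

theorem bundle_loop (S : Finset α) (hS : S.Nonempty) (e : α × α) (E : List (α × α))
    (he : e.1 ∈ S ∧ e.2 ∈ S) (hE : ∀ e ∈ E, e.1 ∈ S ∧ e.2 ∈ S)
    (c : α → α) (h : c e.1 = c e.2) (t : ℕ) :
    tt S (List.replicate t e ++ E) c = tt S E c ∧
    pp S (List.replicate t e ++ E) c = pp S E c + t * tt S E c := by
  induction t with
  | zero => simp
  | succ t ih =>
    have hE' : ∀ e' ∈ List.replicate t e ++ E, e'.1 ∈ S ∧ e'.2 ∈ S := by
      intro e' he'
      rcases List.mem_append.mp he' with h1 | h1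
      · rw [List.eq_of_mem_replicate h1]; exact he
      · exact hE e' h1
    rw [List.replicate_succ, List.cons_append, tt_loop S e _ hE' c h, pp_loop S hS e _ c h,
      ih.1, ih.2]
    refine ⟨rfl, ?_⟩
    push_cast; ring

theorem bundle_ne (S : Finset α) (hS : S.Nonempty) (e : α × α) (E : List (α × α))
    (he : e.1 ∈ S ∧ e.2 ∈ S) (hE : ∀ e ∈ E, e.1 ∈ S ∧ e.2 ∈ S)
    (c : α → α) (h : c e.1 ≠ c e.2) (t : ℕ) :
    tt S (List.replicate t e ++ E) c = tt S E c + t * tt S E (mrg c e.1 e.2) ∧
    2 * pp S (List.replicate t e ++ E) c = 2 * pp S E c + 2 * t * pp S E (mrg c e.1 e.2)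
      + t * (t - 1) * tt S E (mrg c e.1 e.2) := by
  have hloop : mrg c e.1 e.2 e.1 = mrg c e.1 e.2 e.2 := by
    simp [mrg, h]
  induction t with
  | zero => simp
  | succ t ih =>
    obtain ⟨l1, l2⟩ := bundle_loop S hS e E he hE (mrg c e.1 e.2) hloop t
    rw [List.replicate_succ, List.cons_append, tt_ne S e _ he c h, pp_ne S e _ he c h,
      ih.1, mul_add, ih.2, l1, l2]
    constructor
    · push_cast; ring
    · push_cast; ring

/-- expand a list of weighted edges into a list of edges -/
def expand (L : List (α × α × ℕ)) : List (α × α) :=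
  L.flatMap fun e => List.replicate e.2.2 (e.1, e.2.1)

/-- cast of the weights -/
def castL (L : List (α × α × ℕ)) : List (α × α × ℚ) := L.map fun e => (e.1, e.2.1, (e.2.2 : ℚ))

theorem mem_expand {L : List (α × α × ℕ)} {S : Finset α} (hL : ∀ e ∈ L, e.1 ∈ S ∧ e.2.1 ∈ S) :
    ∀ e ∈ expand L, e.1 ∈ S ∧ e.2 ∈ S := by
  intro e he
  obtain ⟨e', he', h⟩ := List.mem_flatMap.mp he
  rw [List.eq_of_mem_replicate h]
  exact hL e' he'

theorem link (S : Finset α) (hS : S.Nonempty) : ∀ (L : List (α × α × ℕ)),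
    (∀ e ∈ L, e.1 ∈ S ∧ e.2.1 ∈ S) → ∀ (c : α → α),
    tt S (expand L) c = tc (bT S) (castL L) c ∧
    2 * pp S (expand L) c + (((S.image c).card : ℚ) - 1) * tt S (expand L) c
      = uc (bT S) (fun _ => 0) (castL L) c := by
  intro L
  induction L with
  | nil =>
    intro _ c
    have hpos : 0 < (S.image c).card := (hS.image c).card_pos
    simp only [expand, List.flatMap_nil, castL, List.map_nil, tc, uc, tt, pp, rc, bT]
    constructor
    · by_cases h : (S.image c).card = 1
      · simp [h]
      · rw [if_neg, if_neg h]; · simp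
        rintro ⟨_, h'⟩; exact h h'
    · have : ¬ ((S.image c).card = 0 ∧ (S.image c).card = 1) := by omega
      rw [if_neg this]
      by_cases h : (S.image c).card = 1
      · simp [h]
      · rw [if_neg]; · simp
        rintro ⟨_, h'⟩; exact h h'
  | cons e L ih =>
    intro hL c
    have hL' := fun e' he' => hL e' (List.mem_cons_of_mem _ he')
    have he := hL e (List.mem_cons_self ..)
    have hE := mem_expand hL'
    have e1 : expand (e :: L) = List.replicate e.2.2 (e.1, e.2.1) ++ expand L := by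
      simp [expand]
    have e2 : castL (e :: L) = (e.1, e.2.1, (e.2.2 : ℚ)) :: castL L := by simp [castL]
    rw [e1, e2]
    obtain ⟨i1, i2⟩ := ih hL' c
    by_cases h : c e.1 = c e.2.1
    · obtain ⟨b1, b2⟩ := bundle_loop S hS (e.1, e.2.1) (expand L) he hE c h e.2.2
      simp only [tc, uc, h, if_true]
      rw [b1, b2, ← i1, ← i2]
      refine ⟨rfl, ?_⟩
      ring
    · obtain ⟨b1, b2⟩ := bundle_ne S hS (e.1, e.2.1) (expand L) he hE c h e.2.2
      obtain ⟨j1, j2⟩ := ih hL' (mrg c e.1 e.2.1)
      have hc := card_mrg he.1 he.2 h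
      have hc' : (((S.image (mrg c e.1 e.2.1)).card : ℕ) : ℚ) + 1 = ((S.image c).card : ℚ) := by
        exact_mod_cast hc
      simp only [tc, uc, h, if_false]
      rw [b1, b2, ← i1, ← i2, ← j1, ← j2, ← hc']
      refine ⟨rfl, ?_⟩
      ring

end Pool.Agent.Uni
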