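import Pool.Agent.H527R2.UniE

/-!
# The counts in hub graphs determine the forest sum
-/

namespace Pool.Agent.Uni

open Finset Polynomial

variable {α : Type*} [DecidableEq α]

/-- labelings fixing the hubs and mapping `W` to itself -/
def Good (W : Finset α) (hs : List α) (c : α → α) : Prop :=
  (∀ h ∈ hs, c h = h) ∧ (∀ w ∈ W, c w ∈ W)

theorem Good.mrg {W : Finset α} {hs : List α} {c : α → α} (hdis : ∀ h ∈ hs, h ∉ W)
    (hc : Good W hs c) {u v : α} (hu : u ∈ W) (hv : v ∈ W) : Good W hs (mrg c u v) := by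
  refine ⟨fun h hh => ?_, mrg_maps hc.2 hu⟩
  have h1 := hc.1 h hh
  have h2 := hc.2 v hv
  unfold Uni.mrg
  rw [if_neg, h1]
  rw [h1]; rintro rfl; exact hdis _ hh h2

theorem tc_congr {W : Finset α} {hs : List α} (hdis : ∀ h ∈ hs, h ∉ W) {b b' : (α → α) → ℚ}
    (hb : ∀ c, Good W hs c → b c = b' c) : ∀ (L : List (α × α × ℚ)),
    (∀ e ∈ L, e.1 ∈ W ∧ e.2.1 ∈ W) → ∀ c, Good W hs c → tc b L c = tc b' L c := by
  intro L
  induction L with
  | nil => intro _ c hc; exact hb c hc
  | cons e L ih =>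
    intro hL c hc
    have hL' := fun e' he' => hL e' (List.mem_cons_of_mem _ he')
    have he := hL e (List.mem_cons_self ..)
    simp only [tc]
    rw [ih hL' c hc, ih hL' _ (hc.mrg hdis he.1 he.2)]

theorem uc_congr {W : Finset α} {hs : List α} (hdis : ∀ h ∈ hs, h ∉ W)
    {b b' d d' : (α → α) → ℚ}
    (hb : ∀ c, Good W hs c → b c = b' c) (hd : ∀ c, Good W hs c → d c = d' c) :
    ∀ (L : List (α × α × ℚ)),
    (∀ e ∈ L, e.1 ∈ W ∧ e.2.1 ∈ W) → ∀ c, Good W hs c → uc b d L c = uc b' d' L c := by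
  intro L
  induction L with
  | nil => intro _ c hc; exact hd c hc
  | cons e L ih =>
    intro hL c hc
    have hL' := fun e' he' => hL e' (List.mem_cons_of_mem _ he')
    have he := hL e (List.mem_cons_self ..)
    simp only [uc]
    rw [ih hL' c hc, ih hL' _ (hc.mrg hdis he.1 he.2), tc_congr hdis hb L hL' c hc,
      tc_congr hdis hb L hL' _ (hc.mrg hdis he.1 he.2)]

/-- weighted edges of the hub graph -/
def edgesK (R : List α) (ρ : α → ℕ) (L : List (α × α × ℕ)) (hs : List α) : List (α × α × ℕ) :=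
  L.map (fun e => (e.1, e.2.1, hs.length * e.2.2)) ++
    hs.flatMap (fun h => R.map (fun w => (h, w, ρ w)))

theorem castL_edgesK (R : List α) (ρ : α → ℕ) (L : List (α × α × ℕ)) (hs : List α) :
    castL (edgesK R ρ L hs) = (castL L).map (fun e => (e.1, e.2.1, (hs.length : ℚ) * e.2.2)) ++
      hubE (fun v => (ρ v : ℚ)) R hs := by
  unfold castL edgesK hubE
  rw [List.map_append, List.map_map, List.map_map, List.map_flatMap]
  congr 1
  · apply List.map_congr_left
    intro e _
    simp
  · simp [List.map_map, Function.comp_def]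

theorem mem_edgesK {W : Finset α} {R : List α} {ρ : α → ℕ} {L : List (α × α × ℕ)} {hs : List α}
    (hR : ∀ w ∈ R, w ∈ W) (hL : ∀ e ∈ L, e.1 ∈ W ∧ e.2.1 ∈ W) :
    ∀ e ∈ edgesK R ρ L hs, e.1 ∈ W ∪ hs.toFinset ∧ e.2.1 ∈ W ∪ hs.toFinset := by
  intro e he
  rcases List.mem_append.mp he with h | h
  · obtain ⟨e', he', rfl⟩ := List.mem_map.mp h
    exact ⟨Finset.mem_union_left _ (hL e' he').1, Finset.mem_union_left _ (hL e' he').2⟩
  · obtain ⟨h', hh', h2⟩ := List.mem_flatMap.mp h
    obtain ⟨w, hw, rfl⟩ := List.mem_map.mp h2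
    exact ⟨Finset.mem_union_right _ (by simpa using hh'), Finset.mem_union_left _ (hR w hw)⟩

/-- The tree and unicyclic counts of the hub graphs as functions of the number of hubs. -/
theorem graph_formula (W : Finset α) (hW : W.Nonempty) (R : List α) (ρ : α → ℕ)
    (hR : ∀ w ∈ R, w ∈ W) (n : ℚ) (hn : n ≠ 0) (hnR : n = (R.map (fun v => (ρ v : ℚ))).sum)
    (L : List (α × α × ℕ)) (hL : ∀ e ∈ L, e.1 ∈ W ∧ e.2.1 ∈ W) (N : ℕ) :
    ∃ A : ℚ, ∀ hs : List α, hs.Nodup → (∀ h ∈ hs, h ∉ W) → 1 ≤ hs.length → hs.length ≤ N →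
      tt (W ∪ hs.toFinset) (expand (edgesK R ρ L hs)) id
        = n ^ hs.length * n⁻¹ * ((hs.length : ℚ) ^ W.card * (hs.length : ℚ)⁻¹) *
          (Epol W R (fun v => (ρ v : ℚ)) (castL L) id).coeff 0 ∧
      2 * pp (W ∪ hs.toFinset) (expand (edgesK R ρ L hs)) id +
        ((W.card : ℚ) + hs.length - 1) * tt (W ∪ hs.toFinset) (expand (edgesK R ρ L hs)) id
        = n ^ hs.length * (hs.length : ℚ) ^ W.card *
          (A - sig N n (fun j => (Epol W R (fun v => (ρ v : ℚ)) (castL L) id).coeff j)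
            hs.length) := by
  have hcL : ∀ e ∈ castL L, e.1 ∈ W ∧ e.2.1 ∈ W := by
    intro e he
    obtain ⟨e', he', rfl⟩ := List.mem_map.mp he
    exact hL e' he'
  obtain ⟨A, hA⟩ := npart W hW R (fun v => (ρ v : ℚ)) n N (castL L) hcL id
  refine ⟨A, fun hs hnd hdis h1 hN => ?_⟩
  obtain ⟨a1, a2⟩ := hA hs.length h1
  rw [Finset.image_id] at a1 a2
  set S := W ∪ hs.toFinset with hS
  have hSne : S.Nonempty := hW.mono Finset.subset_union_left
  have hdisj : Disjoint W hs.toFinset := by
    rw [Finset.disjoint_left]; intro w hw hw'; exact hdis w (by simpa using hw') hw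
  have hScard : S.card = W.card + hs.length := by
    rw [hS, Finset.card_union_of_disjoint hdisj, List.toFinset_card_of_nodup hnd]
  obtain ⟨l1, l2⟩ := link S hSne (edgesK R ρ L hs) (mem_edgesK hR hL) id
  rw [castL_edgesK, tc_append] at l1
  rw [castL_edgesK, uc_append, Finset.image_id, hScard] at l2
  have hclosed : ∀ c, Good W hs c →
      tc (bT S) (hubE (fun v => (ρ v : ℚ)) R hs) c
        = hubT hs.length n (W.image c) (tR c R (fun v => (ρ v : ℚ))) ∧
      uc (bT S) (fun _ => 0) (hubE (fun v => (ρ v : ℚ)) R hs) c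
        = hubU N hs.length n (W.image c) (tR c R (fun v => (ρ v : ℚ))) := fun c hc =>
    hubs_closed (fun v => (ρ v : ℚ)) R N n hn hnR hs W c hW hnd hdis hc.1 hc.2 hR hN
  have hgood : Good W hs id := ⟨fun _ _ => rfl, fun _ hw => hw⟩
  have hL2 : ∀ e ∈ (castL L).map (fun e => (e.1, e.2.1, (hs.length : ℚ) * e.2.2)),
      e.1 ∈ W ∧ e.2.1 ∈ W := by
    intro e he
    obtain ⟨e', he', rfl⟩ := List.mem_map.mp he
    exact hcL e' he'
  rw [tc_congr hdis (fun c hc => (hclosed c hc).1) _ hL2 id hgood, a1] at l1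
  rw [uc_congr hdis (fun c hc => (hclosed c hc).1) (fun c hc => (hclosed c hc).2) _ hL2 id hgood,
    a2] at l2
  refine ⟨l1, ?_⟩
  rw [← l2]; push_cast; ring

/-! ### adding a pendant double edge -/

theorem rc_pendant {S : Finset α} {z h : α} (hh : h ∈ S) : ∀ (E : List (α × α)),
    (∀ e ∈ E, e.1 ∈ S ∧ e.2 ∈ S) → ∀ (c c' : α → α), (∀ u ∈ S, c' u = c u) → c' z = c' h →
    ∀ a, rc (insert z S) E c' a = rc S E c a := by
  intro E
  induction E with
  | nil =>
    intro _ c c' h1 h2 a
    have : (insert z S).image c' = S.image c := by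
      rw [Finset.image_insert, h2, h1 h hh, Finset.insert_eq_of_mem (by
        rw [Finset.image_congr (g := c) (fun u hu => h1 u hu)]
        exact Finset.mem_image_of_mem c hh)]
      exact Finset.image_congr (fun u hu => h1 u hu)
    simp only [rc, this]
  | cons e E ih =>
    intro hE c c' h1 h2 a
    have hE' := fun e' he' => hE e' (List.mem_cons_of_mem _ he')
    have he := hE e (List.mem_cons_self ..)
    rcases a with _ | a
    · simp only [rc]; exact ih hE' c c' h1 h2 0
    · simp only [rc]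
      rw [ih hE' c c' h1 h2 (a + 1), ih hE' (mrg c e.1 e.2) (mrg c' e.1 e.2)]
      · intro u hu
        simp only [mrg, h1 u hu, h1 _ he.1, h1 _ he.2]
      · simp only [mrg, h2]

theorem rc_isolated {S : Finset α} (hS : S.Nonempty) {z : α} : ∀ (E : List (α × α)),
    (∀ e ∈ E, e.1 ∈ S ∧ e.2 ∈ S) → ∀ (c : α → α), (∀ u ∈ S, c u ≠ c z) →
    ∀ a, rc (insert z S) E c a = 0 := by
  intro E
  induction E with
  | nil =>
    intro _ c h1 a
    simp only [rc]
    rw [if_neg]
    rintro ⟨_, h2⟩
    obtain ⟨u, hu⟩ := hS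
    obtain ⟨l, hl⟩ := Finset.card_eq_one.mp h2
    have m1 : c z ∈ (insert z S).image c := Finset.mem_image_of_mem c (Finset.mem_insert_self _ _)
    have m2 : c u ∈ (insert z S).image c := Finset.mem_image_of_mem c (Finset.mem_insert_of_mem hu)
    rw [hl, Finset.mem_singleton] at m1 m2
    exact h1 u hu (m2.trans m1.symm)
  | cons e E ih =>
    intro hE c h1 a
    have hE' := fun e' he' => hE e' (List.mem_cons_of_mem _ he')
    have he := hE e (List.mem_cons_self ..)
    rcases a with _ | a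
    · simp only [rc]; exact ih hE' c h1 0
    · simp only [rc]
      rw [ih hE' c h1 (a + 1), ih hE' (mrg c e.1 e.2) _ a]
      intro u hu
      have hz : mrg c e.1 e.2 z = c z := by
        unfold mrg; rw [if_neg (fun e' => h1 _ he.2 e'.symm)]
      rw [hz]
      unfold mrg
      split_ifs
      · exact h1 _ he.1
      · exact h1 _ hu

theorem pendant_formula {S : Finset α} {z h : α} (hh : h ∈ S) (hz : z ∉ S) (E : List (α × α))
    (hE : ∀ e ∈ E, e.1 ∈ S ∧ e.2 ∈ S) :
    pp (insert z S) ((h, z) :: (h, z) :: E) id = 2 * pp S E id + tt S E id := by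
  have hSne : S.Nonempty := ⟨h, hh⟩
  have hhz : h ≠ z := fun e => hz (e ▸ hh)
  have m1 : h ∈ insert z S := Finset.mem_insert_of_mem hh
  have m2 : z ∈ insert z S := Finset.mem_insert_self _ _
  have hloop : mrg (id : α → α) h z h = mrg (id : α → α) h z z := by
    simp [mrg, hhz]
  have hE' : ∀ e ∈ E, e.1 ∈ insert z S ∧ e.2 ∈ insert z S := fun e he =>
    ⟨Finset.mem_insert_of_mem (hE e he).1, Finset.mem_insert_of_mem (hE e he).2⟩
  rw [pp_ne (insert z S) (h, z) _ ⟨m1, m2⟩ id hhz, pp_ne (insert z S) (h, z) _ ⟨m1, m2⟩ id hhz,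
    pp_loop (insert z S) ⟨z, m2⟩ (h, z) E _ hloop]
  have e0 : pp (insert z S) E id = 0 := by
    unfold pp
    rw [rc_isolated hSne E hE id (fun u hu e => hz (by
      have : u = z := e
      exact this ▸ hu))]; simp
  have hc1 : ∀ u ∈ S, mrg (id : α → α) h z u = id u := by
    intro u hu
    have : u ≠ z := fun e => hz (e ▸ hu)
    simp [mrg, this]
  have hcard : ((insert z S).image (mrg (id : α → α) h z)).card = S.card := by
    have := card_mrg m1 m2 (c := (id : α → α)) hhz
    rw [Finset.image_id, Finset.card_insert_of_notMem hz] at this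
    simpa using this
  have e1 : pp (insert z S) E (mrg id h z) = pp S E id := by
    unfold pp
    rw [rc_pendant hh E hE id (mrg id h z) hc1 hloop.symm, hcard, Finset.image_id]
  have e2 : tt (insert z S) E (mrg id h z) = tt S E id := by
    unfold tt
    rw [rc_pendant hh E hE id (mrg id h z) hc1 hloop.symm, hcard, Finset.image_id]
  rw [e0, e1, e2]; ring

/-! ### the coefficients of the forest polynomial -/

theorem Epol_natDegree (W : Finset α) (R : List α) (ρ : α → ℚ) : ∀ (L : List (α × α × ℚ))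
    (c : α → α), (Epol W R ρ L c).natDegree ≤ W.card := by
  intro L
  induction L with
  | nil =>
    intro c
    simp only [Epol, List.map_nil, tc]
    refine (natDegree_prod_le _ _).trans ?_
    refine (Finset.sum_le_card_nsmul _ _ 1 ?_).trans ?_
    · intro l _
      refine natDegree_C_mul_le _ _ |>.trans ?_
      compute_degree
    · simpa using Finset.card_image_le
  | cons e L ih =>
    intro c
    have : Epol W R ρ (e :: L) c = if c e.1 = c e.2.1 then Epol W R ρ L c else
        Epol W R ρ L c + C e.2.2 * Epol W R ρ L (mrg c e.1 e.2.1) := by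
      simp only [Epol, List.map_cons, tc]
    rw [this]
    split_ifs
    · exact ih c
    · refine natDegree_add_le_of_degree_le (ih c) ?_
      exact (natDegree_C_mul_le _ _).trans (ih _)

theorem Epol_coeff_one (W : Finset α) (R : List α) (ρ : α → ℚ) (hR : ∀ w ∈ R, w ∈ W) (n : ℚ)
    (hnR : n = (R.map ρ).sum) : ∀ (L : List (α × α × ℚ))
    (c : α → α), (Epol W R ρ L c).coeff 1 = n * (Epol W R ρ L c).coeff 0 := by
  intro L
  induction L with
  | nil =>
    intro c
    have hE : Epol W R ρ [] c = C (∏ l ∈ W.image c, tR c R ρ l) *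
        qq (tR c R ρ) 0 (W.image c) := by
      simp only [Epol, List.map_nil, tc]
      rw [Finset.prod_mul_distrib, map_prod]
      unfold qq
      simp only [zero_add, C_1]
      rfl
    rw [hE, coeff_C_mul, coeff_C_mul]
    have h1 := qq_coeff_one (tR c R ρ) 0 (W.image c)
    have h2 := qq_coeff_zero (tR c R ρ) 0 (W.image c)
    rw [sum_tR c ρ _ R (fun w hw => Finset.mem_image_of_mem c (hR w hw)), ← hnR] at h1
    simp only [zero_add, one_mul, one_pow, mul_one] at h1 h2
    rw [h1, h2]; ring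
  | cons e L ih =>
    intro c
    have : Epol W R ρ (e :: L) c = if c e.1 = c e.2.1 then Epol W R ρ L c else
        Epol W R ρ L c + C e.2.2 * Epol W R ρ L (mrg c e.1 e.2.1) := by
      simp only [Epol, List.map_cons, tc]
    rw [this]
    split_ifs
    · exact ih c
    · rw [coeff_add, coeff_add, coeff_C_mul, coeff_C_mul, ih, ih]; ring

theorem Epol_eval (W : Finset α) (R : List α) (ρ : α → ℚ) (L : List (α × α × ℚ)) (c : α → α) :
    (Epol W R ρ L c).eval (-1) = tc (fb W R ρ (fun s => s * (1 - s))) L c := by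
  have := tc_map (evalRingHom (-1 : ℚ))
    (fun c => ∏ l ∈ W.image c, (C (tw R ρ c l) * (1 + C (tw R ρ c l) * X)))
    (L.map fun e => (e.1, e.2.1, C e.2.2)) c
  simp only [coe_evalRingHom, List.map_map, Function.comp_def, eval_C] at this
  unfold Epol
  rw [this]
  have h1 : (L.map fun e => (e.1, e.2.1, e.2.2)) = L := by simp
  rw [h1]
  congr 1
  funext c
  unfold fb
  rw [eval_prod]
  apply Finset.prod_congr rfl
  intro l _
  rw [eval_mul, eval_add, eval_mul, eval_C, eval_one, eval_X]
  ring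

end Pool.Agent.Uni
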