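import Pool.Agent.H527R2.UniF

/-!
# The lowest order term of the forest sum of a bipartite graph
-/

namespace Pool.Agent.Uni

open Finset

variable {α : Type*} [DecidableEq α] {A : Type*} [CommRing A]

/-- `x` is alone in its class -/
def Iso (W : Finset α) (c : α → α) (x : α) : Prop := ∀ v ∈ W, v ≠ x → c v ≠ c x

theorem Iso.mrg {W : Finset α} {c : α → α} {x u v : α} (h : Iso W c x) (hu : u ∈ W) (hv : v ∈ W)
    (hux : u ≠ x) (hvx : v ≠ x) : Iso W (mrg c u v) x := by
  intro w hw hwx
  have e : Uni.mrg c u v x = c x := by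
    unfold Uni.mrg; rw [if_neg (fun e => h v hv hvx e.symm)]
  rw [e]
  unfold Uni.mrg
  split_ifs
  · exact h u hu hux
  · exact h w hw hwx

/-- the star edges -/
def starE (d : A) (s : α × List (α × A)) : List (α × α × A) :=
  s.2.map fun y => (y.1, s.1, d * y.2)

def starsE (d : A) (st : List (α × List (α × A))) : List (α × α × A) := st.flatMap (starE d)

/-- the sum over all choices of one edge at every star -/
def choose (b : (α → α) → A) : List (α × List (α × A)) → (α → α) → A
  | [], c => b c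
  | s :: st, c => (s.2.map fun y => y.2 * choose b st (mrg c y.1 s.1)).sum

/-- well-formedness of a list of stars -/
def StOK (W : Finset α) (st : List (α × List (α × A))) : Prop :=
  (st.map Prod.fst).Nodup ∧ (∀ s ∈ st, s.1 ∈ W) ∧
  ∀ s ∈ st, ∀ y ∈ s.2, y.1 ∈ W ∧ ∀ s' ∈ st, y.1 ≠ s'.1

theorem StOK.tail {W : Finset α} {s : α × List (α × A)} {st : List (α × List (α × A))}
    (h : StOK W (s :: st)) : StOK W st := by
  obtain ⟨h1, h2, h3⟩ := h
  refine ⟨(List.nodup_cons.mp (by simpa using h1)).2,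
    fun s hs => h2 s (List.mem_cons_of_mem _ hs), fun s' hs' y hy => ?_⟩
  obtain ⟨a, b⟩ := h3 s' (List.mem_cons_of_mem _ hs') y hy
  exact ⟨a, fun s'' hs'' => b s'' (List.mem_cons_of_mem _ hs'')⟩

theorem vanish (W : Finset α) (R : List α) (ρ : α → A) (x : α) (hx : x ∈ W)
    (hx1 : ∀ c, Iso W c x → tw R ρ c (c x) = 1) : ∀ (L : List (α × α × A)),
    (∀ e ∈ L, (e.1 ∈ W ∧ e.2.1 ∈ W) ∧ e.1 ≠ x ∧ e.2.1 ≠ x) → ∀ c, Iso W c x →
    tc (fb W R ρ (fun s => s * (1 - s))) L c = 0 := by
  intro L
  induction L with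
  | nil =>
    intro _ c hc
    simp only [tc, fb]
    apply Finset.prod_eq_zero (Finset.mem_image_of_mem c hx)
    rw [hx1 c hc]; ring
  | cons e L ih =>
    intro hL c hc
    have hL' := fun e' he' => hL e' (List.mem_cons_of_mem _ he')
    obtain ⟨he, hex, hey⟩ := hL e (List.mem_cons_self ..)
    simp only [tc]
    rw [ih hL' c hc, ih hL' _ (hc.mrg he.1 he.2 hex hey)]
    simp

theorem perturb (W : Finset α) (b : (α → α) → A) (d : A) (L0 : List (α × α × A)) (m : ℕ)
    (I : (α → α) → Prop) (xs : α → Prop)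
    (hI : ∀ c, I c → ∀ u ∈ W, ∀ v ∈ W, ¬ xs u → ¬ xs v → I (mrg c u v))
    (h0 : ∀ c, I c → ∃ r, tc b L0 c = d ^ m * r) :
    ∀ (E : List (α × α × A)), (∀ e ∈ E, (e.1 ∈ W ∧ e.2.1 ∈ W) ∧ ¬ xs e.1 ∧ ¬ xs e.2.1 ∧
      ∃ w, e.2.2 = d * w) → ∀ c, I c → ∃ r, tc b (E ++ L0) c = tc b L0 c + d ^ (m + 1) * r := by
  intro E
  induction E with
  | nil => intro _ c _; exact ⟨0, by simp⟩
  | cons e E ih =>
    intro hE c hc
    have hE' := fun e' he' => hE e' (List.mem_cons_of_mem _ he')
    obtain ⟨he, hx1, hx2, w, hw⟩ := hE e (List.mem_cons_self ..)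
    obtain ⟨r1, hr1⟩ := ih hE' c hc
    simp only [List.cons_append, tc]
    by_cases hl : c e.1 = c e.2.1
    · exact ⟨r1, by rw [if_pos hl, hr1]⟩
    · have hc' := hI c hc e.1 he.1 e.2.1 he.2 hx1 hx2
      obtain ⟨r2, hr2⟩ := ih hE' _ hc'
      obtain ⟨r3, hr3⟩ := h0 _ hc'
      refine ⟨r1 + w * r3 + w * d * r2, ?_⟩
      rw [if_neg hl, hr1, hr2, hr3, hw]
      ring

theorem lowest (W : Finset α) (R : List α) (ρ : α → A) (d : A) :
    ∀ (st : List (α × List (α × A))), StOK W st →
    (∀ s ∈ st, ∀ c, Iso W c s.1 → tw R ρ c (c s.1) = 1) →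
    ∀ c, (∀ s ∈ st, Iso W c s.1) →
    ∃ r, tc (fb W R ρ (fun s => s * (1 - s))) (starsE d st) c
      = d ^ st.length * (choose (fb W R ρ (fun s => s * (1 - s))) st c + d * r) := by
  intro st
  induction st with
  | nil => intro _ _ c _; exact ⟨0, by simp [starsE, tc, choose]⟩
  | cons s st ih =>
    intro hok h1 c hc
    set b := fb W R ρ (fun s => s * (1 - s)) with hb
    have hok' := hok.tail
    obtain ⟨hnd, hW, hy⟩ := hok
    have hsW : s.1 ∈ W := hW s (List.mem_cons_self ..)
    have hsn : ∀ s' ∈ st, s.1 ≠ s'.1 := by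
      intro s' hs' e
      have h2 : (s.1 :: st.map Prod.fst).Nodup := by simpa only [List.map_cons] using hnd
      exact (List.nodup_cons.mp h2).1 (by rw [e]; exact List.mem_map_of_mem hs')
    have h1' : ∀ s ∈ st, ∀ c, Iso W c s.1 → tw R ρ c (c s.1) = 1 :=
      fun s' hs' => h1 s' (List.mem_cons_of_mem _ hs')
    have hIH := ih hok' h1'
    -- invariant: the remaining centres are isolated
    let I : (α → α) → Prop := fun c => ∀ s ∈ st, Iso W c s.1
    let xs : α → Prop := fun v => ∃ s' ∈ st, v = s'.1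
    have hI : ∀ c, I c → ∀ u ∈ W, ∀ v ∈ W, ¬ xs u → ¬ xs v → I (mrg c u v) := by
      intro c hc u hu v hv hxu hxv s' hs'
      exact (hc s' hs').mrg hu hv (fun e => hxu ⟨s', hs', e⟩) (fun e => hxv ⟨s', hs', e⟩)
    have h0 : ∀ c, I c → ∃ r, tc b (starsE d st) c = d ^ st.length * r := by
      intro c hc
      obtain ⟨r, hr⟩ := hIH c hc
      exact ⟨_, hr⟩
    have hpert := perturb W b d (starsE d st) st.length I xs hI h0
    -- process the first star
    have key : ∀ ys : List (α × A), (∀ y ∈ ys, y ∈ s.2) → ∃ r,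
        tc b (ys.map (fun y => (y.1, s.1, d * y.2)) ++ starsE d st) c
          = tc b (starsE d st) c + d * (ys.map fun y => y.2 * tc b (starsE d st) (mrg c y.1 s.1)).sum
            + d ^ (st.length + 2) * r := by
      intro ys
      induction ys with
      | nil => intro _; exact ⟨0, by simp⟩
      | cons y ys ihy =>
        intro hys
        obtain ⟨r1, hr1⟩ := ihy (fun y' hy' => hys y' (List.mem_cons_of_mem _ hy'))
        have hy2 := hy s (List.mem_cons_self ..) y (hys y (List.mem_cons_self ..))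
        have hys1 : y.1 ≠ s.1 := hy2.2 s (List.mem_cons_self ..)
        have hne : c y.1 ≠ c s.1 := hc s (List.mem_cons_self ..) y.1 hy2.1 hys1
        have hIc : I (mrg c y.1 s.1) := by
          apply hI c (fun s' hs' => hc s' (List.mem_cons_of_mem _ hs')) y.1 hy2.1 s.1 hsW
          · rintro ⟨s', hs', e⟩; exact hy2.2 s' (List.mem_cons_of_mem _ hs') e
          · rintro ⟨s', hs', e⟩; exact hsn s' hs' e
        obtain ⟨r2, hr2⟩ := hpert (ys.map (fun y => (y.1, s.1, d * y.2))) (by
          intro e he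
          obtain ⟨y', hy', rfl⟩ := List.mem_map.mp he
          have hy3 := hy s (List.mem_cons_self ..) y' (hys y' (List.mem_cons_of_mem _ hy'))
          refine ⟨⟨hy3.1, hsW⟩, ?_, ?_, y'.2, rfl⟩
          · rintro ⟨s', hs', e⟩; exact hy3.2 s' (List.mem_cons_of_mem _ hs') e
          · rintro ⟨s', hs', e⟩; exact hsn s' hs' e) _ hIc
        refine ⟨r1 + y.2 * r2, ?_⟩
        simp only [List.map_cons, List.cons_append, tc, List.sum_cons]
        rw [if_neg hne, hr1, hr2]
        ring
    obtain ⟨r0, hr0⟩ := key s.2 (fun y hy => hy)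
    -- the terms for the individual edges
    have hterm : ∀ ys : List (α × A), (∀ y ∈ ys, y ∈ s.2) → ∃ r,
        (ys.map fun y => y.2 * tc b (starsE d st) (mrg c y.1 s.1)).sum
          = d ^ st.length * ((ys.map fun y => y.2 * choose b st (mrg c y.1 s.1)).sum + d * r) := by
      intro ys
      induction ys with
      | nil => intro _; exact ⟨0, by simp⟩
      | cons y ys ihy =>
        intro hys
        obtain ⟨r1, hr1⟩ := ihy (fun y' hy' => hys y' (List.mem_cons_of_mem _ hy'))
        have hy2 := hy s (List.mem_cons_self ..) y (hys y (List.mem_cons_self ..))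
        have hIc : I (mrg c y.1 s.1) := by
          apply hI c (fun s' hs' => hc s' (List.mem_cons_of_mem _ hs')) y.1 hy2.1 s.1 hsW
          · rintro ⟨s', hs', e⟩; exact hy2.2 s' (List.mem_cons_of_mem _ hs') e
          · rintro ⟨s', hs', e⟩; exact hsn s' hs' e
        obtain ⟨r2, hr2⟩ := hIH _ hIc
        refine ⟨r1 + y.2 * r2, ?_⟩
        simp only [List.map_cons, List.sum_cons]
        rw [hr1, hr2]
        ring
    obtain ⟨r3, hr3⟩ := hterm s.2 (fun y hy => hy)
    have hvan : tc b (starsE d st) c = 0 := by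
      apply vanish W R ρ s.1 hsW (h1 s (List.mem_cons_self ..)) _ _ c (hc s (List.mem_cons_self ..))
      intro e he
      obtain ⟨s', hs', he'⟩ := List.mem_flatMap.mp he
      obtain ⟨y, hy', rfl⟩ := List.mem_map.mp he'
      have hy3 := hy s' (List.mem_cons_of_mem _ hs') y hy'
      exact ⟨⟨hy3.1, hW s' (List.mem_cons_of_mem _ hs')⟩, hy3.2 s (List.mem_cons_self ..),
        fun e => hsn s' hs' e.symm⟩
    have hst : starsE d (s :: st) = s.2.map (fun y => (y.1, s.1, d * y.2)) ++ starsE d st := by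
      simp [starsE, starE]
    refine ⟨r3 + r0, ?_⟩
    rw [hst, hr0, hvan, hr3]
    simp only [choose, List.length_cons]
    ring

end Pool.Agent.Uni
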