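import Pool.Agent.H527R2.UniG

/-!
# The lowest order term counts exact covers by triples
-/

namespace Pool.Agent.Uni

open Finset

variable {α : Type*} [DecidableEq α] {A : Type*} [CommRing A]

theorem sum_piFinset_cons {m : ℕ} (Y : Finset α) (F : (Fin (m + 1) → α) → A) :
    ∑ a ∈ Fintype.piFinset (fun _ => Y), F a
      = ∑ y ∈ Y, ∑ a' ∈ Fintype.piFinset (fun _ : Fin m => Y), F (Fin.cons y a') := by
  rw [← Finset.sum_product']
  refine Finset.sum_nbij' (fun a => (a 0, Fin.tail a)) (fun p => Fin.cons p.1 p.2) ?_ ?_ ?_ ?_ ?_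
  · intro a ha
    rw [Fintype.mem_piFinset] at ha
    simp only [Finset.mem_product, Fintype.mem_piFinset]
    exact ⟨ha 0, fun i => ha i.succ⟩
  · intro p hp
    simp only [Finset.mem_product, Fintype.mem_piFinset] at hp ⊢
    intro i
    refine Fin.cases ?_ (fun i => ?_) i
    · simpa using hp.1
    · simpa using hp.2 i
  · intro a _; simp
  · intro p _; simp
  · intro a _; simp

theorem tw_mrg (R : List α) (ρ : α → A) (c : α → α) {u v : α} (h : c u ≠ c v) (l : α) :
    tw R ρ (mrg c u v) l = if l = c u then tw R ρ c (c u) + tw R ρ c (c v)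
      else if l = c v then 0 else tw R ρ c l := by
  induction R with
  | nil => simp [tw]
  | cons w R ih =>
    have h1 : ∀ (c : α → α) l, tw (w :: R) ρ c l = (if c w = l then ρ w else 0) + tw R ρ c l := by
      intro c l; simp [tw]
    rw [h1, ih, h1, h1, h1]
    by_cases hl : l = c u
    · subst hl
      simp only [if_true, mrg]
      by_cases hw : c w = c v
      · simp [hw, Ne.symm h]; ring
      · by_cases hw2 : c w = c u
        · simp [hw2, h]; ring
        · simp [hw, hw2]
    · by_cases hl2 : l = c v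
      · subst hl2
        simp only [hl, if_false, if_true, mrg, add_zero]
        by_cases hw : c w = c v
        · simp [hw, h]
        · simp [hw]
      · simp only [hl, hl2, if_false, mrg]
        by_cases hw : c w = c v
        · simp [hw, Ne.symm hl, Ne.symm hl2]
        · simp [hw]

/-- the state invariant: `xs` are unattached centres, the blocks of the `Ys` have extra load `ℓ` -/
structure Inv (W : Finset α) (R : List α) (ρ : α → A) (Ys : Finset α) (xs : List α) (ℓ : α → A)
    (c : α → α) : Prop where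
  img : W.image c = Ys ∪ xs.toFinset
  ys : ∀ y ∈ Ys, c y = y ∧ tw R ρ c y = ρ y + ℓ y
  xs : ∀ x ∈ xs, c x = x ∧ Iso W c x ∧ tw R ρ c x = 1

theorem Inv.step {W : Finset α} {R : List α} {ρ : α → A} {Ys : Finset α} {x : α} {xs : List α}
    {ℓ : α → A} {c : α → α} (hY : Ys ⊆ W) (hX : ∀ z ∈ x :: xs, z ∈ W)
    (hnd : (x :: xs).Nodup) (hdis : ∀ z ∈ x :: xs, z ∉ Ys)
    (h : Inv W R ρ Ys (x :: xs) ℓ c) {y : α} (hy : y ∈ Ys) :
    Inv W R ρ Ys xs (fun v => ℓ v + if y = v then 1 else 0) (mrg c y x) := by
  obtain ⟨hx1, hx2, hx3⟩ := h.xs x (List.mem_cons_self ..)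
  obtain ⟨hy1, hy2⟩ := h.ys y hy
  have hxW : x ∈ W := hX x (List.mem_cons_self ..)
  have hyW : y ∈ W := hY hy
  have hxY : x ∉ Ys := hdis x (List.mem_cons_self ..)
  have hyx : y ≠ x := fun e => hxY (e ▸ hy)
  have hne : c y ≠ c x := by rw [hy1, hx1]; exact hyx
  have hxxs : x ∉ xs := (List.nodup_cons.mp hnd).1
  have val : ∀ v, v ≠ x → c v = v → mrg c y x v = v := by
    intro v hv hcv
    unfold mrg; rw [if_neg]
    · exact hcv
    · rw [hcv, hx1]; exact hv
  constructor
  · rw [image_mrg hyW hne, h.img, hx1]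
    ext z
    simp only [mem_erase, mem_union, List.mem_toFinset, List.mem_cons]
    constructor
    · rintro ⟨h1, h2 | h2 | h2⟩
      · exact Or.inl h2
      · exact absurd h2 h1
      · exact Or.inr h2
    · rintro (h1 | h1)
      · exact ⟨fun e => hxY (e ▸ h1), Or.inl h1⟩
      · exact ⟨fun e => hxxs (e ▸ h1), Or.inr (Or.inr h1)⟩
  · intro v hv
    obtain ⟨hv1, hv2⟩ := h.ys v hv
    have hvx : v ≠ x := fun e => hxY (e ▸ hv)
    refine ⟨val v hvx hv1, ?_⟩
    rw [tw_mrg R ρ c hne, hy1, hx1]
    by_cases hvy : v = y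
    · subst hvy
      rw [if_pos rfl, hv2, hx3, if_pos rfl]; ring
    · rw [if_neg hvy, if_neg hvx, hv2, if_neg (fun e => hvy e.symm)]; ring
  · intro v hv
    obtain ⟨hv1, hv2, hv3⟩ := h.xs v (List.mem_cons_of_mem _ hv)
    have hvx : v ≠ x := fun e => hxxs (e ▸ hv)
    have hvy : v ≠ y := fun e => hdis v (List.mem_cons_of_mem _ hv) (e ▸ hy)
    refine ⟨val v hvx hv1, hv2.mrg hyW hxW hvy.symm hvx.symm, ?_⟩
    rw [tw_mrg R ρ c hne, hy1, hx1, if_neg hvy, if_neg hvx, hv3]

/-- the stars of a bipartite weight function -/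
def stars (Yl : List α) (w : α → α → A) (xs : List α) : List (α × List (α × A)) :=
  xs.map fun x => (x, Yl.map fun y => (y, w x y))

theorem choose_stars (W : Finset α) (R : List α) (ρ : α → A) (g : A → A) (Yl : List α)
    (hYnd : Yl.Nodup) (w : α → α → A) (hY : Yl.toFinset ⊆ W) :
    ∀ (xs : List α), (∀ z ∈ xs, z ∈ W) → xs.Nodup → (∀ z ∈ xs, z ∉ Yl.toFinset) →
    ∀ (ℓ : α → A) (c : α → α), Inv W R ρ Yl.toFinset xs ℓ c →
    choose (fb W R ρ g) (stars Yl w xs) c
      = ∑ a ∈ Fintype.piFinset (fun _ : Fin xs.length => Yl.toFinset),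
          (∏ i, w (xs.get i) (a i)) *
            ∏ y ∈ Yl.toFinset, g (ρ y + ℓ y + ∑ i, if a i = y then 1 else 0) := by
  intro xs
  induction xs with
  | nil =>
    intro _ _ _ ℓ c h
    have e1 : Fintype.piFinset (fun _ : Fin ([] : List α).length => Yl.toFinset)
        = {fun i => i.elim0} := by
      ext a; simp only [Fintype.mem_piFinset, Finset.mem_singleton]
      constructor
      · intro _; funext i; exact i.elim0
      · intro _ i; exact i.elim0
    rw [e1, Finset.sum_singleton]
    simp only [stars, List.map_nil, choose, fb, List.length_nil, Finset.univ_eq_empty,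
      Finset.prod_empty, Finset.sum_empty, add_zero, one_mul]
    rw [h.img]
    simp only [List.toFinset_nil, Finset.union_empty]
    exact Finset.prod_congr rfl fun y hy => by rw [(h.ys y hy).2]
  | cons x xs ih =>
    intro hX hnd hdis ℓ c h
    have hlhs : choose (fb W R ρ g) (stars Yl w (x :: xs)) c
        = ∑ y ∈ Yl.toFinset, w x y * choose (fb W R ρ g) (stars Yl w xs) (mrg c y x) := by
      simp only [stars, List.map_cons, choose, List.map_map, Function.comp_def]
      rw [List.sum_toFinset _ hYnd]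
    rw [hlhs]
    simp only [List.length_cons]
    rw [sum_piFinset_cons]
    apply Finset.sum_congr rfl
    intro y hy
    rw [ih (fun z hz => hX z (List.mem_cons_of_mem _ hz)) (List.nodup_cons.mp hnd).2
      (fun z hz => hdis z (List.mem_cons_of_mem _ hz)) _ _ (h.step hY hX hnd hdis hy),
      Finset.mul_sum]
    apply Finset.sum_congr rfl
    intro a _
    rw [Fin.prod_univ_succ, ← mul_assoc]
    simp only [List.get_cons_zero, Fin.cons_zero, Fin.cons_succ, List.get_cons_succ',
      Fin.sum_univ_succ]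
    congr 1
    apply Finset.prod_congr rfl
    intro y' _
    congr 1
    ring

/-! ### exact covers -/

section cover

/-- `S` covers every element of `xs` exactly once -/
def ExCov (xs : List α) (mem : α → Finset α) (S : Finset α) : Prop :=
  ∀ x ∈ xs, ∃! y, y ∈ S ∧ x ∈ mem y

/-- signed number of exact covers -/
noncomputable def coverSum (xs : List α) (Ys : Finset α) (mem : α → Finset α) (ε : α → ℚ) : ℚ :=
  open Classical in ∑ S ∈ Ys.powerset with ExCov xs mem S, ∏ y ∈ S, ε y

theorem choice_sum (xs : List α) (hnd : xs.Nodup) (Ys : Finset α) (mem : α → Finset α)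
    (hmem : ∀ y ∈ Ys, (mem y).card = 3 ∧ ∀ x ∈ mem y, x ∈ xs) (ε : α → ℚ)
    (hε : ∀ y ∈ Ys, ε y ^ 3 = ε y) :
    ∑ a ∈ Fintype.piFinset (fun _ : Fin xs.length => Ys),
          (∏ i, if xs.get i ∈ mem (a i) then ε (a i) else 0) *
            ∏ y ∈ Ys, ((-1 + ∑ i, if a i = y then 1 else 0) *
              (1 - (-1 + ∑ i, if a i = y then 1 else 0)))
      = (-2) ^ Ys.card * coverSum xs Ys mem ε := by
  classical
  -- number of preimages
  have hsum : ∀ (a : Fin xs.length → α) (y : α), (∑ i, if a i = y then (1 : ℚ) else 0)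
      = ((univ.filter fun i => a i = y).card : ℚ) := by
    intro a y; rw [Finset.sum_boole]
  have hinj : Function.Injective xs.get := List.nodup_iff_injective_get.mp hnd
  let valid : (Fin xs.length → α) → Prop := fun a =>
    (∀ i, xs.get i ∈ mem (a i)) ∧ ∀ y ∈ Ys, (univ.filter fun i => a i = y).card = 0 ∨
      (univ.filter fun i => a i = y).card = 3
  have hle : ∀ a ∈ Fintype.piFinset (fun _ : Fin xs.length => Ys), (∀ i, xs.get i ∈ mem (a i)) →
      ∀ y ∈ Ys, (univ.filter fun i => a i = y).image xs.get ⊆ mem y := by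
    intro a _ h1 y hy x hx
    obtain ⟨i, hi, rfl⟩ := Finset.mem_image.mp hx
    have := h1 i
    rwa [(Finset.mem_filter.mp hi).2] at this
  have hval : ∀ a ∈ Fintype.piFinset (fun _ : Fin xs.length => Ys), valid a →
      (∏ i, if xs.get i ∈ mem (a i) then ε (a i) else 0) *
            ∏ y ∈ Ys, ((-1 + ∑ i, if a i = y then (1 : ℚ) else 0) *
              (1 - (-1 + ∑ i, if a i = y then 1 else 0)))
        = (-2) ^ Ys.card * ∏ y ∈ univ.image a, ε y := by
    intro a ha hv
    rw [mul_comm]
    congr 1
    · rw [← Finset.prod_const]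
      apply Finset.prod_congr rfl
      intro y hy
      rw [hsum]
      rcases hv.2 y hy with h | h <;> rw [h] <;> norm_num
    · have h1 : ∀ i, (if xs.get i ∈ mem (a i) then ε (a i) else 0) = ε (a i) := fun i =>
        if_pos (hv.1 i)
      simp only [h1]
      rw [← Finset.prod_fiberwise_of_maps_to (g := a) (t := univ.image a)
        (fun i _ => Finset.mem_image_of_mem a (Finset.mem_univ i))]
      apply Finset.prod_congr rfl
      intro y hy
      obtain ⟨i, _, hi⟩ := Finset.mem_image.mp hy
      have hyY : y ∈ Ys := hi ▸ (Fintype.mem_piFinset.mp ha i)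
      have h2 : ∏ i ∈ univ.filter (fun i => a i = y), ε (a i)
          = ∏ i ∈ univ.filter (fun i => a i = y), ε y :=
        Finset.prod_congr rfl fun i hi => by rw [(Finset.mem_filter.mp hi).2]
      rw [h2, Finset.prod_const]
      rcases hv.2 y hyY with h | h
      · exfalso
        rw [Finset.card_eq_zero] at h
        have : i ∈ univ.filter (fun i => a i = y) := by simp [hi]
        rw [h] at this; simp at this
      · rw [h, hε y hyY]
  have hzero : ∀ a ∈ Fintype.piFinset (fun _ : Fin xs.length => Ys), ¬ valid a →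
      (∏ i, if xs.get i ∈ mem (a i) then ε (a i) else 0) *
            ∏ y ∈ Ys, ((-1 + ∑ i, if a i = y then (1 : ℚ) else 0) *
              (1 - (-1 + ∑ i, if a i = y then 1 else 0))) = 0 := by
    intro a ha hv
    by_cases h1 : ∀ i, xs.get i ∈ mem (a i)
    · have h2 : ∃ y ∈ Ys, ¬ ((univ.filter fun i => a i = y).card = 0 ∨
          (univ.filter fun i => a i = y).card = 3) := by
        by_contra hcon
        push Not at hcon
        exact hv ⟨h1, fun y hy => hcon y hy⟩
      obtain ⟨y, hy, h3⟩ := h2
      have h4 : (univ.filter fun i => a i = y).card ≤ 3 := by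
        rw [← (hmem y hy).1, ← Finset.card_image_of_injective _ hinj]
        exact Finset.card_le_card (hle a ha h1 y hy)
      rw [Finset.prod_eq_zero (i := y) hy, mul_zero]
      rw [hsum]
      have h5 : (univ.filter fun i => a i = y).card = 1 ∨ (univ.filter fun i => a i = y).card = 2 := by
        omega
      rcases h5 with h | h <;> rw [h] <;> norm_num
    · push Not at h1
      obtain ⟨i, hi⟩ := h1
      rw [Finset.prod_eq_zero (i := i) (Finset.mem_univ i) (if_neg hi), zero_mul]
  rw [← Finset.sum_filter_add_sum_filter_not (Fintype.piFinset fun _ : Fin xs.length => Ys) valid]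
  rw [Finset.sum_eq_zero (s := Finset.filter (fun a => ¬ valid a) _) (fun a ha =>
    hzero a (Finset.mem_filter.mp ha).1 (Finset.mem_filter.mp ha).2), add_zero]
  rw [Finset.sum_congr rfl (fun a ha =>
    hval a (Finset.mem_filter.mp ha).1 (Finset.mem_filter.mp ha).2), ← Finset.mul_sum]
  congr 1
  unfold coverSum
  -- the bijection between valid choices and exact covers
  have hfull : ∀ a ∈ Fintype.piFinset (fun _ : Fin xs.length => Ys), valid a → ∀ i, ∀ y ∈ Ys,
      (univ.filter fun i => a i = y).Nonempty → xs.get i ∈ mem y → a i = y := by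
    intro a ha hv i y hy hne hm
    have h3 : (univ.filter fun i => a i = y).card = 3 := by
      rcases hv.2 y hy with h | h
      · exact absurd (Finset.card_eq_zero.mp h) hne.ne_empty
      · exact h
    have h4 : (univ.filter fun i => a i = y).image xs.get = mem y := by
      apply Finset.eq_of_subset_of_card_le (hle a ha hv.1 y hy)
      rw [Finset.card_image_of_injective _ hinj, h3, (hmem y hy).1]
    rw [← h4] at hm
    obtain ⟨j, hj, hji⟩ := Finset.mem_image.mp hm
    rw [← hinj hji]
    exact (Finset.mem_filter.mp hj).2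
  let back : Finset α → Fin xs.length → α := fun S i =>
    if h : ∃ y, y ∈ S ∧ xs.get i ∈ mem y then h.choose else xs.get i
  have hback : ∀ S, ExCov xs mem S → ∀ i, (back S i ∈ S ∧ xs.get i ∈ mem (back S i)) ∧
      ∀ y ∈ S, xs.get i ∈ mem y → y = back S i := by
    intro S hS i
    obtain ⟨y0, hy0, hu⟩ := hS (xs.get i) (List.get_mem xs i)
    have h : ∃ y, y ∈ S ∧ xs.get i ∈ mem y := ⟨y0, hy0⟩
    have e : back S i = h.choose := dif_pos h
    rw [e]
    refine ⟨h.choose_spec, fun y hy hm => ?_⟩
    rw [hu y ⟨hy, hm⟩, hu _ h.choose_spec]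
  refine Finset.sum_nbij' (fun a => univ.image a) back ?_ ?_ ?_ ?_ ?_
  · intro a ha
    obtain ⟨ha1, ha2⟩ := Finset.mem_filter.mp ha
    rw [Finset.mem_filter, Finset.mem_powerset]
    constructor
    · intro y hy
      obtain ⟨i, _, rfl⟩ := Finset.mem_image.mp hy
      exact Fintype.mem_piFinset.mp ha1 i
    · intro x hx
      obtain ⟨i, rfl⟩ := List.get_of_mem hx
      refine ⟨a i, ⟨Finset.mem_image_of_mem a (Finset.mem_univ i), ha2.1 i⟩, ?_⟩
      rintro y ⟨hy, hm⟩
      obtain ⟨j, _, rfl⟩ := Finset.mem_image.mp hy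
      exact (hfull a ha1 ha2 i (a j) (Fintype.mem_piFinset.mp ha1 j) ⟨j, by simp⟩ hm).symm
  · intro S hS
    obtain ⟨hS1, hS2⟩ := Finset.mem_filter.mp hS
    rw [Finset.mem_powerset] at hS1
    have hb := hback S hS2
    rw [Finset.mem_filter, Fintype.mem_piFinset]
    refine ⟨fun i => hS1 (hb i).1.1, fun i => (hb i).1.2, fun y hy => ?_⟩
    by_cases hyS : y ∈ S
    · right
      have : (univ.filter fun i => back S i = y).image xs.get = mem y := by
        ext x
        constructor
        · intro hx
          obtain ⟨i, hi, rfl⟩ := Finset.mem_image.mp hx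
          rw [← (Finset.mem_filter.mp hi).2]
          exact (hb i).1.2
        · intro hx
          obtain ⟨i, rfl⟩ := List.get_of_mem ((hmem y hy).2 x hx)
          exact Finset.mem_image.mpr ⟨i, Finset.mem_filter.mpr ⟨Finset.mem_univ _,
            ((hb i).2 y hyS hx).symm⟩, rfl⟩
      rw [← (hmem y hy).1, ← this, Finset.card_image_of_injective _ hinj]
    · left
      rw [Finset.card_eq_zero, Finset.filter_eq_empty_iff]
      intro i _ e
      exact hyS (e ▸ (hb i).1.1)
  · intro a ha
    obtain ⟨ha1, ha2⟩ := Finset.mem_filter.mp ha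
    have hex : ExCov xs mem (univ.image a) := by
      intro x hx
      obtain ⟨i, rfl⟩ := List.get_of_mem hx
      refine ⟨a i, ⟨Finset.mem_image_of_mem a (Finset.mem_univ i), ha2.1 i⟩, ?_⟩
      rintro y ⟨hy, hm⟩
      obtain ⟨j, _, rfl⟩ := Finset.mem_image.mp hy
      exact (hfull a ha1 ha2 i (a j) (Fintype.mem_piFinset.mp ha1 j) ⟨j, by simp⟩ hm).symm
    funext i
    exact ((hback _ hex i).2 (a i) (Finset.mem_image_of_mem a (Finset.mem_univ i))
      (ha2.1 i)).symm
  · intro S hS
    obtain ⟨hS1, hS2⟩ := Finset.mem_filter.mp hS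
    rw [Finset.mem_powerset] at hS1
    have hb := hback S hS2
    ext y
    constructor
    · intro hy
      obtain ⟨i, _, rfl⟩ := Finset.mem_image.mp hy
      exact (hb i).1.1
    · intro hy
      have hne : (mem y).Nonempty := by
        rw [← Finset.card_pos, (hmem y (hS1 hy)).1]; norm_num
      obtain ⟨x, hx⟩ := hne
      obtain ⟨i, rfl⟩ := List.get_of_mem ((hmem y (hS1 hy)).2 x hx)
      exact Finset.mem_image.mpr ⟨i, Finset.mem_univ _, ((hb i).2 y hy hx).symm⟩
  · intro a _; rfl

end cover

end Pool.Agent.Uni
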