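import Pool.Agent.H527R2.UniH

/-!
# The numerical formulas
-/

namespace Pool.Agent.Uni

open Finset Polynomial

noncomputable def cf (T k : ℕ) (n : ℚ) : ℚ :=
  ∑ m ∈ Icc (max k 2) T, 2 * n ^ (m - k) * (m.choose k : ℚ) /
    (((m - 2).factorial : ℚ) * ((m - 1).factorial : ℚ) * (k : ℚ) ^ (T + 1 - m))

noncomputable def thetaF (T : ℕ) (n : ℚ) (P : ℕ → ℚ) (Pp : ℚ) : ℚ :=
  (1 + n * ((T : ℚ) - 2)) * (Pp - 2 * P 1) + ∑ k ∈ Icc 1 T, (-1) ^ (k + 1) * P k * cf T k n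

theorem sum_inv (m : ℕ) (hm : 2 ≤ m) :
    ∑ k ∈ range (m + 1), (-1 : ℚ) ^ (m - k) * (m.choose k : ℚ) * (k : ℚ) ^ (m - 1) * (k : ℚ)⁻¹
      = if m = 2 then -1 else 0 := by
  have h1 : ∑ k ∈ range (m + 1), (-1 : ℚ) ^ (m - k) * (m.choose k : ℚ) * (X ^ (m - 2) : ℚ[X]).eval (k : ℚ)
      = 0 := findiff _ m (by rw [natDegree_X_pow]; omega)
  simp only [eval_pow, eval_X] at h1
  rw [Finset.sum_range_succ'] at h1 ⊢
  have h2 : ∑ k ∈ range m, (-1 : ℚ) ^ (m - (k + 1)) * (m.choose (k + 1) : ℚ) *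
        ((k + 1 : ℕ) : ℚ) ^ (m - 1) * ((k + 1 : ℕ) : ℚ)⁻¹
      = ∑ k ∈ range m, (-1 : ℚ) ^ (m - (k + 1)) * (m.choose (k + 1) : ℚ) *
        ((k + 1 : ℕ) : ℚ) ^ (m - 2) := by
    apply Finset.sum_congr rfl
    intro k _
    have hk : ((k + 1 : ℕ) : ℚ) ≠ 0 := by positivity
    rw [show m - 1 = (m - 2) + 1 by omega, pow_succ]
    field_simp
  rw [h2]
  by_cases h : m = 2
  · subst h
    rw [if_pos rfl]
    norm_num at h1 ⊢
    linarith
  · rw [if_neg h]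
    rw [show m - 1 = (m - 2) + 1 by omega]
    have : m - 2 ≠ 0 := by omega
    simp [this] at h1 ⊢
    exact h1

theorem theta_eq (T : ℕ) (hT : 1 ≤ T) (n : ℚ) (hn : n ≠ 0) (e : ℕ → ℚ) (A : ℚ) (P τ : ℕ → ℚ)
    (Pp : ℚ) (h1 : e 1 = n * e 0)
    (hτ : ∀ k, 1 ≤ k → k ≤ T → τ k = n ^ k * n⁻¹ * ((k : ℚ) ^ T * (k : ℚ)⁻¹) * e 0)
    (hP : ∀ k, 1 ≤ k → k ≤ T → 2 * P k + ((T : ℚ) + k - 1) * τ k
      = n ^ k * (k : ℚ) ^ T * (A - sig T n e k))
    (hPp : Pp = 2 * P 1 + τ 1) :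
    ∑ j ∈ range (T + 1), (-1) ^ j * e j = thetaF T n P Pp := by
  have he0 : Pp - 2 * P 1 = e 0 := by
    rw [hPp, hτ 1 le_rfl hT]
    field_simp
    simp
  -- values of `A - sig`
  have hA : ∀ k, 1 ≤ k → k ≤ T → A - sig T n e k
      = 2 * P k / (n ^ k * (k : ℚ) ^ T) + (((T : ℚ) - 1) * (k : ℚ)⁻¹ + 1) * (n⁻¹ * e 0) := by
    intro k hk hkT
    have hk0 : (k : ℚ) ≠ 0 := by positivity
    have h2 := hP k hk hkT
    rw [hτ k hk hkT] at h2
    have h3 : n ^ k * (k : ℚ) ^ T ≠ 0 := by positivity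
    apply mul_left_cancel₀ h3
    rw [← h2]
    field_simp
    ring
  have hem : ∀ m, 2 ≤ m → m ≤ T → (-1) ^ m * e m
      = (∑ k ∈ Icc 1 m, (-1) ^ (k + 1) * P k * (2 * n ^ (m - k) * (m.choose k : ℚ) /
    (((m - 2).factorial : ℚ) * ((m - 1).factorial : ℚ) * (k : ℚ) ^ (T + 1 - m))))
        + if m = 2 then n * ((T : ℚ) - 1) * e 0 else 0 := by
    intro m hm hmT
    have hinv := invert T n hn e A m hm (by omega)
    have h4 : ∑ k ∈ range (m + 1), (-1 : ℚ) ^ (m - k) * (m.choose k : ℚ) * (k : ℚ) ^ (m - 1) *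
        (A - sig T n e k)
        = ∑ k ∈ range (m + 1), (-1 : ℚ) ^ (m - k) * (m.choose k : ℚ) * (k : ℚ) ^ (m - 1) *
          (2 * P k / (n ^ k * (k : ℚ) ^ T))
        + (((T : ℚ) - 1) * (n⁻¹ * e 0)) * ∑ k ∈ range (m + 1), (-1 : ℚ) ^ (m - k) *
          (m.choose k : ℚ) * (k : ℚ) ^ (m - 1) * (k : ℚ)⁻¹
        + (n⁻¹ * e 0) * ∑ k ∈ range (m + 1), (-1 : ℚ) ^ (m - k) *
          (m.choose k : ℚ) * (k : ℚ) ^ (m - 1) := by
      rw [Finset.mul_sum, Finset.mul_sum, ← Finset.sum_add_distrib, ← Finset.sum_add_distrib]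
      apply Finset.sum_congr rfl
      intro k hk
      have hkm : k ≤ m := by have := Finset.mem_range.mp hk; omega
      rcases Nat.eq_zero_or_pos k with rfl | hk1
      · have : m - 1 ≠ 0 := by omega
        simp [this]
      · rw [hA k hk1 (by omega)]; ring
    have h5 : ∑ k ∈ range (m + 1), (-1 : ℚ) ^ (m - k) * (m.choose k : ℚ) * (k : ℚ) ^ (m - 1)
        = 0 := by
      rw [← findiff (X ^ (m - 1)) m (by rw [natDegree_X_pow]; omega)]
      simp
    rw [h4, h5, sum_inv m hm, mul_zero, add_zero] at hinv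
    have hf : ((m - 2).factorial : ℚ) * ((m - 1).factorial : ℚ) ≠ 0 := by positivity
    have h6 : e m = -(n ^ m / (((m - 2).factorial : ℚ) * ((m - 1).factorial : ℚ))) *
        (∑ k ∈ range (m + 1), (-1 : ℚ) ^ (m - k) * (m.choose k : ℚ) * (k : ℚ) ^ (m - 1) *
          (2 * P k / (n ^ k * (k : ℚ) ^ T)))
        + (n ^ m / (((m - 2).factorial : ℚ) * ((m - 1).factorial : ℚ))) *
          (((T : ℚ) - 1) * (n⁻¹ * e 0)) * (if m = 2 then 1 else 0) := by
      apply mul_left_cancel₀ (neg_ne_zero.mpr hf)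
      rw [← hinv]
      generalize (∑ k ∈ range (m + 1), (-1 : ℚ) ^ (m - k) * (m.choose k : ℚ) * (k : ℚ) ^ (m - 1) *
          (2 * P k / (n ^ k * (k : ℚ) ^ T))) = S1
      field_simp
      split_ifs <;> ring
    rw [h6, mul_add]
    congr 1
    · rw [Finset.range_eq_Ico, Finset.sum_eq_sum_Ico_succ_bot (by omega)]
      have : m - 1 ≠ 0 := by omega
      simp only [Nat.cast_zero, zero_pow this, mul_zero, zero_mul, zero_add]
      rw [Finset.mul_sum, Finset.mul_sum]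
      have hIcc : Ico 1 (m + 1) = Icc 1 m := by ext j; simp only [mem_Ico, mem_Icc]; omega
      rw [hIcc]
      apply Finset.sum_congr rfl
      intro k hk
      obtain ⟨hk1, hkm⟩ := Finset.mem_Icc.mp hk
      have hk0 : (k : ℚ) ≠ 0 := by positivity
      have e1 : n ^ m = n ^ (m - k) * n ^ k := by rw [← pow_add]; congr 1; omega
      have e2 : (k : ℚ) ^ T = (k : ℚ) ^ (m - 1) * (k : ℚ) ^ (T + 1 - m) := by
        rw [← pow_add]; congr 1; omega
      have e3 : (-1 : ℚ) ^ m = (-1) ^ (m - k) * (-1) ^ k := by rw [← pow_add]; congr 1; omega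
      have e4 : (-1 : ℚ) ^ (m - k) * (-1) ^ (m - k) = 1 := by
        rw [← mul_pow]; norm_num
      rw [e1, e2, e3, pow_succ (-1 : ℚ) k]
      field_simp
      linear_combination (-((m.choose k : ℚ) * P k)) * e4
    · by_cases h : m = 2
      · subst h
        simp only [if_true]
        norm_num
        field_simp
      · simp [h]
  -- assemble
  have hsplit : ∑ j ∈ range (T + 1), (-1) ^ j * e j
      = e 0 - e 1 + ∑ m ∈ Icc 2 T, (-1) ^ m * e m := by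
    have : range (T + 1) = insert 0 (insert 1 (Icc 2 T)) := by
      ext j; simp only [mem_range, mem_insert, mem_Icc]; omega
    rw [this, Finset.sum_insert (by simp), Finset.sum_insert (by simp)]
    simp; ring
  rw [hsplit, Finset.sum_congr rfl (fun m hm => hem m (Finset.mem_Icc.mp hm).1
    (Finset.mem_Icc.mp hm).2), Finset.sum_add_distrib]
  have hcomm : ∑ m ∈ Icc 2 T, ∑ k ∈ Icc 1 m, (-1) ^ (k + 1) * P k *
      (2 * n ^ (m - k) * (m.choose k : ℚ) /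
    (((m - 2).factorial : ℚ) * ((m - 1).factorial : ℚ) * (k : ℚ) ^ (T + 1 - m)))
      = ∑ k ∈ Icc 1 T, (-1) ^ (k + 1) * P k * cf T k n := by
    unfold cf
    simp only [Finset.mul_sum]
    apply Finset.sum_comm'
    intro m k
    simp only [mem_Icc, max_le_iff]
    omega
  rw [hcomm]
  unfold thetaF
  rw [he0, h1]
  by_cases h2 : 2 ≤ T
  · rw [Finset.sum_ite_eq', if_pos (Finset.mem_Icc.mpr ⟨le_rfl, h2⟩)]
    ring
  · have : T = 1 := by omega
    subst this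
    simp
    ring

end Pool.Agent.Uni
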