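import Pool.Agent.H527R2.UniI

/-!
# From the unicyclic counts to the signed number of exact covers
-/

namespace Pool.Agent.Uni

open Finset Polynomial

variable {α : Type*} [DecidableEq α]

def rhoN (Xl : List α) (i : ℕ) (v : α) : ℕ := if v ∈ Xl then 1 else i - 1

def wN (mem : α → Finset α) (sg : α → Bool) (i : ℕ) (x y : α) : ℕ :=
  if x ∈ mem y then (if sg y then i - 1 else 1) else 0

/-- the `N`-edges of the graph -/
def LN (Xl Yl : List α) (mem : α → Finset α) (sg : α → Bool) (i : ℕ) : List (α × α × ℕ) :=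
  Xl.flatMap fun x => Yl.map fun y => (y, x, i * wN mem sg i x y)

noncomputable def rhoP (Xl : List α) (v : α) : ℚ[X] := if v ∈ Xl then 1 else X - 1

noncomputable def wP (mem : α → Finset α) (sg : α → Bool) (x y : α) : ℚ[X] :=
  if x ∈ mem y then (if sg y then X - 1 else 1) else 0

theorem natCast_pred {i : ℕ} (hi : 1 ≤ i) : ((i - 1 : ℕ) : ℚ) = (i : ℚ) - 1 := by
  rw [Nat.cast_sub hi]; simp

theorem rho_eval (Xl : List α) {i : ℕ} (hi : 1 ≤ i) (v : α) :
    (rhoP Xl v).eval (i : ℚ) = (rhoN Xl i v : ℚ) := by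
  unfold rhoP rhoN
  split_ifs
  · simp
  · rw [eval_sub, eval_X, eval_one, natCast_pred hi]

theorem w_eval (mem : α → Finset α) (sg : α → Bool) {i : ℕ} (hi : 1 ≤ i) (x y : α) :
    (wP mem sg x y).eval (i : ℚ) = (wN mem sg i x y : ℚ) := by
  unfold wP wN
  split_ifs
  · rw [eval_sub, eval_X, eval_one, natCast_pred hi]
  · simp
  · simp

theorem LN_eval (Xl Yl : List α) (mem : α → Finset α) (sg : α → Bool) {i : ℕ} (hi : 1 ≤ i) :
    (starsE X (stars Yl (wP mem sg) Xl)).map (fun e => (e.1, e.2.1, e.2.2.eval (i : ℚ)))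
      = castL (LN Xl Yl mem sg i) := by
  unfold starsE stars castL LN starE
  rw [List.flatMap_map, List.map_flatMap, List.map_flatMap]
  congr 1
  funext x
  simp only [List.map_map]
  apply List.map_congr_left
  intro y _
  simp only [Function.comp_def]
  rw [eval_mul, eval_X, w_eval mem sg hi]
  simp

/-- the forest sum as a polynomial in `δ` -/
noncomputable def ThP (Xl Yl : List α) (mem : α → Finset α) (sg : α → Bool) : ℚ[X] :=
  tc (fb (Xl ++ Yl).toFinset (Xl ++ Yl) (rhoP Xl) (fun s => s * (1 - s)))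
    (starsE X (stars Yl (wP mem sg) Xl)) id

theorem fb_map {A B : Type*} [CommRing A] [CommRing B] (f : A →+* B) (W : Finset α) (R : List α)
    (ρ : α → A) (c : α → α) :
    f (fb W R ρ (fun s => s * (1 - s)) c) = fb W R (fun v => f (ρ v)) (fun s => s * (1 - s)) c := by
  unfold fb
  rw [map_prod]
  apply Finset.prod_congr rfl
  intro l _
  rw [map_mul, map_sub, map_one, tw_map]

theorem ThP_eval (Xl Yl : List α) (mem : α → Finset α) (sg : α → Bool) {i : ℕ} (hi : 1 ≤ i) :
    (ThP Xl Yl mem sg).eval (i : ℚ)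
      = (Epol (Xl ++ Yl).toFinset (Xl ++ Yl) (fun v => (rhoN Xl i v : ℚ))
          (castL (LN Xl Yl mem sg i)) id).eval (-1) := by
  rw [Epol_eval, ← LN_eval Xl Yl mem sg hi]
  have := tc_map (evalRingHom (i : ℚ))
    (fb (Xl ++ Yl).toFinset (Xl ++ Yl) (rhoP Xl) (fun s => s * (1 - s)))
    (starsE X (stars Yl (wP mem sg) Xl)) id
  simp only [fb_map, coe_evalRingHom, rho_eval Xl hi] at this
  exact this

theorem tw_unique {A : Type*} [CommRing A] (W : Finset α) (R : List α) (hR : ∀ w ∈ R, w ∈ W)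
    (hnd : R.Nodup) (ρ : α → A) (x : α) (hx : x ∈ R) (c : α → α) (hc : Iso W c x) :
    tw R ρ c (c x) = ρ x := by
  induction R with
  | nil => simp at hx
  | cons w R ih =>
    have h1 : tw (w :: R) ρ c (c x) = (if c w = c x then ρ w else 0) + tw R ρ c (c x) := by
      simp [tw]
    rw [h1]
    obtain ⟨hw, hnd'⟩ := List.nodup_cons.mp hnd
    rcases List.mem_cons.mp hx with rfl | hx'
    · rw [if_pos rfl]
      have : tw R ρ c (c x) = 0 := by
        unfold tw
        apply List.sum_eq_zero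
        intro a ha
        obtain ⟨v, hv, rfl⟩ := List.mem_map.mp ha
        rw [if_neg]
        exact hc v (hR v (List.mem_cons_of_mem _ hv)) (fun e => hw (e ▸ hv))
      rw [this, add_zero]
    · have hwx : w ≠ x := fun e => hw (e ▸ hx')
      rw [if_neg (hc w (hR w (List.mem_cons_self ..)) hwx), zero_add]
      exact ih (fun w' hw' => hR w' (List.mem_cons_of_mem _ hw')) hnd' hx'

theorem ThP_low (Xl Yl : List α) (hnd : (Xl ++ Yl).Nodup) (mem : α → Finset α)
    (sg : α → Bool) (hmem : ∀ y ∈ Yl, (mem y).card = 3 ∧ ∀ x ∈ mem y, x ∈ Xl) :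
    ∃ g : ℚ[X], ThP Xl Yl mem sg = X ^ Xl.length * g ∧
      g.eval 0 = (-2) ^ Yl.length *
        coverSum Xl Yl.toFinset mem (fun y => if sg y then -1 else 1) := by
  obtain ⟨hXnd, hYnd, hdis⟩ := List.nodup_append.mp hnd
  set W := (Xl ++ Yl).toFinset with hWdef
  have hXW : ∀ x ∈ Xl, x ∈ W := fun x hx => by simp [hWdef, hx]
  have hYW : Yl.toFinset ⊆ W := by intro y hy; simp at hy; simp [hWdef, hy]
  have hXY : ∀ x ∈ Xl, x ∉ Yl.toFinset := by
    intro x hx hy
    exact hdis x hx x (by simpa using hy) rfl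
  have hRW : ∀ w ∈ Xl ++ Yl, w ∈ W := fun w hw => by simpa [hWdef] using hw
  have hIso : ∀ x ∈ Xl, Iso W id x := fun x _ v _ hv => hv
  have hlen : (stars Yl (wP mem sg) Xl).length = Xl.length := by simp [stars]
  have hstOK : StOK W (stars Yl (wP mem sg) Xl) := by
    refine ⟨?_, ?_, ?_⟩
    · have : (stars Yl (wP mem sg) Xl).map Prod.fst = Xl := by
        simp [stars, List.map_map, Function.comp_def]
      rw [this]; exact hXnd
    · intro s hs
      obtain ⟨x, hx, rfl⟩ := List.mem_map.mp hs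
      exact hXW x hx
    · intro s hs y hy
      obtain ⟨x, hx, rfl⟩ := List.mem_map.mp hs
      obtain ⟨y', hy', rfl⟩ := List.mem_map.mp hy
      refine ⟨hYW (by simpa using hy'), ?_⟩
      intro s' hs' e
      obtain ⟨x', hx', rfl⟩ := List.mem_map.mp hs'
      have e' : y' = x' := e
      exact hXY x' hx' (by rw [← e']; simpa using hy')
  have h1 : ∀ s ∈ stars Yl (wP mem sg) Xl, ∀ c, Iso W c s.1 →
      tw (Xl ++ Yl) (rhoP Xl) c (c s.1) = 1 := by
    intro s hs c hc
    obtain ⟨x, hx, rfl⟩ := List.mem_map.mp hs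
    rw [tw_unique W (Xl ++ Yl) hRW hnd (rhoP Xl) x (List.mem_append_left _ hx) c hc]
    unfold rhoP; rw [if_pos hx]
  obtain ⟨r, hr⟩ := lowest W (Xl ++ Yl) (rhoP Xl) X (stars Yl (wP mem sg) Xl) hstOK h1 id
    (fun s hs => by
      obtain ⟨x, hx, rfl⟩ := List.mem_map.mp hs
      exact hIso x hx)
  rw [hlen] at hr
  refine ⟨_, hr, ?_⟩
  rw [eval_add, eval_mul, eval_X, zero_mul, add_zero]
  have hInv : Inv W (Xl ++ Yl) (rhoP Xl) Yl.toFinset Xl (fun _ => 0) id := by
    refine ⟨?_, ?_, ?_⟩
    · rw [Finset.image_id, hWdef]; ext v; simp [or_comm]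
    · intro y hy
      refine ⟨rfl, ?_⟩
      have := tw_unique W (Xl ++ Yl) hRW hnd (rhoP Xl) y
        (List.mem_append_right _ (by simpa using hy)) id (fun v _ hv => hv)
      rw [add_zero]; exact this
    · intro x hx
      refine ⟨rfl, hIso x hx, ?_⟩
      have := tw_unique W (Xl ++ Yl) hRW hnd (rhoP Xl) x (List.mem_append_left _ hx) id
        (hIso x hx)
      unfold rhoP at this ⊢
      rw [if_pos hx] at this
      exact this
  rw [choose_stars W (Xl ++ Yl) (rhoP Xl) (fun s => s * (1 - s)) Yl hYnd (wP mem sg) hYW Xl hXW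
    hXnd hXY (fun _ => 0) id hInv]
  have hε : ∀ y ∈ Yl.toFinset, (if sg y then (-1 : ℚ) else 1) ^ 3 = if sg y then -1 else 1 := by
    intro y _; split_ifs <;> norm_num
  rw [← List.toFinset_card_of_nodup hYnd, ← choice_sum Xl hXnd Yl.toFinset mem
    (fun y hy => hmem y (by simpa using hy)) (fun y => if sg y then -1 else 1) hε]
  rw [eval_finsetSum]
  apply Finset.sum_congr rfl
  intro a ha
  rw [eval_mul, eval_prod, eval_prod]
  congr 1
  · apply Finset.prod_congr rfl
    intro i _
    unfold wP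
    split_ifs <;> simp
  · apply Finset.prod_congr rfl
    intro y hy
    have hyX : y ∉ Xl := fun h => hXY y h hy
    have e1 : (rhoP Xl y + 0 + ∑ i, if a i = y then (1 : ℚ[X]) else 0).eval 0
        = -1 + ∑ i, if a i = y then 1 else 0 := by
      unfold rhoP
      rw [if_neg hyX, eval_add, eval_finsetSum]
      simp [apply_ite (Polynomial.eval (0 : ℚ))]
    rw [eval_mul, eval_sub, eval_one, e1]

theorem ThP_natDegree (Xl Yl : List α) (mem : α → Finset α) (sg : α → Bool) :
    (ThP Xl Yl mem sg).natDegree ≤ 2 * (Xl ++ Yl).length + 2 * (Xl.length * Yl.length) := by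
  have hρ : ∀ v, (rhoP Xl v).natDegree ≤ 1 := by
    intro v; unfold rhoP; split_ifs
    · simp
    · compute_degree
  have htw : ∀ (R : List α) (c : α → α) (l : α), (tw R (rhoP Xl) c l).natDegree ≤ 1 := by
    intro R c l
    induction R with
    | nil => simp [tw]
    | cons w R ih =>
      have h1 : tw (w :: R) (rhoP Xl) c l
          = (if c w = l then rhoP Xl w else 0) + tw R (rhoP Xl) c l := by simp [tw]
      rw [h1]
      refine natDegree_add_le_of_degree_le ?_ ih
      split_ifs
      · exact hρ w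
      · simp
  have hfb : ∀ (W : Finset α) (R : List α) (c : α → α),
      (fb W R (rhoP Xl) (fun s => s * (1 - s)) c).natDegree ≤ 2 * W.card := by
    intro W R c
    unfold fb
    refine (natDegree_prod_le _ _).trans ?_
    refine (Finset.sum_le_card_nsmul _ _ 2 ?_).trans ?_
    · intro l _
      refine natDegree_mul_le.trans ?_
      have h1 := htw R c l
      have h2 : (1 - tw R (rhoP Xl) c l).natDegree ≤ 1 := by
        refine (natDegree_sub_le _ _).trans ?_
        rw [natDegree_one]; omega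
      omega
    · rw [smul_eq_mul, mul_comm]
      exact Nat.mul_le_mul_left 2 Finset.card_image_le
  have htc : ∀ (b : (α → α) → ℚ[X]) (d : ℕ), (∀ c, (b c).natDegree ≤ d) →
      ∀ (L : List (α × α × ℚ[X])), (∀ e ∈ L, e.2.2.natDegree ≤ 2) → ∀ c,
      (tc b L c).natDegree ≤ d + 2 * L.length := by
    intro b d hb L
    induction L with
    | nil => intro _ c; simpa [tc] using hb c
    | cons e L ih =>
      intro hL c
      have ih' := ih (fun e' he' => hL e' (List.mem_cons_of_mem _ he'))
      simp only [tc, List.length_cons]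
      split_ifs
      · exact (ih' c).trans (by omega)
      · refine natDegree_add_le_of_degree_le ((ih' c).trans (by omega)) ?_
        refine natDegree_mul_le.trans ?_
        have h1 := hL e (List.mem_cons_self ..)
        have h2 := ih' (mrg c e.1 e.2.1)
        omega
  have hlen : (starsE X (stars Yl (wP mem sg) Xl)).length = Xl.length * Yl.length := by
    unfold starsE stars starE
    rw [List.length_flatMap, List.map_map]
    simp [Function.comp_def, List.map_const', List.sum_replicate]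
  unfold ThP
  refine (htc _ _ (hfb _ _) _ ?_ _).trans ?_
  · intro e he
    obtain ⟨s, hs, he'⟩ := List.mem_flatMap.mp he
    obtain ⟨x, hx, rfl⟩ := List.mem_map.mp hs
    obtain ⟨y, hy, rfl⟩ := List.mem_map.mp he'
    obtain ⟨y', hy', rfl⟩ := List.mem_map.mp hy
    simp only
    refine natDegree_mul_le.trans ?_
    have h1 : (wP mem sg x y').natDegree ≤ 1 := by
      unfold wP; split_ifs
      · compute_degree
      · simp
      · simp
    have h2 : (X : ℚ[X]).natDegree ≤ 1 := natDegree_X_le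
    omega
  · rw [hlen]
    have := List.toFinset_card_le (Xl ++ Yl)
    omega

/-- extrapolation to `0` -/
theorem extrapolate (g : ℚ[X]) (D : ℕ) (hg : g.natDegree ≤ D) :
    g.eval 0 = ∑ i ∈ Icc 1 (D + 1), (-1) ^ (i + 1) * ((D + 1).choose i : ℚ) * g.eval (i : ℚ) := by
  have h := findiff g (D + 1) (by omega)
  rw [Finset.range_eq_Ico, Finset.sum_eq_sum_Ico_succ_bot (by omega)] at h
  have hIcc : Ico (0 + 1) (D + 1 + 1) = Icc 1 (D + 1) := by
    ext j; simp only [mem_Ico, mem_Icc]; omega
  rw [hIcc] at h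
  simp only [Nat.sub_zero, Nat.choose_zero_right, Nat.cast_one, mul_one, Nat.cast_zero] at h
  have hne : (-1 : ℚ) ^ (D + 1) ≠ 0 := by simp
  apply mul_left_cancel₀ hne
  rw [Finset.mul_sum]
  have e1 : ∀ i ∈ Icc 1 (D + 1), (-1 : ℚ) ^ (D + 1) *
      ((-1) ^ (i + 1) * ((D + 1).choose i : ℚ) * g.eval (i : ℚ))
      = - ((-1) ^ (D + 1 - i) * ((D + 1).choose i : ℚ) * g.eval (i : ℚ)) := by
    intro i hi
    have hi' := Finset.mem_Icc.mp hi
    have e2 : (-1 : ℚ) ^ (D + 1) = (-1) ^ (D + 1 - i) * (-1) ^ i := by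
      rw [← pow_add]; congr 1; omega
    have e3 : (-1 : ℚ) ^ i * (-1) ^ i = 1 := by rw [← mul_pow]; norm_num
    rw [e2, pow_succ (-1 : ℚ) i]
    linear_combination (-((-1 : ℚ) ^ (D + 1 - i) * ((D + 1).choose i : ℚ) * g.eval (i : ℚ))) * e3
  rw [Finset.sum_congr rfl e1, Finset.sum_neg_distrib]
  linarith

end Pool.Agent.Uni
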