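import Pool.Agent.H527R2.UniJ

/-!
# The core theorem
-/

namespace Pool.Agent.Uni

open Finset Polynomial

variable {α : Type*} [DecidableEq α]

def hubsK (hub : ℕ → α) (k : ℕ) : List α := (List.range k).map hub

/-- the unicyclic counts of the graphs with parameter `i` and `k` hubs -/
noncomputable def Pk (Xl Yl : List α) (mem : α → Finset α) (sg : α → Bool) (hub : ℕ → α)
    (i k : ℕ) : ℚ :=
  pp ((Xl ++ Yl).toFinset ∪ (hubsK hub k).toFinset)
    (expand (edgesK (Xl ++ Yl) (rhoN Xl i) (LN Xl Yl mem sg i) (hubsK hub k))) id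

noncomputable def Pplus (Xl Yl : List α) (mem : α → Finset α) (sg : α → Bool) (hub : ℕ → α)
    (z : α) (i : ℕ) : ℚ :=
  pp (insert z ((Xl ++ Yl).toFinset ∪ (hubsK hub 1).toFinset))
    ((hub 0, z) :: (hub 0, z) ::
      expand (edgesK (Xl ++ Yl) (rhoN Xl i) (LN Xl Yl mem sg i) (hubsK hub 1))) id

theorem core (Xl Yl : List α) (hnd : (Xl ++ Yl).Nodup) (hX : Xl ≠ []) (mem : α → Finset α)
    (sg : α → Bool) (hmem : ∀ y ∈ Yl, (mem y).card = 3 ∧ ∀ x ∈ mem y, x ∈ Xl)
    (hub : ℕ → α) (hinj : Function.Injective hub) (hhub : ∀ k, hub k ∉ (Xl ++ Yl).toFinset)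
    (z : α) (hz : z ∉ (Xl ++ Yl).toFinset) (hz0 : z ≠ hub 0) :
    (-2) ^ Yl.length * coverSum Xl Yl.toFinset mem (fun y => if sg y then -1 else 1)
      = ∑ i ∈ Icc 1 (2 * (Xl ++ Yl).length + 2 * (Xl.length * Yl.length) + 1),
        (-1) ^ (i + 1) * ((2 * (Xl ++ Yl).length + 2 * (Xl.length * Yl.length) + 1).choose i : ℚ) *
        (thetaF (Xl ++ Yl).length ((Xl.length : ℚ) + Yl.length * ((i : ℚ) - 1))
          (Pk Xl Yl mem sg hub i) (Pplus Xl Yl mem sg hub z i) / (i : ℚ) ^ Xl.length) := by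
  obtain ⟨g, hg1, hg2⟩ := ThP_low Xl Yl hnd mem sg hmem
  rw [← hg2]
  set D := 2 * (Xl ++ Yl).length + 2 * (Xl.length * Yl.length) with hD
  have hgdeg : g.natDegree ≤ D := by
    by_cases h0 : g = 0
    · rw [h0]; simp
    · have h1 := ThP_natDegree Xl Yl mem sg
      rw [hg1, natDegree_X_pow_mul Xl.length h0] at h1
      omega
  rw [extrapolate g D hgdeg]
  apply Finset.sum_congr rfl
  intro i hi
  obtain ⟨hi1, _⟩ := Finset.mem_Icc.mp hi
  congr 1
  have hi0 : (i : ℚ) ≠ 0 := by positivity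
  have hipow : (i : ℚ) ^ Xl.length ≠ 0 := pow_ne_zero _ hi0
  rw [eq_div_iff hipow]
  have he1 : g.eval (i : ℚ) * (i : ℚ) ^ Xl.length = (ThP Xl Yl mem sg).eval (i : ℚ) := by
    rw [hg1, eval_mul, eval_pow, eval_X]; ring
  rw [he1, ThP_eval Xl Yl mem sg hi1]
  set W := (Xl ++ Yl).toFinset with hW
  set ρ : α → ℚ := fun v => (rhoN Xl i v : ℚ) with hρ
  set E := Epol W (Xl ++ Yl) ρ (castL (LN Xl Yl mem sg i)) id with hE
  have hWcard : W.card = (Xl ++ Yl).length := List.toFinset_card_of_nodup hnd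
  have hWne : W.Nonempty := by
    obtain ⟨x, hx⟩ := List.exists_mem_of_ne_nil Xl hX
    exact ⟨x, by simp [hW, hx]⟩
  have hT : 1 ≤ (Xl ++ Yl).length := by rw [← hWcard]; exact hWne.card_pos
  obtain ⟨_, _, hdis⟩ := List.nodup_append.mp hnd
  -- total weight
  have hn : (Xl.length : ℚ) + Yl.length * ((i : ℚ) - 1) = ((Xl ++ Yl).map ρ).sum := by
    rw [List.map_append, List.sum_append]
    congr 1
    · have : Xl.map ρ = Xl.map (fun _ => (1 : ℚ)) := by
        apply List.map_congr_left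
        intro x hx; simp [hρ, rhoN, hx]
      rw [this]; simp
    · have : Yl.map ρ = Yl.map (fun _ => (i : ℚ) - 1) := by
        apply List.map_congr_left
        intro y hy
        have : y ∉ Xl := fun h => hdis y h y hy rfl
        simp only [hρ, rhoN, this, if_false]
        exact natCast_pred hi1
      rw [this]; simp
  set n : ℚ := (Xl.length : ℚ) + Yl.length * ((i : ℚ) - 1) with hndef
  have hXpos : (0 : ℚ) < Xl.length := by
    have : 0 < Xl.length := List.length_pos_iff.mpr hX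
    exact_mod_cast this
  have hn0 : n ≠ 0 := by
    have h1 : (0 : ℚ) ≤ (Yl.length : ℚ) * ((i : ℚ) - 1) := by
      apply mul_nonneg (by positivity)
      have : (1 : ℚ) ≤ i := by exact_mod_cast hi1
      linarith
    have : 0 < n := by rw [hndef]; linarith
    exact this.ne'
  have hRW : ∀ w ∈ Xl ++ Yl, w ∈ W := fun w hw => by simpa [hW] using hw
  have hLW : ∀ e ∈ LN Xl Yl mem sg i, e.1 ∈ W ∧ e.2.1 ∈ W := by
    intro e he
    obtain ⟨x, hx, he'⟩ := List.mem_flatMap.mp he
    obtain ⟨y, hy, rfl⟩ := List.mem_map.mp he'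
    exact ⟨by simp [hW, hy], by simp [hW, hx]⟩
  obtain ⟨A, hA⟩ := graph_formula W hWne (Xl ++ Yl) (rhoN Xl i) hRW n hn0 hn
    (LN Xl Yl mem sg i) hLW (Xl ++ Yl).length
  -- hub lists
  have hhlen : ∀ k, (hubsK hub k).length = k := fun k => by simp [hubsK]
  have hhnd : ∀ k, (hubsK hub k).Nodup := fun k => by
    unfold hubsK; exact (List.nodup_range).map hinj
  have hhW : ∀ k, ∀ h ∈ hubsK hub k, h ∉ W := by
    intro k h hh
    obtain ⟨j, _, rfl⟩ := List.mem_map.mp hh
    exact hhub j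
  rw [eval_eq_sum_range' (n := (Xl ++ Yl).length + 1) (by
    have := Epol_natDegree W (Xl ++ Yl) ρ (castL (LN Xl Yl mem sg i)) id
    rw [hWcard] at this; exact Nat.lt_succ_of_le this)]
  have hfin := theta_eq (Xl ++ Yl).length hT n hn0 (fun j => E.coeff j) A
    (Pk Xl Yl mem sg hub i)
    (fun k => tt (W ∪ (hubsK hub k).toFinset)
      (expand (edgesK (Xl ++ Yl) (rhoN Xl i) (LN Xl Yl mem sg i) (hubsK hub k))) id)
    (Pplus Xl Yl mem sg hub z i)
    (Epol_coeff_one W (Xl ++ Yl) ρ hRW n hn _ id)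
    (fun k hk1 hk2 => by
      have := (hA (hubsK hub k) (hhnd k) (hhW k) (by rw [hhlen]; exact hk1)
        (by rw [hhlen]; exact hk2)).1
      rw [hhlen, hWcard] at this
      exact this)
    (fun k hk1 hk2 => by
      have := (hA (hubsK hub k) (hhnd k) (hhW k) (by rw [hhlen]; exact hk1)
        (by rw [hhlen]; exact hk2)).2
      rw [hhlen, hWcard] at this
      exact this)
    (by
      have hh0 : hub 0 ∈ W ∪ (hubsK hub 1).toFinset := by
        apply Finset.mem_union_right; simp [hubsK]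
      have hz1 : z ∉ W ∪ (hubsK hub 1).toFinset := by
        rw [Finset.mem_union]
        rintro (h | h)
        · exact hz h
        · simp [hubsK] at h; exact hz0 h
      have := pendant_formula hh0 hz1
        (expand (edgesK (Xl ++ Yl) (rhoN Xl i) (LN Xl Yl mem sg i) (hubsK hub 1)))
        (mem_expand (mem_edgesK hRW hLW))
      exact this)
  rw [← hfin]
  apply Finset.sum_congr rfl
  intro j _
  ring

end Pool.Agent.Uni
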