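import Pool.Agent.H527R2.UniH

/-!
# Systems of two-literal constraints as exact cover by triples
-/

namespace Pool.Agent.Uni

open Finset

/-- names of the vertices -/
inductive Nm
  | A (j p : ℕ) | B (j p : ℕ) | U (j p : ℕ) | E (p : ℕ) | H (p : ℕ) | G (p : ℕ)
  | Yp (j p : ℕ) | Ym (j p : ℕ) | Z0 (p : ℕ) | Z1 (p : ℕ) | Z2 (p : ℕ)
  | hub (k : ℕ) | ext
  deriving DecidableEq

/-- cyclic successor -/
def nx (M p : ℕ) : ℕ := if p + 1 = M then 0 else p + 1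

theorem nx_lt {M p : ℕ} (h : p < M) : nx M p < M := by
  unfold nx; split_ifs <;> omega

theorem nx_inj {M p q : ℕ} (h : nx M p = nx M q) : p = q := by
  unfold nx at h; split_ifs at h <;> omega

theorem nx_surj {M p : ℕ} (hp : p < M) : ∃ q, q < M ∧ nx M q = p := by
  rcases Nat.eq_zero_or_pos p with rfl | h
  · exact ⟨M - 1, by omega, by unfold nx; rw [if_pos (by omega)]⟩
  · exact ⟨p - 1, by omega, by unfold nx; rw [if_neg (by omega)]; omega⟩

/-- A system of constraints (not both literals): rows `rs`, `M` columns, the two literals of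
every column, and the sign of every row. -/
structure Sys where
  rs : List ℕ
  M : ℕ
  l1 : ℕ → Bool × ℕ
  l2 : ℕ → Bool × ℕ
  s : ℕ → Bool

structure Sys.OK (Φ : Sys) : Prop where
  nd : Φ.rs.Nodup
  pos : 1 ≤ Φ.M
  m1 : ∀ p < Φ.M, (Φ.l1 p).2 ∈ Φ.rs
  m2 : ∀ p < Φ.M, (Φ.l2 p).2 ∈ Φ.rs
  ne : ∀ p < Φ.M, (Φ.l1 p).2 ≠ (Φ.l2 p).2

namespace Sys

variable (Φ : Sys)

def tip (b : Bool) (j p : ℕ) : Nm := if (b, j) = Φ.l1 p ∨ (b, j) = Φ.l2 p then Nm.E p else Nm.U j p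

def mem : Nm → Finset Nm
  | .Yp j p => {Nm.A j p, Nm.B j p, Φ.tip true j p}
  | .Ym j p => {Nm.A j p, Nm.B j (nx Φ.M p), Φ.tip false j p}
  | .Z0 p => {Nm.E p, Nm.H p, Nm.G p}
  | .Z1 p => {Nm.U (Φ.l1 p).2 p, Nm.H p, Nm.G p}
  | .Z2 p => {Nm.U (Φ.l2 p).2 p, Nm.H p, Nm.G p}
  | _ => ∅

def sgn : Nm → Bool
  | .Yp j p => if p = 0 then Φ.s j else false
  | _ => false

def Xl : List Nm :=
  (Φ.rs.flatMap fun j => (List.range Φ.M).flatMap fun p => [Nm.A j p, Nm.B j p, Nm.U j p]) ++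
    (List.range Φ.M).flatMap fun p => [Nm.E p, Nm.H p, Nm.G p]

def Yl : List Nm :=
  (Φ.rs.flatMap fun j => (List.range Φ.M).flatMap fun p => [Nm.Yp j p, Nm.Ym j p]) ++
    (List.range Φ.M).flatMap fun p => [Nm.Z0 p, Nm.Z1 p, Nm.Z2 p]

theorem mem_Xl (x : Nm) : x ∈ Φ.Xl ↔
    (∃ j ∈ Φ.rs, ∃ p < Φ.M, x = .A j p ∨ x = .B j p ∨ x = .U j p) ∨
    ∃ p < Φ.M, x = .E p ∨ x = .H p ∨ x = .G p := by
  simp [Xl]

theorem mem_Yl (x : Nm) : x ∈ Φ.Yl ↔
    (∃ j ∈ Φ.rs, ∃ p < Φ.M, x = .Yp j p ∨ x = .Ym j p) ∨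
    ∃ p < Φ.M, x = .Z0 p ∨ x = .Z1 p ∨ x = .Z2 p := by
  simp [Yl]

theorem tip_true_eq (b : Bool) (j p : ℕ) (h : (b, j) = Φ.l1 p ∨ (b, j) = Φ.l2 p) :
    Φ.tip b j p = .E p := if_pos h

theorem tip_false_eq (b : Bool) (j p : ℕ) (h : ¬ ((b, j) = Φ.l1 p ∨ (b, j) = Φ.l2 p)) :
    Φ.tip b j p = .U j p := if_neg h

theorem A_mem (j p : ℕ) (y : Nm) : Nm.A j p ∈ Φ.mem y ↔ y = .Yp j p ∨ y = .Ym j p := by
  cases y <;> simp only [mem, mem_insert, mem_singleton, tip, notMem_empty, reduceCtorEq,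
    Nm.A.injEq, Nm.Yp.injEq, Nm.Ym.injEq, or_false, false_or] <;>
    (try split_ifs) <;> simp [eq_comm]

theorem B_mem (j p : ℕ) (y : Nm) : Nm.B j p ∈ Φ.mem y ↔
    y = .Yp j p ∨ ∃ q, y = .Ym j q ∧ nx Φ.M q = p := by
  cases y with
  | Yp j' p' =>
    simp only [mem, mem_insert, mem_singleton, tip]
    split_ifs <;> simp [eq_comm]
  | Ym j' p' =>
    simp only [mem, mem_insert, mem_singleton, tip]
    split_ifs <;> simp <;> grind
  | _ => simp [mem]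

theorem U_mem (j p : ℕ) (y : Nm) : Nm.U j p ∈ Φ.mem y ↔
    (y = .Yp j p ∧ ¬ ((true, j) = Φ.l1 p ∨ (true, j) = Φ.l2 p)) ∨
    (y = .Ym j p ∧ ¬ ((false, j) = Φ.l1 p ∨ (false, j) = Φ.l2 p)) ∨
    (y = .Z1 p ∧ (Φ.l1 p).2 = j) ∨ (y = .Z2 p ∧ (Φ.l2 p).2 = j) := by
  cases y with
  | Yp j' p' =>
    simp only [mem, mem_insert, mem_singleton, tip]
    split_ifs with h
    · simp; grind
    · simp; grind
  | Ym j' p' =>
    simp only [mem, mem_insert, mem_singleton, tip]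
    split_ifs with h
    · simp; grind
    · simp; grind
  | Z1 p' => simp [mem]; grind
  | Z2 p' => simp [mem]; grind
  | _ => simp [mem]

theorem E_mem (p : ℕ) (y : Nm) : Nm.E p ∈ Φ.mem y ↔
    (∃ j, y = .Yp j p ∧ ((true, j) = Φ.l1 p ∨ (true, j) = Φ.l2 p)) ∨
    (∃ j, y = .Ym j p ∧ ((false, j) = Φ.l1 p ∨ (false, j) = Φ.l2 p)) ∨ y = .Z0 p := by
  cases y with
  | Yp j' p' =>
    simp only [mem, mem_insert, mem_singleton, tip]
    split_ifs with h
    · simp; grind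
    · simp; grind
  | Ym j' p' =>
    simp only [mem, mem_insert, mem_singleton, tip]
    split_ifs with h
    · simp; grind
    · simp; grind
  | Z0 p' => simp [mem, eq_comm]
  | _ => simp [mem]

theorem H_mem (p : ℕ) (y : Nm) : Nm.H p ∈ Φ.mem y ↔ y = .Z0 p ∨ y = .Z1 p ∨ y = .Z2 p := by
  cases y with
  | Yp j' p' => simp only [mem, mem_insert, mem_singleton, tip]; split_ifs <;> simp
  | Ym j' p' => simp only [mem, mem_insert, mem_singleton, tip]; split_ifs <;> simp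
  | _ => simp [mem, eq_comm]

theorem G_mem (p : ℕ) (y : Nm) : Nm.G p ∈ Φ.mem y ↔ y = .Z0 p ∨ y = .Z1 p ∨ y = .Z2 p := by
  cases y with
  | Yp j' p' => simp only [mem, mem_insert, mem_singleton, tip]; split_ifs <;> simp
  | Ym j' p' => simp only [mem, mem_insert, mem_singleton, tip]; split_ifs <;> simp
  | _ => simp [mem, eq_comm]

/-- value of the literal `l` under the assignment (exactly the rows in `T` are true) -/
def lit (T : Finset ℕ) (l : Bool × ℕ) : Prop := l.1 = decide (l.2 ∈ T)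

/-- membership of triples in the cover of `T` -/
def inS (T : Finset ℕ) : Nm → Prop
  | .Yp j _ => j ∈ T
  | .Ym j _ => j ∉ T
  | .Z0 p => ¬ lit T (Φ.l1 p) ∧ ¬ lit T (Φ.l2 p)
  | .Z1 p => lit T (Φ.l1 p)
  | .Z2 p => lit T (Φ.l2 p)
  | _ => False

/-- all constraints hold -/
def Sat (T : Finset ℕ) : Prop := ∀ p < Φ.M, ¬ (lit T (Φ.l1 p) ∧ lit T (Φ.l2 p))

open Classical in
/-- the cover of an assignment -/
noncomputable def cov (T : Finset ℕ) : Finset Nm := Φ.Yl.toFinset.filter (Φ.inS T)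

theorem mem_cov (T : Finset ℕ) (y : Nm) : y ∈ Φ.cov T ↔ y ∈ Φ.Yl ∧ Φ.inS T y := by
  classical
  simp [cov]

variable {Φ}

theorem Yp_mem {j p : ℕ} (hj : j ∈ Φ.rs) (hp : p < Φ.M) : Nm.Yp j p ∈ Φ.Yl :=
  (Φ.mem_Yl _).2 (Or.inl ⟨j, hj, p, hp, Or.inl rfl⟩)
theorem Ym_mem {j p : ℕ} (hj : j ∈ Φ.rs) (hp : p < Φ.M) : Nm.Ym j p ∈ Φ.Yl :=
  (Φ.mem_Yl _).2 (Or.inl ⟨j, hj, p, hp, Or.inr rfl⟩)
theorem Z0_mem {p : ℕ} (hp : p < Φ.M) : Nm.Z0 p ∈ Φ.Yl :=
  (Φ.mem_Yl _).2 (Or.inr ⟨p, hp, Or.inl rfl⟩)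
theorem Z1_mem {p : ℕ} (hp : p < Φ.M) : Nm.Z1 p ∈ Φ.Yl :=
  (Φ.mem_Yl _).2 (Or.inr ⟨p, hp, Or.inr (Or.inl rfl)⟩)
theorem Z2_mem {p : ℕ} (hp : p < Φ.M) : Nm.Z2 p ∈ Φ.Yl :=
  (Φ.mem_Yl _).2 (Or.inr ⟨p, hp, Or.inr (Or.inr rfl)⟩)

theorem Yp_of {j p : ℕ} (h : Nm.Yp j p ∈ Φ.Yl) : j ∈ Φ.rs ∧ p < Φ.M := by
  rcases (Φ.mem_Yl _).1 h with ⟨j', hj, p', hp, h | h⟩ | ⟨p', hp, h | h | h⟩ <;> simp at h
  obtain ⟨rfl, rfl⟩ := h; exact ⟨hj, hp⟩

theorem Ym_of {j p : ℕ} (h : Nm.Ym j p ∈ Φ.Yl) : j ∈ Φ.rs ∧ p < Φ.M := by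
  rcases (Φ.mem_Yl _).1 h with ⟨j', hj, p', hp, h | h⟩ | ⟨p', hp, h | h | h⟩ <;> simp at h
  obtain ⟨rfl, rfl⟩ := h; exact ⟨hj, hp⟩

theorem lit_true (T : Finset ℕ) (j : ℕ) : lit T (true, j) ↔ j ∈ T := by simp [lit]
theorem lit_false (T : Finset ℕ) (j : ℕ) : lit T (false, j) ↔ j ∉ T := by simp [lit]

theorem cover_of_sat (hΦ : Φ.OK) {T : Finset ℕ} (hT : Φ.Sat T) : ExCov Φ.Xl Φ.mem (Φ.cov T) := by
  intro x hx
  rcases (Φ.mem_Xl _).1 hx with ⟨j, hj, p, hp, rfl | rfl | rfl⟩ | ⟨p, hp, rfl | rfl | rfl⟩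
  · -- A j p
    by_cases h : j ∈ T
    · refine ⟨.Yp j p, ⟨(mem_cov _ _ _).2 ⟨Yp_mem hj hp, h⟩, (A_mem _ _ _ _).2 (Or.inl rfl)⟩, ?_⟩
      rintro y ⟨hy, hm⟩
      rcases (A_mem _ _ _ _).1 hm with rfl | rfl
      · rfl
      · exact absurd h ((mem_cov _ _ _).1 hy).2
    · refine ⟨.Ym j p, ⟨(mem_cov _ _ _).2 ⟨Ym_mem hj hp, h⟩, (A_mem _ _ _ _).2 (Or.inr rfl)⟩, ?_⟩
      rintro y ⟨hy, hm⟩
      rcases (A_mem _ _ _ _).1 hm with rfl | rfl
      · exact absurd ((mem_cov _ _ _).1 hy).2 h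
      · rfl
  · -- B j p
    by_cases h : j ∈ T
    · refine ⟨.Yp j p, ⟨(mem_cov _ _ _).2 ⟨Yp_mem hj hp, h⟩, (B_mem _ _ _ _).2 (Or.inl rfl)⟩, ?_⟩
      rintro y ⟨hy, hm⟩
      rcases (B_mem _ _ _ _).1 hm with rfl | ⟨q, rfl, _⟩
      · rfl
      · exact absurd h ((mem_cov _ _ _).1 hy).2
    · obtain ⟨q, hq, hqp⟩ := nx_surj hp
      refine ⟨.Ym j q, ⟨(mem_cov _ _ _).2 ⟨Ym_mem hj hq, h⟩,
        (B_mem _ _ _ _).2 (Or.inr ⟨q, rfl, hqp⟩)⟩, ?_⟩
      rintro y ⟨hy, hm⟩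
      rcases (B_mem _ _ _ _).1 hm with rfl | ⟨q', rfl, hq'⟩
      · exact absurd ((mem_cov _ _ _).1 hy).2 h
      · rw [nx_inj (hq'.trans hqp.symm)]
  · -- U j p
    have key : ∃! y, y ∈ Φ.cov T ∧ Nm.U j p ∈ Φ.mem y := by
      by_cases h1 : (Φ.l1 p).2 = j ∧ lit T (Φ.l1 p)
      · obtain ⟨h1a, h1b⟩ := h1
        refine ⟨.Z1 p, ⟨(mem_cov _ _ _).2 ⟨Z1_mem hp, h1b⟩,
          (U_mem _ _ _ _).2 (Or.inr (Or.inr (Or.inl ⟨rfl, h1a⟩)))⟩, ?_⟩
        rintro y ⟨hy, hm⟩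
        rcases (U_mem _ _ _ _).1 hm with ⟨rfl, h2⟩ | ⟨rfl, h2⟩ | ⟨rfl, h2⟩ | ⟨rfl, h2⟩
        · exfalso; apply h2; left
          have : j ∈ T := ((mem_cov _ _ _).1 hy).2
          unfold lit at h1b
          rw [h1a] at h1b
          ext
          · simp [h1b, this]
          · exact h1a.symm
        · exfalso; apply h2; left
          have : j ∉ T := ((mem_cov _ _ _).1 hy).2
          unfold lit at h1b
          rw [h1a] at h1b
          ext
          · simp [h1b, this]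
          · exact h1a.symm
        · rfl
        · exact absurd (h1a.trans h2.symm) (hΦ.ne p hp)
      · by_cases h1' : (Φ.l2 p).2 = j ∧ lit T (Φ.l2 p)
        · obtain ⟨h1a, h1b⟩ := h1'
          refine ⟨.Z2 p, ⟨(mem_cov _ _ _).2 ⟨Z2_mem hp, h1b⟩,
            (U_mem _ _ _ _).2 (Or.inr (Or.inr (Or.inr ⟨rfl, h1a⟩)))⟩, ?_⟩
          rintro y ⟨hy, hm⟩
          rcases (U_mem _ _ _ _).1 hm with ⟨rfl, h2⟩ | ⟨rfl, h2⟩ | ⟨rfl, h2⟩ | ⟨rfl, h2⟩
          · exfalso; apply h2; right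
            have : j ∈ T := ((mem_cov _ _ _).1 hy).2
            unfold lit at h1b
            rw [h1a] at h1b
            ext
            · simp [h1b, this]
            · exact h1a.symm
          · exfalso; apply h2; right
            have : j ∉ T := ((mem_cov _ _ _).1 hy).2
            unfold lit at h1b
            rw [h1a] at h1b
            ext
            · simp [h1b, this]
            · exact h1a.symm
          · exact absurd (h2.trans h1a.symm) (hΦ.ne p hp)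
          · rfl
        · -- not a true literal of the column: its own tip covers it
          have hno : ∀ b, lit T (b, j) → ¬ ((b, j) = Φ.l1 p ∨ (b, j) = Φ.l2 p) := by
            rintro b hb (e | e)
            · exact h1 ⟨by rw [← e], e ▸ hb⟩
            · exact h1' ⟨by rw [← e], e ▸ hb⟩
          by_cases h : j ∈ T
          · refine ⟨.Yp j p, ⟨(mem_cov _ _ _).2 ⟨Yp_mem hj hp, h⟩,
              (U_mem _ _ _ _).2 (Or.inl ⟨rfl, hno true ((lit_true T j).2 h)⟩)⟩, ?_⟩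
            rintro y ⟨hy, hm⟩
            rcases (U_mem _ _ _ _).1 hm with ⟨rfl, h2⟩ | ⟨rfl, h2⟩ | ⟨rfl, h2⟩ | ⟨rfl, h2⟩
            · rfl
            · exact absurd h ((mem_cov _ _ _).1 hy).2
            · exact absurd ⟨h2, ((mem_cov _ _ _).1 hy).2⟩ h1
            · exact absurd ⟨h2, ((mem_cov _ _ _).1 hy).2⟩ h1'
          · refine ⟨.Ym j p, ⟨(mem_cov _ _ _).2 ⟨Ym_mem hj hp, h⟩,
              (U_mem _ _ _ _).2 (Or.inr (Or.inl ⟨rfl, hno false ((lit_false T j).2 h)⟩))⟩, ?_⟩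
            rintro y ⟨hy, hm⟩
            rcases (U_mem _ _ _ _).1 hm with ⟨rfl, h2⟩ | ⟨rfl, h2⟩ | ⟨rfl, h2⟩ | ⟨rfl, h2⟩
            · exact absurd ((mem_cov _ _ _).1 hy).2 h
            · rfl
            · exact absurd ⟨h2, ((mem_cov _ _ _).1 hy).2⟩ h1
            · exact absurd ⟨h2, ((mem_cov _ _ _).1 hy).2⟩ h1'
    exact key
  · -- E p
    have tipmem : ∀ b j, lit T (b, j) → j ∈ Φ.rs → ((b, j) = Φ.l1 p ∨ (b, j) = Φ.l2 p) →
        ∃ y, y ∈ Φ.cov T ∧ Nm.E p ∈ Φ.mem y ∧ y = (if b then Nm.Yp j p else Nm.Ym j p) := by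
      intro b j hl hj hb
      cases b with
      | true => exact ⟨.Yp j p, (mem_cov _ _ _).2 ⟨Yp_mem hj hp, (lit_true T j).1 hl⟩,
          (E_mem _ _ _).2 (Or.inl ⟨j, rfl, hb⟩), rfl⟩
      | false => exact ⟨.Ym j p, (mem_cov _ _ _).2 ⟨Ym_mem hj hp, (lit_false T j).1 hl⟩,
          (E_mem _ _ _).2 (Or.inr (Or.inl ⟨j, rfl, hb⟩)), rfl⟩
    have back : ∀ y ∈ Φ.cov T, Nm.E p ∈ Φ.mem y → y ≠ .Z0 p →
        ∃ b j, lit T (b, j) ∧ ((b, j) = Φ.l1 p ∨ (b, j) = Φ.l2 p) ∧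
          y = (if b then Nm.Yp j p else Nm.Ym j p) := by
      intro y hy hm hne
      rcases (E_mem _ _ _).1 hm with ⟨j, rfl, h⟩ | ⟨j, rfl, h⟩ | h
      · exact ⟨true, j, (lit_true T j).2 ((mem_cov _ _ _).1 hy).2, h, rfl⟩
      · exact ⟨false, j, (lit_false T j).2 ((mem_cov _ _ _).1 hy).2, h, rfl⟩
      · exact absurd h hne
    by_cases h1 : lit T (Φ.l1 p)
    · have h2 : ¬ lit T (Φ.l2 p) := fun h2 => hT p hp ⟨h1, h2⟩
      obtain ⟨y, hy1, hy2, hy3⟩ := tipmem (Φ.l1 p).1 (Φ.l1 p).2 h1 (hΦ.m1 p hp) (Or.inl rfl)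
      refine ⟨y, ⟨hy1, hy2⟩, ?_⟩
      rintro y' ⟨hy', hm'⟩
      have hne : y' ≠ .Z0 p := by
        rintro rfl; exact ((mem_cov _ _ _).1 hy').2.1 h1
      obtain ⟨b, j, hl, hb, rfl⟩ := back y' hy' hm' hne
      rcases hb with hb | hb
      · rw [hy3, ← hb]
      · rw [hb] at hl; exact absurd hl h2
    · by_cases h2 : lit T (Φ.l2 p)
      · obtain ⟨y, hy1, hy2, hy3⟩ := tipmem (Φ.l2 p).1 (Φ.l2 p).2 h2 (hΦ.m2 p hp) (Or.inr rfl)
        refine ⟨y, ⟨hy1, hy2⟩, ?_⟩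
        rintro y' ⟨hy', hm'⟩
        have hne : y' ≠ .Z0 p := by
          rintro rfl; exact ((mem_cov _ _ _).1 hy').2.2 h2
        obtain ⟨b, j, hl, hb, rfl⟩ := back y' hy' hm' hne
        rcases hb with hb | hb
        · rw [hb] at hl; exact absurd hl h1
        · rw [hy3, ← hb]
      · refine ⟨.Z0 p, ⟨(mem_cov _ _ _).2 ⟨Z0_mem hp, h1, h2⟩,
          (E_mem _ _ _).2 (Or.inr (Or.inr rfl))⟩, ?_⟩
        rintro y' ⟨hy', hm'⟩
        by_contra hne
        obtain ⟨b, j, hl, hb, rfl⟩ := back y' hy' hm' hne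
        rcases hb with hb | hb
        · rw [hb] at hl; exact h1 hl
        · rw [hb] at hl; exact h2 hl
  all_goals
    -- H p, G p
    have key : ∃! y, y ∈ Φ.cov T ∧ (y = .Z0 p ∨ y = .Z1 p ∨ y = .Z2 p) := by
      by_cases h1 : lit T (Φ.l1 p)
      · have h2 : ¬ lit T (Φ.l2 p) := fun h2 => hT p hp ⟨h1, h2⟩
        refine ⟨.Z1 p, ⟨(mem_cov _ _ _).2 ⟨Z1_mem hp, h1⟩, by simp⟩, ?_⟩
        rintro y' ⟨hy', rfl | rfl | rfl⟩
        · exact absurd h1 ((mem_cov _ _ _).1 hy').2.1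
        · rfl
        · exact absurd ((mem_cov _ _ _).1 hy').2 h2
      · by_cases h2 : lit T (Φ.l2 p)
        · refine ⟨.Z2 p, ⟨(mem_cov _ _ _).2 ⟨Z2_mem hp, h2⟩, by simp⟩, ?_⟩
          rintro y' ⟨hy', rfl | rfl | rfl⟩
          · exact absurd h2 ((mem_cov _ _ _).1 hy').2.2
          · exact absurd ((mem_cov _ _ _).1 hy').2 h1
          · rfl
        · refine ⟨.Z0 p, ⟨(mem_cov _ _ _).2 ⟨Z0_mem hp, h1, h2⟩, by simp⟩, ?_⟩
          rintro y' ⟨hy', rfl | rfl | rfl⟩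
          · rfl
          · exact absurd ((mem_cov _ _ _).1 hy').2 h1
          · exact absurd ((mem_cov _ _ _).1 hy').2 h2
    first
      | simpa only [H_mem] using key
      | simpa only [G_mem] using key

theorem exOne {S : Finset Nm} {a b : Nm} (hab : a ≠ b) {Q : Nm → Prop}
    (hQ : ∀ y, y ∈ S → (Q y ↔ y = a ∨ y = b)) (h : ∃! y, y ∈ S ∧ Q y) : a ∈ S ↔ b ∉ S := by
  obtain ⟨y, ⟨hy, hq⟩, hu⟩ := h
  constructor
  · intro ha hb
    exact hab ((hu a ⟨ha, (hQ a ha).2 (Or.inl rfl)⟩).trans (hu b ⟨hb, (hQ b hb).2 (Or.inr rfl)⟩).symm)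
  · intro hb
    rcases (hQ y hy).1 hq with rfl | rfl
    · exact hy
    · exact absurd hy hb

theorem sat_of_cover (hΦ : Φ.OK) {S : Finset Nm} (hS : S ⊆ Φ.Yl.toFinset)
    (h : ExCov Φ.Xl Φ.mem S) {T : Finset ℕ}
    (hT : ∀ j, j ∈ T ↔ j ∈ Φ.rs ∧ Nm.Yp j 0 ∈ S) : Φ.Sat T ∧ S = Φ.cov T := by
  have hA : ∀ j ∈ Φ.rs, ∀ p < Φ.M, (Nm.Yp j p ∈ S ↔ Nm.Ym j p ∉ S) := by
    intro j hj p hp
    exact exOne (by simp) (fun y _ => A_mem _ _ _ _)
      (h (.A j p) ((mem_Xl _ _).2 (Or.inl ⟨j, hj, p, hp, Or.inl rfl⟩)))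
  have hB : ∀ j ∈ Φ.rs, ∀ p < Φ.M, (Nm.Yp j (nx Φ.M p) ∈ S ↔ Nm.Ym j p ∉ S) := by
    intro j hj p hp
    refine exOne (by simp) (fun y _ => ?_)
      (h (.B j (nx Φ.M p)) ((mem_Xl _ _).2 (Or.inl ⟨j, hj, _, nx_lt hp, Or.inr (Or.inl rfl)⟩)))
    rw [B_mem]
    constructor
    · rintro (h | ⟨q, h, hq⟩)
      · exact Or.inl h
      · rw [nx_inj hq] at h; exact Or.inr h
    · rintro (h | h)
      · exact Or.inl h
      · exact Or.inr ⟨p, h, rfl⟩
  have hC : ∀ j ∈ Φ.rs, ∀ p < Φ.M, (Nm.Yp j p ∈ S ↔ Nm.Yp j 0 ∈ S) := by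
    intro j hj p
    induction p with
    | zero => intro _; rfl
    | succ p ih =>
      intro hp
      rw [← ih (by omega), hA j hj p (by omega), ← hB j hj p (by omega)]
      have : nx Φ.M p = p + 1 := by unfold nx; rw [if_neg (by omega)]
      rw [this]
  have hYp : ∀ j ∈ Φ.rs, ∀ p < Φ.M, (Nm.Yp j p ∈ S ↔ j ∈ T) := by
    intro j hj p hp
    rw [hC j hj p hp, hT]; exact ⟨fun h => ⟨hj, h⟩, fun h => h.2⟩
  have hYm : ∀ j ∈ Φ.rs, ∀ p < Φ.M, (Nm.Ym j p ∈ S ↔ j ∉ T) := by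
    intro j hj p hp
    rw [← hYp j hj p hp, hA j hj p hp, not_not]
  have hZ1 : ∀ p < Φ.M, (Nm.Z1 p ∈ S ↔ lit T (Φ.l1 p)) := by
    intro p hp
    have hj := hΦ.m1 p hp
    have hne := hΦ.ne p hp
    have hU := h (.U (Φ.l1 p).2 p) ((mem_Xl _ _).2 (Or.inl ⟨_, hj, p, hp, Or.inr (Or.inr rfl)⟩))
    have n2 : ∀ b, (b, (Φ.l1 p).2) ≠ Φ.l2 p := fun b e => hne (by rw [← e])
    cases hb : (Φ.l1 p).1 with
    | true =>
      have e1 : Φ.l1 p = (true, (Φ.l1 p).2) := by rw [← hb]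
      have e2 : (false, (Φ.l1 p).2) ≠ Φ.l1 p := by rw [e1]; simp
      have := exOne (a := .Z1 p) (b := .Ym (Φ.l1 p).2 p) (by simp) (fun y _ => by
        rw [U_mem]
        constructor
        · rintro (⟨_, h2⟩ | ⟨h1, _⟩ | ⟨h1, _⟩ | ⟨_, h2⟩)
          · exact absurd (Or.inl e1.symm) h2
          · exact Or.inr h1
          · exact Or.inl h1
          · exact absurd h2.symm hne
        · rintro (h1 | h1)
          · exact Or.inr (Or.inr (Or.inl ⟨h1, rfl⟩))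
          · exact Or.inr (Or.inl ⟨h1, fun h => h.elim e2 (n2 false)⟩)) hU
      rw [this, hYm _ hj p hp, not_not]
      unfold lit; rw [hb]; simp
    | false =>
      have e1 : Φ.l1 p = (false, (Φ.l1 p).2) := by rw [← hb]
      have e2 : (true, (Φ.l1 p).2) ≠ Φ.l1 p := by rw [e1]; simp
      have := exOne (a := .Z1 p) (b := .Yp (Φ.l1 p).2 p) (by simp) (fun y _ => by
        rw [U_mem]
        constructor
        · rintro (⟨h1, _⟩ | ⟨_, h2⟩ | ⟨h1, _⟩ | ⟨_, h2⟩)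
          · exact Or.inr h1
          · exact absurd (Or.inl e1.symm) h2
          · exact Or.inl h1
          · exact absurd h2.symm hne
        · rintro (h1 | h1)
          · exact Or.inr (Or.inr (Or.inl ⟨h1, rfl⟩))
          · exact Or.inl ⟨h1, fun h => h.elim e2 (n2 true)⟩) hU
      rw [this, hYp _ hj p hp]
      unfold lit; rw [hb]; simp
  have hZ2 : ∀ p < Φ.M, (Nm.Z2 p ∈ S ↔ lit T (Φ.l2 p)) := by
    intro p hp
    have hj := hΦ.m2 p hp
    have hne := (hΦ.ne p hp).symm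
    have hU := h (.U (Φ.l2 p).2 p) ((mem_Xl _ _).2 (Or.inl ⟨_, hj, p, hp, Or.inr (Or.inr rfl)⟩))
    have n2 : ∀ b, (b, (Φ.l2 p).2) ≠ Φ.l1 p := fun b e => hne (by rw [← e])
    cases hb : (Φ.l2 p).1 with
    | true =>
      have e1 : Φ.l2 p = (true, (Φ.l2 p).2) := by rw [← hb]
      have e2 : (false, (Φ.l2 p).2) ≠ Φ.l2 p := by rw [e1]; simp
      have := exOne (a := .Z2 p) (b := .Ym (Φ.l2 p).2 p) (by simp) (fun y _ => by
        rw [U_mem]
        constructor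
        · rintro (⟨_, h2⟩ | ⟨h1, _⟩ | ⟨_, h2⟩ | ⟨h1, _⟩)
          · exact absurd (Or.inr e1.symm) h2
          · exact Or.inr h1
          · exact absurd h2.symm hne
          · exact Or.inl h1
        · rintro (h1 | h1)
          · exact Or.inr (Or.inr (Or.inr ⟨h1, rfl⟩))
          · exact Or.inr (Or.inl ⟨h1, fun h => h.elim (n2 false) e2⟩)) hU
      rw [this, hYm _ hj p hp, not_not]
      unfold lit; rw [hb]; simp
    | false =>
      have e1 : Φ.l2 p = (false, (Φ.l2 p).2) := by rw [← hb]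
      have e2 : (true, (Φ.l2 p).2) ≠ Φ.l2 p := by rw [e1]; simp
      have := exOne (a := .Z2 p) (b := .Yp (Φ.l2 p).2 p) (by simp) (fun y _ => by
        rw [U_mem]
        constructor
        · rintro (⟨h1, _⟩ | ⟨_, h2⟩ | ⟨_, h2⟩ | ⟨h1, _⟩)
          · exact Or.inr h1
          · exact absurd (Or.inr e1.symm) h2
          · exact absurd h2.symm hne
          · exact Or.inl h1
        · rintro (h1 | h1)
          · exact Or.inr (Or.inr (Or.inr ⟨h1, rfl⟩))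
          · exact Or.inl ⟨h1, fun h => h.elim (n2 true) e2⟩) hU
      rw [this, hYp _ hj p hp]
      unfold lit; rw [hb]; simp
  have hH : ∀ p < Φ.M, ∃! y, y ∈ S ∧ (y = .Z0 p ∨ y = .Z1 p ∨ y = .Z2 p) := by
    intro p hp
    have := h (.H p) ((mem_Xl _ _).2 (Or.inr ⟨p, hp, Or.inr (Or.inl rfl)⟩))
    simpa only [H_mem] using this
  have hsat : Φ.Sat T := by
    rintro p hp ⟨h1, h2⟩
    obtain ⟨y, _, hu⟩ := hH p hp
    have a1 := hu _ ⟨(hZ1 p hp).2 h1, by simp⟩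
    have a2 := hu _ ⟨(hZ2 p hp).2 h2, by simp⟩
    have := a1.trans a2.symm
    simp at this
  have hZ0 : ∀ p < Φ.M, (Nm.Z0 p ∈ S ↔ ¬ lit T (Φ.l1 p) ∧ ¬ lit T (Φ.l2 p)) := by
    intro p hp
    obtain ⟨y, ⟨hy, hy'⟩, hu⟩ := hH p hp
    constructor
    · intro h0
      have a0 := hu _ ⟨h0, by simp⟩
      refine ⟨fun h1 => ?_, fun h2 => ?_⟩
      · have := a0.trans (hu _ ⟨(hZ1 p hp).2 h1, by simp⟩).symm
        simp at this
      · have := a0.trans (hu _ ⟨(hZ2 p hp).2 h2, by simp⟩).symm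
        simp at this
    · rintro ⟨h1, h2⟩
      rcases hy' with rfl | rfl | rfl
      · exact hy
      · exact absurd ((hZ1 p hp).1 hy) h1
      · exact absurd ((hZ2 p hp).1 hy) h2
  refine ⟨hsat, ?_⟩
  ext y
  rw [mem_cov]
  constructor
  · intro hy
    have hyY : y ∈ Φ.Yl := by simpa using hS hy
    refine ⟨hyY, ?_⟩
    rcases (mem_Yl _ _).1 hyY with ⟨j, hj, p, hp, rfl | rfl⟩ | ⟨p, hp, rfl | rfl | rfl⟩
    · exact (hYp j hj p hp).1 hy
    · exact (hYm j hj p hp).1 hy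
    · exact (hZ0 p hp).1 hy
    · exact (hZ1 p hp).1 hy
    · exact (hZ2 p hp).1 hy
  · rintro ⟨hyY, hy⟩
    rcases (mem_Yl _ _).1 hyY with ⟨j, hj, p, hp, rfl | rfl⟩ | ⟨p, hp, rfl | rfl | rfl⟩
    · exact (hYp j hj p hp).2 hy
    · exact (hYm j hj p hp).2 hy
    · exact (hZ0 p hp).2 hy
    · exact (hZ1 p hp).2 hy
    · exact (hZ2 p hp).2 hy

open Classical in
theorem coverSum_eq (hΦ : Φ.OK) :
    coverSum Φ.Xl Φ.Yl.toFinset Φ.mem (fun y => if Φ.sgn y then -1 else 1)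
      = ∑ T ∈ Φ.rs.toFinset.powerset with Φ.Sat T, ∏ j ∈ T, (if Φ.s j then (-1 : ℚ) else 1) := by
  unfold coverSum
  have hM : 0 < Φ.M := hΦ.pos
  refine Finset.sum_nbij' (fun S => Φ.rs.toFinset.filter (fun j => Nm.Yp j 0 ∈ S))
    (fun T => Φ.cov T) ?_ ?_ ?_ ?_ ?_
  · intro S hS
    obtain ⟨h1, h2⟩ := Finset.mem_filter.mp hS
    rw [Finset.mem_filter, Finset.mem_powerset]
    exact ⟨Finset.filter_subset _ _, (sat_of_cover hΦ (Finset.mem_powerset.mp h1) h2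
      (fun j => by simp)).1⟩
  · intro T hT
    obtain ⟨h1, h2⟩ := Finset.mem_filter.mp hT
    rw [Finset.mem_filter, Finset.mem_powerset]
    exact ⟨Finset.filter_subset _ _, cover_of_sat hΦ h2⟩
  · intro S hS
    obtain ⟨h1, h2⟩ := Finset.mem_filter.mp hS
    exact (sat_of_cover hΦ (Finset.mem_powerset.mp h1) h2 (fun j => by simp)).2.symm
  · intro T hT
    obtain ⟨h1, h2⟩ := Finset.mem_filter.mp hT
    rw [Finset.mem_powerset] at h1
    ext j
    simp only [Finset.mem_filter, List.mem_toFinset, mem_cov]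
    constructor
    · rintro ⟨_, _, h⟩; exact h
    · intro h
      have hj : j ∈ Φ.rs := by simpa using h1 h
      exact ⟨hj, Yp_mem hj hM, h⟩
  · intro S hS
    obtain ⟨h1, h2⟩ := Finset.mem_filter.mp hS
    obtain ⟨_, h3⟩ := sat_of_cover hΦ (Finset.mem_powerset.mp h1) h2 (T := Φ.rs.toFinset.filter
      (fun j => Nm.Yp j 0 ∈ S)) (fun j => by simp)
    set T := Φ.rs.toFinset.filter (fun j => Nm.Yp j 0 ∈ S) with hTdef
    rw [h3]
    have hsub : T.image (fun j => Nm.Yp j 0) ⊆ Φ.cov T := by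
      intro y hy
      obtain ⟨j, hj, rfl⟩ := Finset.mem_image.mp hy
      have hj' : j ∈ Φ.rs := by
        have := (Finset.mem_filter.mp hj).1; simpa using this
      exact (mem_cov _ _ _).2 ⟨Yp_mem hj' hM, hj⟩
    rw [← Finset.prod_subset hsub]
    · rw [Finset.prod_image (by intro a _ b _ hab; simpa using hab)]
      apply Finset.prod_congr rfl
      intro j _
      simp [sgn]
    · intro y hy hny
      obtain ⟨hy1, hy2⟩ := (mem_cov _ _ _).1 hy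
      rcases (mem_Yl _ _).1 hy1 with ⟨j, hj, p, hp, rfl | rfl⟩ | ⟨p, hp, rfl | rfl | rfl⟩
      · have hp0 : p ≠ 0 := by
          rintro rfl
          exact hny (Finset.mem_image.mpr ⟨j, hy2, rfl⟩)
        simp [sgn, hp0]
      all_goals simp [sgn]

theorem mem_card (hΦ : Φ.OK) : ∀ y ∈ Φ.Yl, (Φ.mem y).card = 3 ∧ ∀ x ∈ Φ.mem y, x ∈ Φ.Xl := by
  intro y hy
  rcases (mem_Yl _ _).1 hy with ⟨j, hj, p, hp, rfl | rfl⟩ | ⟨p, hp, rfl | rfl | rfl⟩
  · simp only [mem, tip]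
    split_ifs with h
    · refine ⟨by rw [Finset.card_eq_three]; exact ⟨_, _, _, by simp, by simp, by simp, rfl⟩, ?_⟩
      intro x hx
      simp only [mem_insert, mem_singleton] at hx
      rcases hx with rfl | rfl | rfl
      · exact (mem_Xl _ _).2 (Or.inl ⟨j, hj, p, hp, by simp⟩)
      · exact (mem_Xl _ _).2 (Or.inl ⟨j, hj, p, hp, by simp⟩)
      · exact (mem_Xl _ _).2 (Or.inr ⟨p, hp, by simp⟩)
    · refine ⟨by rw [Finset.card_eq_three]; exact ⟨_, _, _, by simp, by simp, by simp, rfl⟩, ?_⟩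
      intro x hx
      simp only [mem_insert, mem_singleton] at hx
      rcases hx with rfl | rfl | rfl
      all_goals exact (mem_Xl _ _).2 (Or.inl ⟨j, hj, p, hp, by simp⟩)
  · simp only [mem, tip]
    split_ifs with h
    · refine ⟨by rw [Finset.card_eq_three]; exact ⟨_, _, _, by simp, by simp, by simp, rfl⟩, ?_⟩
      intro x hx
      simp only [mem_insert, mem_singleton] at hx
      rcases hx with rfl | rfl | rfl
      · exact (mem_Xl _ _).2 (Or.inl ⟨j, hj, p, hp, by simp⟩)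
      · exact (mem_Xl _ _).2 (Or.inl ⟨j, hj, _, nx_lt hp, by simp⟩)
      · exact (mem_Xl _ _).2 (Or.inr ⟨p, hp, by simp⟩)
    · refine ⟨by rw [Finset.card_eq_three]; exact ⟨_, _, _, by simp, by simp, by simp, rfl⟩, ?_⟩
      intro x hx
      simp only [mem_insert, mem_singleton] at hx
      rcases hx with rfl | rfl | rfl
      · exact (mem_Xl _ _).2 (Or.inl ⟨j, hj, p, hp, by simp⟩)
      · exact (mem_Xl _ _).2 (Or.inl ⟨j, hj, _, nx_lt hp, by simp⟩)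
      · exact (mem_Xl _ _).2 (Or.inl ⟨j, hj, p, hp, by simp⟩)
  · refine ⟨by simp only [mem]; rw [Finset.card_eq_three]; exact ⟨_, _, _, by simp, by simp, by simp, rfl⟩, ?_⟩
    intro x hx
    simp only [mem, mem_insert, mem_singleton] at hx
    rcases hx with rfl | rfl | rfl
    all_goals exact (mem_Xl _ _).2 (Or.inr ⟨p, hp, by simp⟩)
  · refine ⟨by simp only [mem]; rw [Finset.card_eq_three]; exact ⟨_, _, _, by simp, by simp, by simp, rfl⟩, ?_⟩
    intro x hx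
    simp only [mem, mem_insert, mem_singleton] at hx
    rcases hx with rfl | rfl | rfl
    · exact (mem_Xl _ _).2 (Or.inl ⟨_, hΦ.m1 p hp, p, hp, by simp⟩)
    all_goals exact (mem_Xl _ _).2 (Or.inr ⟨p, hp, by simp⟩)
  · refine ⟨by simp only [mem]; rw [Finset.card_eq_three]; exact ⟨_, _, _, by simp, by simp, by simp, rfl⟩, ?_⟩
    intro x hx
    simp only [mem, mem_insert, mem_singleton] at hx
    rcases hx with rfl | rfl | rfl
    · exact (mem_Xl _ _).2 (Or.inl ⟨_, hΦ.m2 p hp, p, hp, by simp⟩)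
    all_goals exact (mem_Xl _ _).2 (Or.inr ⟨p, hp, by simp⟩)

theorem nodup_block {β : Type*} (L : List ℕ) (hL : L.Nodup) (f : ℕ → List β)
    (h1 : ∀ a, (f a).Nodup) (h2 : ∀ a b, a ≠ b → ∀ x ∈ f a, x ∉ f b) : (L.flatMap f).Nodup := by
  rw [List.nodup_flatMap]
  refine ⟨fun a _ => h1 a, ?_⟩
  exact List.Pairwise.imp (fun hab x hx hx' => h2 _ _ hab x hx hx') hL

theorem nodup_XY (hΦ : Φ.OK) : (Φ.Xl ++ Φ.Yl).Nodup := by
  have hr : (List.range Φ.M).Nodup := List.nodup_range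
  rw [List.nodup_append]
  refine ⟨?_, ?_, ?_⟩
  · unfold Xl
    rw [List.nodup_append]
    refine ⟨?_, ?_, ?_⟩
    · apply nodup_block _ hΦ.nd
      · intro j
        apply nodup_block _ hr
        · intro p; simp
        · intro p q hpq x hx; simp at hx ⊢; rcases hx with rfl | rfl | rfl <;> simp [hpq]
      · intro i j hij x hx hx'
        simp only [List.mem_flatMap, List.mem_range, List.mem_cons, List.not_mem_nil,
          or_false] at hx hx'
        obtain ⟨p, _, hx⟩ := hx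
        obtain ⟨q, _, hx'⟩ := hx'
        rcases hx with rfl | rfl | rfl <;> simp [hij] at hx'
    · apply nodup_block _ hr
      · intro p; simp
      · intro p q hpq x hx; simp at hx ⊢; rcases hx with rfl | rfl | rfl <;> simp [hpq]
    · intro a ha b hb hab
      subst hab
      simp only [List.mem_flatMap, List.mem_range, List.mem_cons, List.not_mem_nil,
          or_false] at ha hb
      obtain ⟨j, _, p, _, ha⟩ := ha
      obtain ⟨q, _, hb⟩ := hb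
      rcases ha with rfl | rfl | rfl <;> simp at hb
  · unfold Yl
    rw [List.nodup_append]
    refine ⟨?_, ?_, ?_⟩
    · apply nodup_block _ hΦ.nd
      · intro j
        apply nodup_block _ hr
        · intro p; simp
        · intro p q hpq x hx; simp at hx ⊢; rcases hx with rfl | rfl <;> simp [hpq]
      · intro i j hij x hx hx'
        simp only [List.mem_flatMap, List.mem_range, List.mem_cons, List.not_mem_nil,
          or_false] at hx hx'
        obtain ⟨p, _, hx⟩ := hx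
        obtain ⟨q, _, hx'⟩ := hx'
        rcases hx with rfl | rfl <;> simp [hij] at hx'
    · apply nodup_block _ hr
      · intro p; simp
      · intro p q hpq x hx; simp at hx ⊢; rcases hx with rfl | rfl | rfl <;> simp [hpq]
    · intro a ha b hb hab
      subst hab
      simp only [List.mem_flatMap, List.mem_range, List.mem_cons, List.not_mem_nil,
          or_false] at ha hb
      obtain ⟨j, _, p, _, ha⟩ := ha
      obtain ⟨q, _, hb⟩ := hb
      rcases ha with rfl | rfl <;> simp at hb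
  · intro a ha b hb hab
    subst hab
    rcases (mem_Xl _ _).1 ha with ⟨j, _, p, _, rfl | rfl | rfl⟩ | ⟨p, _, rfl | rfl | rfl⟩ <;>
      simp [mem_Yl] at hb

theorem Xl_length : Φ.Xl.length = 3 * (Φ.rs.length * Φ.M) + 3 * Φ.M := by
  simp [Xl, List.length_flatMap, List.map_const', List.sum_replicate]; ring

theorem Yl_length : Φ.Yl.length = 2 * (Φ.rs.length * Φ.M) + 3 * Φ.M := by
  simp [Yl, List.length_flatMap, List.map_const', List.sum_replicate]; ring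

end Sys

end Pool.Agent.Uni
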