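import Pool.Agent.H527R2.UniL
import Pool.Agent.H527R2.NM

/-!
# From CNF formulas to systems of two-literal constraints
-/

namespace Pool.Agent.Uni

open Finset
open Pool.Agent.NPC.Cnt

/-- remove duplicates -/
def dd (l : List ℕ) : List ℕ := l.foldr (fun v acc => if v ∈ acc then acc else v :: acc) []

theorem mem_dd (l : List ℕ) (v : ℕ) : v ∈ dd l ↔ v ∈ l := by
  induction l with
  | nil => simp [dd]
  | cons a l ih =>
    have : dd (a :: l) = if a ∈ dd l then dd l else a :: dd l := rfl
    rw [this]
    split_ifs with h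
    · rw [ih, List.mem_cons]
      constructor
      · exact Or.inr
      · rintro (rfl | h')
        · exact (ih.1 (by
            have := h; rwa [ih] at this ⊢)) 
        · exact h'
    · rw [List.mem_cons, List.mem_cons, ih]

theorem nodup_dd (l : List ℕ) : (dd l).Nodup := by
  induction l with
  | nil => simp [dd]
  | cons a l ih =>
    have : dd (a :: l) = if a ∈ dd l then dd l else a :: dd l := rfl
    rw [this]
    split_ifs with h
    · exact ih
    · exact List.nodup_cons.2 ⟨h, ih⟩

def rowsL (φ : CNF ℕ) : List ℕ :=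
  0 :: 1 :: ((dd (φ.flatten.map Prod.snd)).map (fun v => 2 * v + 2) ++
    (List.range φ.length).map (fun i => 2 * i + 3))

def colsL (φ : CNF ℕ) : List ((Bool × ℕ) × (Bool × ℕ)) :=
  (φ.zipIdx.flatMap fun c => c.1.map fun l => ((true, 2 * c.2 + 3), (l.1, 2 * l.2 + 2))) ++
    [((true, 0), (true, 1))]

/-- rows coming from clauses -/
def isCl (j : ℕ) : Bool := decide (j % 2 = 1) && !(decide (j = 1))

def sysOf (φ : CNF ℕ) : Sys where
  rs := rowsL φ
  M := (colsL φ).length
  l1 := fun p => ((colsL φ).getD p ((true, 0), (true, 1))).1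
  l2 := fun p => ((colsL φ).getD p ((true, 0), (true, 1))).2
  s := isCl

theorem mem_vars (φ : CNF ℕ) (v : ℕ) : v ∈ vars φ ↔ ∃ c ∈ φ, ∃ b, (b, v) ∈ c := by
  simp only [vars, List.mem_toFinset, List.mem_map, List.mem_flatten, Prod.exists,
    exists_eq_right]
  constructor
  · rintro ⟨b, c, hc, h⟩; exact ⟨c, hc, b, h⟩
  · rintro ⟨c, hc, b, h⟩; exact ⟨b, c, hc, h⟩

theorem mem_rowsL (φ : CNF ℕ) (j : ℕ) : j ∈ rowsL φ ↔ j = 0 ∨ j = 1 ∨
    (∃ v ∈ vars φ, j = 2 * v + 2) ∨ ∃ i < φ.length, j = 2 * i + 3 := by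
  have hv : ∀ v, v ∈ dd (φ.flatten.map Prod.snd) ↔ v ∈ vars φ := by
    intro v; rw [mem_dd]; simp [vars]
  simp only [rowsL, List.mem_cons, List.mem_append, List.mem_map, List.mem_range, hv]
  constructor
  · rintro (h | h | ⟨v, hv, rfl⟩ | ⟨i, hi, rfl⟩)
    · exact Or.inl h
    · exact Or.inr (Or.inl h)
    · exact Or.inr (Or.inr (Or.inl ⟨v, hv, rfl⟩))
    · exact Or.inr (Or.inr (Or.inr ⟨i, hi, rfl⟩))
  · rintro (h | h | ⟨v, hv, rfl⟩ | ⟨i, hi, rfl⟩)
    · exact Or.inl h
    · exact Or.inr (Or.inl h)
    · exact Or.inr (Or.inr (Or.inl ⟨v, hv, rfl⟩))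
    · exact Or.inr (Or.inr (Or.inr ⟨i, hi, rfl⟩))

theorem nodup_rowsL (φ : CNF ℕ) : (rowsL φ).Nodup := by
  unfold rowsL
  rw [List.nodup_cons, List.nodup_cons, List.nodup_append]
  refine ⟨?_, ?_, (nodup_dd _).map (fun a b h => by simpa using h), (List.nodup_range).map
    (fun a b h => by simpa using h), ?_⟩
  · simp
  · simp
  · intro a ha b hb hab
    subst hab
    obtain ⟨v, _, hv⟩ := List.mem_map.1 ha
    obtain ⟨i, _, hi⟩ := List.mem_map.1 hb
    omega

theorem mem_colsL (φ : CNF ℕ) (q : (Bool × ℕ) × (Bool × ℕ)) : q ∈ colsL φ ↔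
    (∃ i, ∃ h : i < φ.length, ∃ l ∈ φ[i], q = ((true, 2 * i + 3), (l.1, 2 * l.2 + 2))) ∨
    q = ((true, 0), (true, 1)) := by
  simp only [colsL, List.mem_append, List.mem_flatMap, List.mem_map, List.mem_singleton]
  constructor
  · rintro (⟨⟨c, i⟩, hc, l, hl, rfl⟩ | h)
    · left
      obtain ⟨h1, h2⟩ := List.mk_mem_zipIdx_iff_getElem?.1 hc |> fun h => by
        have := List.getElem?_eq_some_iff.1 h
        exact this
      exact ⟨i, h1, l, by rw [h2]; exact hl, rfl⟩
    · exact Or.inr h
  · rintro (⟨i, hi, l, hl, rfl⟩ | h)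
    · left
      exact ⟨(φ[i], i), List.mk_mem_zipIdx_iff_getElem?.2 (List.getElem?_eq_getElem hi), l, hl, rfl⟩
    · exact Or.inr h

theorem sysOf_OK (φ : CNF ℕ) : (sysOf φ).OK := by
  have hM : ∀ p < (sysOf φ).M, ((sysOf φ).l1 p, (sysOf φ).l2 p) ∈ colsL φ := by
    intro p hp
    have hp' : p < (colsL φ).length := hp
    have : (colsL φ).getD p ((true, 0), (true, 1)) = (colsL φ)[p] := by
      rw [List.getD_eq_getElem?_getD, List.getElem?_eq_getElem hp']; rfl
    have e : ((sysOf φ).l1 p, (sysOf φ).l2 p) = (colsL φ)[p] := by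
      rw [← this]; rfl
    rw [e]; exact List.getElem_mem hp'
  refine ⟨nodup_rowsL φ, ?_, ?_, ?_, ?_⟩
  · show 1 ≤ (colsL φ).length
    simp [colsL]
  · intro p hp
    rcases (mem_colsL φ _).1 (hM p hp) with ⟨i, hi, l, hl, h⟩ | h
    · have : (sysOf φ).l1 p = (true, 2 * i + 3) := (Prod.mk.inj h).1
      rw [this]
      exact (mem_rowsL φ _).2 (Or.inr (Or.inr (Or.inr ⟨i, hi, rfl⟩)))
    · have : (sysOf φ).l1 p = (true, 0) := (Prod.mk.inj h).1
      rw [this]
      exact (mem_rowsL φ _).2 (Or.inl rfl)
  · intro p hp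
    rcases (mem_colsL φ _).1 (hM p hp) with ⟨i, hi, l, hl, h⟩ | h
    · have : (sysOf φ).l2 p = (l.1, 2 * l.2 + 2) := (Prod.mk.inj h).2
      rw [this]
      exact (mem_rowsL φ _).2 (Or.inr (Or.inr (Or.inl ⟨l.2, (mem_vars φ _).2
        ⟨φ[i], List.getElem_mem hi, l.1, hl⟩, rfl⟩)))
    · have : (sysOf φ).l2 p = (true, 1) := (Prod.mk.inj h).2
      rw [this]
      exact (mem_rowsL φ _).2 (Or.inr (Or.inl rfl))
  · intro p hp
    rcases (mem_colsL φ _).1 (hM p hp) with ⟨i, hi, l, hl, h⟩ | h
    · have h1 : (sysOf φ).l1 p = (true, 2 * i + 3) := (Prod.mk.inj h).1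
      have h2 : (sysOf φ).l2 p = (l.1, 2 * l.2 + 2) := (Prod.mk.inj h).2
      rw [h1, h2]; simp; omega
    · have h1 : (sysOf φ).l1 p = (true, 0) := (Prod.mk.inj h).1
      have h2 : (sysOf φ).l2 p = (true, 1) := (Prod.mk.inj h).2
      rw [h1, h2]; simp

theorem sat_iff (φ : CNF ℕ) (T : Finset ℕ) : (sysOf φ).Sat T ↔
    (∀ i, ∀ h : i < φ.length, 2 * i + 3 ∈ T → ∀ l ∈ φ[i], l.1 ≠ decide (2 * l.2 + 2 ∈ T)) ∧
      ¬ (0 ∈ T ∧ 1 ∈ T) := by
  have h1 : (sysOf φ).Sat T ↔ ∀ q ∈ colsL φ, ¬ (Sys.lit T q.1 ∧ Sys.lit T q.2) := by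
    unfold Sys.Sat
    constructor
    · intro h q hq
      obtain ⟨p, hp, rfl⟩ := List.getElem_of_mem hq
      have := h p hp
      have e : (colsL φ).getD p ((true, 0), (true, 1)) = (colsL φ)[p] := by
        rw [List.getD_eq_getElem?_getD, List.getElem?_eq_getElem hp]; rfl
      have e1 : (sysOf φ).l1 p = (colsL φ)[p].1 := by rw [← e]; rfl
      have e2 : (sysOf φ).l2 p = (colsL φ)[p].2 := by rw [← e]; rfl
      rw [e1, e2] at this
      exact this
    · intro h p hp
      have hp' : p < (colsL φ).length := hp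
      have := h _ (List.getElem_mem hp')
      have e : (colsL φ).getD p ((true, 0), (true, 1)) = (colsL φ)[p] := by
        rw [List.getD_eq_getElem?_getD, List.getElem?_eq_getElem hp']; rfl
      have e1 : (sysOf φ).l1 p = (colsL φ)[p].1 := by rw [← e]; rfl
      have e2 : (sysOf φ).l2 p = (colsL φ)[p].2 := by rw [← e]; rfl
      rw [e1, e2]
      exact this
  rw [h1]
  constructor
  · intro h
    refine ⟨fun i hi hT l hl e => ?_, fun hT => ?_⟩
    · refine h _ ((mem_colsL φ _).2 (Or.inl ⟨i, hi, l, hl, rfl⟩)) ⟨?_, ?_⟩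
      · simp [Sys.lit, hT]
      · exact e
    · refine h _ ((mem_colsL φ _).2 (Or.inr rfl)) ⟨?_, ?_⟩
      · simp [Sys.lit, hT.1]
      · simp [Sys.lit, hT.2]
  · rintro ⟨h2, h3⟩ q hq ⟨h4, h5⟩
    rcases (mem_colsL φ _).1 hq with ⟨i, hi, l, hl, rfl⟩ | rfl
    · have : 2 * i + 3 ∈ T := by simpa [Sys.lit] using h4
      exact h2 i hi this l hl h5
    · exact h3 ⟨by simpa [Sys.lit] using h4, by simpa [Sys.lit] using h5⟩

open Classical in
theorem sum_sys (φ : CNF ℕ) :
    ∑ T ∈ (sysOf φ).rs.toFinset.powerset with (sysOf φ).Sat T,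
      ∏ j ∈ T, (if (sysOf φ).s j then (-1 : ℚ) else 1) = 3 * satCount φ := by
  have hrs : (sysOf φ).rs = rowsL φ := rfl
  -- reindex by triples
  have h1 : ∑ T ∈ (sysOf φ).rs.toFinset.powerset with (sysOf φ).Sat T,
      ∏ j ∈ T, (if (sysOf φ).s j then (-1 : ℚ) else 1)
      = ∑ q ∈ ((({0, 1} : Finset ℕ).powerset.filter (fun a => ¬ (0 ∈ a ∧ 1 ∈ a))) ×ˢ
          ((vars φ).powerset ×ˢ (Finset.range φ.length).powerset)) with
          (∀ i, ∀ h : i < φ.length, i ∈ q.2.2 → ∀ l ∈ φ[i], l.1 ≠ decide (l.2 ∈ q.2.1)),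
          (-1 : ℚ) ^ q.2.2.card := by
    refine Finset.sum_nbij' (fun T => (T.filter (fun j => j = 0 ∨ j = 1),
        ((vars φ).filter (fun v => 2 * v + 2 ∈ T),
        (Finset.range φ.length).filter (fun i => 2 * i + 3 ∈ T))))
      (fun q => q.1 ∪ (q.2.1.image (fun v => 2 * v + 2) ∪ q.2.2.image (fun i => 2 * i + 3)))
      ?_ ?_ ?_ ?_ ?_
    · intro T hT
      rw [Finset.mem_filter, Finset.mem_powerset, sat_iff] at hT
      obtain ⟨hT1, hT2, hT3⟩ := hT
      rw [Finset.mem_filter]
      simp only [Finset.mem_product, Finset.mem_filter, Finset.mem_powerset]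
      refine ⟨⟨⟨?_, ?_⟩, Finset.filter_subset _ _, Finset.filter_subset _ _⟩, ?_⟩
      · intro j hj; simpa using (Finset.mem_filter.1 hj).2
      · rintro ⟨⟨h0, _⟩, h1, _⟩; exact hT3 ⟨h0, h1⟩
      · intro i hi hiT l hl
        have hv : l.2 ∈ vars φ := (mem_vars φ _).2 ⟨φ[i], List.getElem_mem hi, l.1, hl⟩
        have := hT2 i hi hiT.2 l hl
        simpa [hv] using this
    · intro q hq
      rw [Finset.mem_filter] at hq
      simp only [Finset.mem_product, Finset.mem_filter, Finset.mem_powerset] at hq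
      obtain ⟨⟨⟨ha1, ha2⟩, hS, ht⟩, hq2⟩ := hq
      have hmem : ∀ j, j ∈ q.1 ∪ (q.2.1.image (fun v => 2 * v + 2) ∪
          q.2.2.image (fun i => 2 * i + 3)) ↔ j ∈ q.1 ∨ (∃ v ∈ q.2.1, 2 * v + 2 = j) ∨
            ∃ i ∈ q.2.2, 2 * i + 3 = j := by
        intro j; simp only [Finset.mem_union, Finset.mem_image]
      have hv : ∀ v, 2 * v + 2 ∈ q.1 ∪ (q.2.1.image (fun v => 2 * v + 2) ∪
          q.2.2.image (fun i => 2 * i + 3)) ↔ v ∈ q.2.1 := by
        intro v; rw [hmem]
        constructor
        · rintro (h | ⟨v', h, e⟩ | ⟨i, _, e⟩)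
          · have := ha1 h; simp at this
          · have : v' = v := by omega
            exact this ▸ h
          · omega
        · intro h; exact Or.inr (Or.inl ⟨v, h, rfl⟩)
      have hi : ∀ i, 2 * i + 3 ∈ q.1 ∪ (q.2.1.image (fun v => 2 * v + 2) ∪
          q.2.2.image (fun i => 2 * i + 3)) ↔ i ∈ q.2.2 := by
        intro i; rw [hmem]
        constructor
        · rintro (h | ⟨v', h, e⟩ | ⟨i', h, e⟩)
          · have := ha1 h; simp at this
          · omega
          · have : i' = i := by omega
            exact this ▸ h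
        · intro h; exact Or.inr (Or.inr ⟨i, h, rfl⟩)
      rw [Finset.mem_filter, Finset.mem_powerset, sat_iff]
      refine ⟨?_, ?_, ?_⟩
      · intro j hj
        rw [hrs, List.mem_toFinset, mem_rowsL]
        rcases (hmem j).1 hj with h | ⟨v, h, rfl⟩ | ⟨i, h, rfl⟩
        · have := ha1 h
          simp only [Finset.mem_insert, Finset.mem_singleton] at this
          rcases this with h | h
          · exact Or.inl h
          · exact Or.inr (Or.inl h)
        · exact Or.inr (Or.inr (Or.inl ⟨v, hS h, rfl⟩))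
        · exact Or.inr (Or.inr (Or.inr ⟨i, by simpa using ht h, rfl⟩))
      · intro i hi' hiT l hl
        rw [hi] at hiT
        have := hq2 i hi' hiT l hl
        rw [ne_eq, decide_eq_decide.2 (hv l.2)]
        exact this
      · rintro ⟨h0, h1⟩
        rw [hmem] at h0 h1
        apply ha2
        constructor
        · rcases h0 with h | ⟨v, _, e⟩ | ⟨i, _, e⟩
          · exact h
          · omega
          · omega
        · rcases h1 with h | ⟨v, _, e⟩ | ⟨i, _, e⟩
          · exact h
          · omega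
          · omega
    · intro T hT
      rw [Finset.mem_filter, Finset.mem_powerset] at hT
      ext j
      simp only [Finset.mem_union, Finset.mem_image, Finset.mem_filter]
      constructor
      · rintro (⟨h, _⟩ | ⟨v, ⟨_, h⟩, rfl⟩ | ⟨i, ⟨_, h⟩, rfl⟩) <;> exact h
      · intro h
        have := hT.1 h
        rw [hrs, List.mem_toFinset, mem_rowsL] at this
        rcases this with rfl | rfl | ⟨v, hv, rfl⟩ | ⟨i, hi, rfl⟩
        · exact Or.inl ⟨h, Or.inl rfl⟩
        · exact Or.inl ⟨h, Or.inr rfl⟩
        · exact Or.inr (Or.inl ⟨v, ⟨hv, h⟩, rfl⟩)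
        · exact Or.inr (Or.inr ⟨i, ⟨by simpa using hi, h⟩, rfl⟩)
    · intro q hq
      rw [Finset.mem_filter] at hq
      simp only [Finset.mem_product, Finset.mem_filter, Finset.mem_powerset] at hq
      obtain ⟨⟨⟨ha1, ha2⟩, hS, ht⟩, hq2⟩ := hq
      have ha1' : ∀ j ∈ q.1, j = 0 ∨ j = 1 := fun j hj => by simpa using ha1 hj
      ext j
      · simp only [Finset.mem_union, Finset.mem_image, Finset.mem_filter]
        constructor
        · rintro ⟨h | ⟨v, _, rfl⟩ | ⟨i, _, rfl⟩, h2⟩
          · exact h
          · omega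
          · omega
        · intro h; exact ⟨Or.inl h, ha1' j h⟩
      · simp only [Finset.mem_union, Finset.mem_image, Finset.mem_filter]
        constructor
        · rintro ⟨_, h | ⟨v, h, e⟩ | ⟨i, _, e⟩⟩
          · have := ha1' _ h; omega
          · have : v = j := by omega
            exact this ▸ h
          · omega
        · intro h; exact ⟨hS h, Or.inr (Or.inl ⟨j, h, rfl⟩)⟩
      · simp only [Finset.mem_union, Finset.mem_image, Finset.mem_filter]
        constructor
        · rintro ⟨_, h | ⟨v, h, e⟩ | ⟨i, h, e⟩⟩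
          · have := ha1' _ h; omega
          · omega
          · have : i = j := by omega
            exact this ▸ h
        · intro h; exact ⟨ht h, Or.inr (Or.inr ⟨j, h, rfl⟩)⟩
    · intro T hT
      rw [Finset.mem_filter, Finset.mem_powerset] at hT
      rw [Finset.prod_ite, Finset.prod_const_one, mul_one, Finset.prod_const]
      congr 1
      symm
      refine Finset.card_nbij' (fun i => 2 * i + 3) (fun j => (j - 3) / 2) ?_ ?_ ?_ ?_
      · intro i hi
        simp only [Finset.coe_filter, Set.mem_ofPred_eq, Finset.mem_coe, Finset.mem_filter] at hi ⊢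
        refine ⟨hi.2, ?_⟩
        show isCl (2 * i + 3) = true
        simp only [isCl, Bool.and_eq_true, decide_eq_true_eq, Bool.not_eq_true',
          decide_eq_false_iff_not]
        omega
      · intro j hj
        simp only [Finset.coe_filter, Set.mem_ofPred_eq, Finset.mem_coe, Finset.mem_filter] at hj ⊢
        obtain ⟨hj1, hj2⟩ := hj
        have hj2' : isCl j = true := hj2
        simp only [isCl, Bool.and_eq_true, decide_eq_true_eq, Bool.not_eq_true',
          decide_eq_false_iff_not] at hj2'
        have := hT.1 hj1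
        rw [hrs, List.mem_toFinset, mem_rowsL] at this
        rcases this with h | h | ⟨v, hv, h⟩ | ⟨i, hi, h⟩
        · omega
        · omega
        · omega
        · have e : (j - 3) / 2 = i := by omega
          rw [e, ← h]
          exact ⟨by simpa using hi, hj1⟩
      · intro i _; simp
      · intro j hj
        simp only [Finset.coe_filter, Set.mem_ofPred_eq, Finset.mem_coe, Finset.mem_filter] at hj
        have hj2' : isCl j = true := hj.2
        simp only [isCl, Bool.and_eq_true, decide_eq_true_eq, Bool.not_eq_true',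
          decide_eq_false_iff_not] at hj2'
        show 2 * ((j - 3) / 2) + 3 = j
        omega
  rw [h1]
  -- evaluate
  have hcard : (({0, 1} : Finset ℕ).powerset.filter (fun a => ¬ (0 ∈ a ∧ 1 ∈ a))).card = 3 := by
    have : (({0, 1} : Finset ℕ).powerset.filter (fun a => ¬ (0 ∈ a ∧ 1 ∈ a)))
        = {∅, {0}, {1}} := by
      ext a
      simp only [Finset.mem_filter, Finset.mem_powerset, Finset.mem_insert, Finset.mem_singleton]
      constructor
      · rintro ⟨h1, h2⟩
        by_cases h0 : 0 ∈ a
        · right; left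
          ext j; simp only [Finset.mem_singleton]
          constructor
          · intro hj
            have := h1 hj
            simp only [Finset.mem_insert, Finset.mem_singleton] at this
            rcases this with h | rfl
            · exact h
            · exact absurd ⟨h0, hj⟩ h2
          · rintro rfl; exact h0
        · by_cases h1' : 1 ∈ a
          · right; right
            ext j; simp only [Finset.mem_singleton]
            constructor
            · intro hj
              have := h1 hj
              simp only [Finset.mem_insert, Finset.mem_singleton] at this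
              rcases this with rfl | h
              · exact absurd hj h0
              · exact h
            · rintro rfl; exact h1'
          · left
            rw [Finset.eq_empty_iff_forall_notMem]
            intro j hj
            have := h1 hj
            simp only [Finset.mem_insert, Finset.mem_singleton] at this
            rcases this with rfl | rfl
            · exact h0 hj
            · exact h1' hj
      · rintro (rfl | rfl | rfl) <;> simp
    rw [this]; rfl
  have h2 : ∀ S ∈ (vars φ).powerset, (∑ t ∈ (Finset.range φ.length).powerset,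
      if (∀ i, ∀ h : i < φ.length, i ∈ t → ∀ l ∈ φ[i], l.1 ≠ decide (l.2 ∈ S)) then
        (-1 : ℚ) ^ t.card else 0) = if SatBy S φ then 1 else 0 := by
    intro S _
    let f : ℕ → ℚ := fun i => if (∀ l ∈ φ.getD i [], l.1 ≠ decide (l.2 ∈ S)) then -1 else 0
    have e1 : ∀ t ∈ (Finset.range φ.length).powerset,
        (if (∀ i, ∀ h : i < φ.length, i ∈ t → ∀ l ∈ φ[i], l.1 ≠ decide (l.2 ∈ S)) then
        (-1 : ℚ) ^ t.card else 0) = (∏ i ∈ t, f i) * ∏ i ∈ Finset.range φ.length \ t, 1 := by
      intro t ht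
      rw [Finset.prod_const_one, mul_one]
      rw [Finset.mem_powerset] at ht
      have hget : ∀ i, ∀ h : i < φ.length, φ.getD i [] = φ[i] := by
        intro i h; rw [List.getD_eq_getElem?_getD, List.getElem?_eq_getElem h]; rfl
      split_ifs with hc
      · rw [← Finset.prod_const]
        apply Finset.prod_congr rfl
        intro i hi
        have hi' : i < φ.length := by simpa using ht hi
        simp only [f, hget i hi']
        rw [if_pos (hc i hi' hi)]
      · push Not at hc
        obtain ⟨i, hi, hit, l, hl, he⟩ := hc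
        symm
        apply Finset.prod_eq_zero hit
        simp only [f, hget i hi]
        rw [if_neg]
        intro h
        exact h l hl he
    rw [Finset.sum_congr rfl e1, ← Finset.prod_add]
    split_ifs with hS
    · apply Finset.prod_eq_one
      intro i hi
      have hi' : i < φ.length := by simpa using hi
      have hget : φ.getD i [] = φ[i] := by
        rw [List.getD_eq_getElem?_getD, List.getElem?_eq_getElem hi']; rfl
      simp only [f, hget]
      rw [if_neg, zero_add]
      obtain ⟨x, hx, hx2⟩ := hS φ[i] (List.getElem_mem hi')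
      intro h
      exact h x hx hx2
    · unfold SatBy at hS
      push Not at hS
      obtain ⟨c, hc, hc2⟩ := hS
      obtain ⟨i, hi, rfl⟩ := List.getElem_of_mem hc
      apply Finset.prod_eq_zero (Finset.mem_range.2 hi)
      have hget : φ.getD i [] = φ[i] := by
        rw [List.getD_eq_getElem?_getD, List.getElem?_eq_getElem hi]; rfl
      simp only [f, hget]
      rw [if_pos hc2]; norm_num
  rw [Finset.sum_filter, Finset.sum_product]
  calc _ = ∑ a ∈ (({0, 1} : Finset ℕ).powerset.filter (fun a => ¬ (0 ∈ a ∧ 1 ∈ a))),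
        (satCount φ : ℚ) := by
        apply Finset.sum_congr rfl
        intro a _
        rw [Finset.sum_product]
        have h3 : ∑ S ∈ (vars φ).powerset, (if SatBy S φ then (1 : ℚ) else 0) = satCount φ := by
          rw [Finset.sum_boole]; rfl
        rw [← h3]
        exact Finset.sum_congr rfl h2
    _ = 3 * satCount φ := by rw [Finset.sum_const, hcard, nsmul_eq_mul]; norm_num

end Pool.Agent.Uni
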