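import Pool.Agent.H527R2.UniE

/-!
# The counting problem: spanning connected unicyclic subgraphs
-/

namespace Pool.Agent.Uni

open Finset

/-- A multigraph, given by the list of its vertices (named by natural numbers) and the list of its
edges.  Parallel edges are repeated pairs (or pairs in the other order). -/
abbrev MGraph := List ℕ × List (ℕ × ℕ)

/-- The spanning subgraph with the edges `A` (a set of positions in the list of edges) is
connected: any two vertices are related by the equivalence relation generated by the edges
of `A`. -/
def SpanConn (G : MGraph) (A : Finset (Fin G.2.length)) : Prop :=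
  ∀ u ∈ G.1, ∀ v ∈ G.1, Relation.EqvGen (fun a b => ∃ i ∈ A, G.2.get i = (a, b)) u v

/-- `G` is a connected multigraph without loops: there is at least one vertex, no vertex is
listed twice, every edge joins two distinct vertices of `G`, and `G` is connected. -/
def IsConnGraph (G : MGraph) : Prop :=
  G.1 ≠ [] ∧ G.1.Nodup ∧ (∀ e ∈ G.2, e.1 ∈ G.1 ∧ e.2 ∈ G.1 ∧ e.1 ≠ e.2) ∧ SpanConn G univ

/-- The number of spanning connected unicyclic subgraphs of a multigraph `G` with `n` vertices:
the number of sets of exactly `n` edges forming a connected spanning subgraph. -/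
noncomputable def unicyclicCount (G : MGraph) : ℕ :=
  Nat.card {A : Finset (Fin G.2.length) // A.card = G.1.length ∧ SpanConn G A}

/-- The coefficient `F_i` of the `F`-form of the all-terminal reliability polynomial: the number
of sets of `i` edges whose deletion leaves `G` connected. -/
noncomputable def Fcoeff (G : MGraph) (i : ℕ) : ℕ :=
  Nat.card {D : Finset (Fin G.2.length) // D.card = i ∧ SpanConn G Dᶜ}

/-- `F_{m-n}` is the number of spanning connected unicyclic subgraphs. -/
theorem Fcoeff_eq_unicyclicCount (G : MGraph) (h : G.1.length ≤ G.2.length) :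
    Fcoeff G (G.2.length - G.1.length) = unicyclicCount G := by
  classical
  unfold unicyclicCount Fcoeff
  have h1 : ∀ D : Finset (Fin G.2.length), Dᶜ.card + D.card = G.2.length := by
    intro D
    rw [Finset.card_compl, Fintype.card_fin]
    have : D.card ≤ G.2.length := by simpa using Finset.card_le_univ D
    omega
  refine Nat.card_congr ⟨fun D => ⟨D.1ᶜ, ?_, D.2.2⟩, fun A => ⟨A.1ᶜ, ?_, ?_⟩, ?_, ?_⟩
  · have := h1 D.1; have := D.2.1; omega
  · have := h1 A.1; have := A.2.1; omega
  · rw [compl_compl]; exact A.2.2
  · intro D; simp
  · intro A; simp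

/-! ### masks -/

variable {α : Type*} [DecidableEq α]

/-- the sublist selected by a mask -/
def sel : List Bool → List (α × α) → List (α × α)
  | true :: w, e :: E => e :: sel w E
  | false :: w, _ :: E => sel w E
  | _, _ => []

/-- the labeling after contracting the edges in `l` -/
def labs (c : α → α) (l : List (α × α)) : α → α := l.foldl (fun c e => mrg c e.1 e.2) c

theorem finite_masks (m : ℕ) (Q : List Bool → Prop) :
    Finite {w : List Bool // w.length = m ∧ Q w} := by
  have h := (List.finite_length_eq Bool m).to_subtype
  exact Finite.of_injective (fun w : {w : List Bool // w.length = m ∧ Q w} =>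
    (⟨w.1, w.2.1⟩ : {l : List Bool | l.length = m})) (fun w w' h => by
      simpa [Subtype.ext_iff] using h)

theorem card_masks_succ (m : ℕ) (Q : List Bool → Prop) :
    Nat.card {w : List Bool // w.length = m + 1 ∧ Q w}
      = Nat.card {w : List Bool // w.length = m ∧ Q (false :: w)} +
        Nat.card {w : List Bool // w.length = m ∧ Q (true :: w)} := by
  have := finite_masks m (fun w => Q (false :: w))
  have := finite_masks m (fun w => Q (true :: w))
  rw [← Nat.card_sum]
  refine (Nat.card_congr (Equiv.ofBijective (fun x => match x with
    | Sum.inl w => (⟨false :: w.1, by simp [w.2.1], w.2.2⟩ :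
        {w : List Bool // w.length = m + 1 ∧ Q w})
    | Sum.inr w => ⟨true :: w.1, by simp [w.2.1], w.2.2⟩) ⟨?_, ?_⟩)).symm
  · rintro (⟨w, hw⟩ | ⟨w, hw⟩) (⟨w', hw'⟩ | ⟨w', hw'⟩) h
    · simpa using h
    · simp at h
    · simp at h
    · simpa using h
  · rintro ⟨w, hw1, hw2⟩
    rcases w with _ | ⟨b, w⟩
    · simp at hw1
    · cases b with
      | false => exact ⟨Sum.inl ⟨w, by simpa using hw1, hw2⟩, rfl⟩
      | true => exact ⟨Sum.inr ⟨w, by simpa using hw1, hw2⟩, rfl⟩

theorem rc_eq_masks (S : Finset α) : ∀ (E : List (α × α)) (c : α → α) (a : ℕ),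
    rc S E c a = Nat.card {w : List Bool // w.length = E.length ∧ (w.count true = a ∧
      (S.image (labs c (sel w E))).card = 1)} := by
  intro E
  induction E with
  | nil =>
    intro c a
    simp only [rc, List.length_nil]
    by_cases h : a = 0 ∧ (S.image c).card = 1
    · rw [if_pos h]
      symm
      rw [Nat.card_eq_one_iff_unique]
      refine ⟨⟨?_⟩, ⟨⟨[], rfl, by simp [h.1], ?_⟩⟩⟩
      · rintro ⟨w, hw, _⟩ ⟨w', hw', _⟩
        rw [Subtype.mk.injEq, List.length_eq_zero_iff.1 hw, List.length_eq_zero_iff.1 hw']
      · have : labs c (sel [] ([] : List (α × α))) = c := rfl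
        rw [this]; exact h.2
    · rw [if_neg h]
      symm
      rw [Nat.card_eq_zero]
      left
      refine ⟨?_⟩
      rintro ⟨w, hw, h1, h2⟩
      rw [List.length_eq_zero_iff.1 hw] at h1 h2
      have : labs c (sel [] ([] : List (α × α))) = c := rfl
      rw [this] at h2
      exact h ⟨by simpa using h1.symm, h2⟩
  | cons e E ih =>
    intro c a
    have h0 : ∀ w : List Bool, labs c (sel (false :: w) (e :: E)) = labs c (sel w E) :=
      fun w => rfl
    have h1 : ∀ w : List Bool, labs c (sel (true :: w) (e :: E))
        = labs (mrg c e.1 e.2) (sel w E) := fun w => rfl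
    rw [List.length_cons, card_masks_succ]
    simp only [h0, h1]
    rcases a with _ | a
    · simp only [rc]
      rw [ih c 0]
      have : Nat.card {w : List Bool // w.length = E.length ∧ (List.count true (true :: w) = 0 ∧
          (S.image (labs (mrg c e.1 e.2) (sel w E))).card = 1)} = 0 := by
        rw [Nat.card_eq_zero]
        left
        refine ⟨?_⟩
        rintro ⟨w, _, h2, _⟩
        simp at h2
      rw [this, add_zero]
      simp
    · simp only [rc]
      rw [ih c (a + 1), ih (mrg c e.1 e.2) a]
      simp

theorem eqvGen_mono' {r s : α → α → Prop} (h : ∀ a b, r a b → Relation.EqvGen s a b) :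
    ∀ a b, Relation.EqvGen r a b → Relation.EqvGen s a b := by
  intro a b hab
  induction hab with
  | rel x y h' => exact h x y h'
  | refl x => exact .refl x
  | symm x y _ ih => exact .symm _ _ ih
  | trans x y z _ _ ih1 ih2 => exact .trans _ _ _ ih1 ih2

theorem labs_iff : ∀ (l : List (α × α)) (c : α → α) (u v : α),
    labs c l u = labs c l v ↔ Relation.EqvGen (fun a b => c a = c b ∨ (a, b) ∈ l) u v := by
  intro l
  induction l with
  | nil =>
    intro c u v
    constructor
    · intro h; exact .rel _ _ (Or.inl h)
    · intro h
      show c u = c v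
      induction h with
      | rel x y h' => rcases h' with h' | h'
                      · exact h'
                      · simp at h'
      | refl x => rfl
      | symm x y _ ih => exact ih.symm
      | trans x y z _ _ ih1 ih2 => exact ih1.trans ih2
  | cons e l ih =>
    intro c u v
    have h1 : labs c (e :: l) = labs (mrg c e.1 e.2) l := rfl
    rw [h1, ih]
    have hstep : Relation.EqvGen (fun a b => c a = c b ∨ (a, b) ∈ e :: l) e.1 e.2 :=
      .rel _ _ (Or.inr (List.mem_cons_self ..))
    constructor
    · apply eqvGen_mono'
      rintro a b (h | h)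
      · unfold mrg at h
        split_ifs at h with ha hb hb
        · exact .rel _ _ (Or.inl (ha.trans hb.symm))
        · -- c a = c e.2, c e.1 = c b
          exact .trans _ _ _ (.rel _ _ (Or.inl ha)) (.trans _ _ _ (.symm _ _ hstep)
            (.rel _ _ (Or.inl h)))
        · exact .trans _ _ _ (.rel _ _ (Or.inl h)) (.trans _ _ _ hstep
            (.rel _ _ (Or.inl hb.symm)))
        · exact .rel _ _ (Or.inl h)
      · exact .rel _ _ (Or.inr (List.mem_cons_of_mem _ h))
    · apply eqvGen_mono'
      rintro a b (h | h)
      · refine .rel _ _ (Or.inl ?_)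
        unfold mrg; rw [h]
      · rcases List.mem_cons.1 h with h | h
        · subst h
          refine .rel _ _ (Or.inl ?_)
          unfold mrg
          simp
        · exact .rel _ _ (Or.inr h)

theorem card_image_eq_one {S : Finset α} (hS : S.Nonempty) (c : α → α) :
    (S.image c).card = 1 ↔ ∀ u ∈ S, ∀ v ∈ S, c u = c v := by
  rw [Finset.card_eq_one]
  constructor
  · rintro ⟨l, hl⟩ u hu v hv
    have h1 : c u ∈ S.image c := Finset.mem_image_of_mem c hu
    have h2 : c v ∈ S.image c := Finset.mem_image_of_mem c hv
    rw [hl, Finset.mem_singleton] at h1 h2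
    rw [h1, h2]
  · intro h
    obtain ⟨u, hu⟩ := hS
    refine ⟨c u, ?_⟩
    ext l
    rw [Finset.mem_image, Finset.mem_singleton]
    constructor
    · rintro ⟨v, hv, rfl⟩; exact h v hv u hu
    · rintro rfl; exact ⟨u, hu, rfl⟩

theorem mem_sel : ∀ (w : List Bool) (E : List (α × α)), w.length = E.length → ∀ x,
    x ∈ sel w E ↔ ∃ i : ℕ, ∃ h : i < E.length, w[i]? = some true ∧ E[i] = x := by
  intro w
  induction w with
  | nil =>
    intro E hE x
    rcases E with _ | ⟨e, E⟩
    · simp [sel]
    · simp at hE
  | cons b w ih =>
    intro E hE x
    rcases E with _ | ⟨e, E⟩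
    · simp at hE
    · have hE' : w.length = E.length := by simpa using hE
      have key : (∃ i : ℕ, ∃ h : i < (e :: E).length, (b :: w)[i]? = some true ∧ (e :: E)[i] = x)
          ↔ (b = true ∧ e = x) ∨ ∃ i : ℕ, ∃ h : i < E.length, w[i]? = some true ∧ E[i] = x := by
        constructor
        · rintro ⟨i, hi, h1, h2⟩
          rcases i with _ | i
          · left; exact ⟨by simpa using h1, by simpa using h2⟩
          · right; exact ⟨i, by simpa using hi, by simpa using h1, by simpa using h2⟩
        · rintro (⟨h1, h2⟩ | ⟨i, hi, h1, h2⟩)
          · exact ⟨0, by simp, by simpa using h1, by simpa using h2⟩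
          · exact ⟨i + 1, by simpa using hi, by simpa using h1, by simpa using h2⟩
      rw [key]
      cases b with
      | true =>
        simp only [sel, List.mem_cons, true_and]
        rw [ih E hE']
        constructor
        · rintro (h | h)
          · exact Or.inl h.symm
          · exact Or.inr h
        · rintro (h | h)
          · exact Or.inl h.symm
          · exact Or.inr h
      | false =>
        simp only [sel]
        rw [ih E hE']
        simp

/-- The number of connected spanning edge sets of size `a`. -/
theorem card_spanConn (G : MGraph) (hV : G.1 ≠ []) (a : ℕ) :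
    Nat.card {A : Finset (Fin G.2.length) // A.card = a ∧ SpanConn G A}
      = rc G.1.toFinset G.2 id a := by
  classical
  rw [rc_eq_masks]
  have hne : G.1.toFinset.Nonempty := by
    obtain ⟨x, hx⟩ := List.exists_mem_of_ne_nil _ hV
    exact ⟨x, by simpa using hx⟩
  -- connectivity in terms of the mask
  have hconn : ∀ (w : List Bool) (hw : w.length = G.2.length) (A : Finset (Fin G.2.length)),
      (∀ i : Fin G.2.length, i ∈ A ↔ w[i.1]? = some true) →
      (SpanConn G A ↔ (G.1.toFinset.image (labs id (sel w G.2))).card = 1) := by
    intro w hw A hA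
    rw [card_image_eq_one hne]
    have hiff : ∀ u v, labs id (sel w G.2) u = labs id (sel w G.2) v ↔
        Relation.EqvGen (fun a b => ∃ i ∈ A, G.2.get i = (a, b)) u v := by
      intro u v
      rw [labs_iff]
      constructor
      · apply eqvGen_mono'
        rintro a b (h | h)
        · have h' : a = b := h
          rw [h']; exact .refl _
        · obtain ⟨i, hi, h1, h2⟩ := (mem_sel w G.2 hw _).1 h
          exact .rel _ _ ⟨⟨i, hi⟩, (hA _).2 h1, h2⟩
      · apply eqvGen_mono'
        rintro a b ⟨i, hi, h⟩
        exact .rel _ _ (Or.inr ((mem_sel w G.2 hw _).2 ⟨i.1, i.2, (hA i).1 hi, h⟩))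
    constructor
    · intro h u hu v hv
      exact (hiff u v).2 (h u (by simpa using hu) v (by simpa using hv))
    · intro h u hu v hv
      exact (hiff u v).1 (h u (by simpa using hu) v (by simpa using hv))
  have hofFn : ∀ (A : Finset (Fin G.2.length)) (i : Fin G.2.length),
      i ∈ A ↔ (List.ofFn (fun i : Fin G.2.length => decide (i ∈ A)))[i.1]? = some true := by
    intro A i
    rw [List.getElem?_ofFn]
    simp
  have hcount : ∀ (A : Finset (Fin G.2.length)),
      (List.ofFn (fun i : Fin G.2.length => decide (i ∈ A))).count true = A.card := by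
    intro A
    rw [List.ofFn_eq_map, List.count_eq_countP, List.countP_map]
    have : A.card = (Finset.univ.filter (fun i => i ∈ A)).card := by simp
    rw [this]
    have h2 := List.countP_eq_length_filter (p := fun i : Fin G.2.length => decide (i ∈ A))
      (l := List.finRange G.2.length)
    have h3 : List.countP ((fun x => x == true) ∘ fun i : Fin G.2.length => decide (i ∈ A))
        (List.finRange G.2.length) = List.countP (fun i : Fin G.2.length => decide (i ∈ A))
        (List.finRange G.2.length) := by
      apply List.countP_congr
      intro i _; simp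
    rw [h3, h2]
    rfl
  refine Nat.card_congr (Equiv.ofBijective (fun A => ⟨List.ofFn (fun i => decide (i ∈ A.1)),
    by simp, by rw [hcount]; exact A.2.1, (hconn _ (by simp) A.1 (hofFn A.1)).1 A.2.2⟩) ⟨?_, ?_⟩)
  · rintro ⟨A, hA⟩ ⟨A', hA'⟩ h
    simp only [Subtype.mk.injEq] at h
    have h2 := List.ofFn_injective h
    rw [Subtype.mk.injEq]
    ext i
    have := congrFun h2 i
    simpa using this
  · rintro ⟨w, hw, hc, h1⟩
    let A : Finset (Fin G.2.length) := Finset.univ.filter (fun i => w[i.1]? = some true)
    have hA : ∀ i : Fin G.2.length, i ∈ A ↔ w[i.1]? = some true := by intro i; simp [A]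
    have hwA : List.ofFn (fun i : Fin G.2.length => decide (i ∈ A)) = w := by
      apply List.ext_getElem
      · simp [hw]
      · intro i h2 h3
        rw [List.getElem_ofFn]
        have := hA ⟨i, by simpa using h2⟩
        rw [List.getElem?_eq_getElem h3] at this
        cases hb : w[i] with
        | true => rw [hb] at this; simpa using this
        | false => rw [hb] at this; simpa using this
    refine ⟨⟨A, ?_, ?_⟩, ?_⟩
    · rw [← hcount, hwA]; exact hc
    · exact (hconn w hw A hA).2 h1
    · rw [Subtype.mk.injEq]; exact hwA

/-! ### renaming the vertices -/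

theorem rc_rename {β : Type*} [DecidableEq β] (f : α → β) (hf : Function.Injective f)
    (S : Finset α) : ∀ (E : List (α × α)) (c : α → α) (c' : β → β), (∀ v, c' (f v) = f (c v)) →
    ∀ a, rc (S.image f) (E.map fun e => (f e.1, f e.2)) c' a = rc S E c a := by
  intro E
  induction E with
  | nil =>
    intro c c' h a
    have h1 : ((S.image f).image c').card = (S.image c).card := by
      have : (S.image f).image c' = (S.image c).image f := by
        rw [Finset.image_image, Finset.image_image]
        apply Finset.image_congr
        intro v _; exact h v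
      rw [this, Finset.card_image_of_injective _ hf]
    simp only [List.map_nil, rc, h1]
  | cons e E ih =>
    intro c c' h a
    have hm : ∀ v, mrg c' (f e.1) (f e.2) (f v) = f (mrg c e.1 e.2 v) := by
      intro v
      unfold mrg
      rw [h, h, h]
      by_cases h2 : c v = c e.2
      · rw [if_pos (by rw [h2]), if_pos h2]
      · rw [if_neg (fun h3 => h2 (hf h3)), if_neg h2]
    rcases a with _ | a
    · simp only [List.map_cons, rc]; exact ih c c' h 0
    · simp only [List.map_cons, rc]
      rw [ih c c' h (a + 1), ih (mrg c e.1 e.2) _ hm a]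

end Pool.Agent.Uni
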