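import Pool.Agent.H527R2.UniK
import Pool.Agent.H527R2.UniM
import Pool.Agent.H527R2.UniN

/-!
# The graphs of the reduction
-/

namespace Pool.Agent.Uni

open Finset
open Pool.Agent.NPC.Cnt

/-- numerical names -/
def nm : Nm → ℕ
  | .A j p => Nat.pair 0 (Nat.pair j p)
  | .B j p => Nat.pair 1 (Nat.pair j p)
  | .U j p => Nat.pair 2 (Nat.pair j p)
  | .E p => Nat.pair 3 (Nat.pair 0 p)
  | .H p => Nat.pair 4 (Nat.pair 0 p)
  | .G p => Nat.pair 5 (Nat.pair 0 p)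
  | .Yp j p => Nat.pair 6 (Nat.pair j p)
  | .Ym j p => Nat.pair 7 (Nat.pair j p)
  | .Z0 p => Nat.pair 8 (Nat.pair 0 p)
  | .Z1 p => Nat.pair 9 (Nat.pair 0 p)
  | .Z2 p => Nat.pair 10 (Nat.pair 0 p)
  | .hub k => Nat.pair 11 (Nat.pair 0 k)
  | .ext => Nat.pair 12 (Nat.pair 0 0)

theorem nm_injective : Function.Injective nm := by
  intro x y h
  cases x <;> cases y <;> simp only [nm, Nat.pair_eq_pair] at h <;> simp_all

/-- the three elements of a triple -/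
def tr3 (Φ : Sys) : Nm → Nm × Nm × Nm
  | .Yp j p => (Nm.A j p, Nm.B j p, Φ.tip true j p)
  | .Ym j p => (Nm.A j p, Nm.B j (nx Φ.M p), Φ.tip false j p)
  | .Z0 p => (Nm.E p, Nm.H p, Nm.G p)
  | .Z1 p => (Nm.U (Φ.l1 p).2 p, Nm.H p, Nm.G p)
  | .Z2 p => (Nm.U (Φ.l2 p).2 p, Nm.H p, Nm.G p)
  | _ => (Nm.ext, Nm.ext, Nm.ext)

theorem mem_tr3 (Φ : Sys) {y : Nm} (hy : y ∈ Φ.Yl) (x : Nm) :
    x ∈ Φ.mem y ↔ x = (tr3 Φ y).1 ∨ x = (tr3 Φ y).2.1 ∨ x = (tr3 Φ y).2.2 := by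
  rcases (Φ.mem_Yl _).1 hy with ⟨j, hj, p, hp, rfl | rfl⟩ | ⟨p, hp, rfl | rfl | rfl⟩ <;>
    simp [Sys.mem, tr3]

/-- the numerical code of a triple: name, sign, elements -/
def codeT (Φ : Sys) (y : Nm) : ℕ × Bool × ℕ × ℕ × ℕ :=
  (nm y, Φ.sgn y, nm (tr3 Φ y).1, nm (tr3 Φ y).2.1, nm (tr3 Φ y).2.2)

def hubN (h : ℕ) : ℕ := nm (.hub h)
def extN : ℕ := nm .ext

/-- weight of the edges between the element `x` and the triple `t` -/
def wtN (i x : ℕ) (t : ℕ × Bool × ℕ × ℕ × ℕ) : ℕ :=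
  if x = t.2.2.1 ∨ x = t.2.2.2.1 ∨ x = t.2.2.2.2 then (if t.2.1 then i - 1 else 1) else 0

/-- edges between elements and triples -/
def NEdges (Xn : List ℕ) (Tr : List (ℕ × Bool × ℕ × ℕ × ℕ)) (i k : ℕ) : List (ℕ × ℕ) :=
  Xn.flatMap fun x => Tr.flatMap fun t => List.replicate (k * (i * wtN i x t)) (t.1, x)

/-- edges at the hubs -/
def HEdges (Xn : List ℕ) (Tr : List (ℕ × Bool × ℕ × ℕ × ℕ)) (i k : ℕ) : List (ℕ × ℕ) :=
  (List.range k).flatMap fun h =>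
    (Xn.map fun x => (hubN h, x)) ++ Tr.flatMap fun t => List.replicate (i - 1) (hubN h, t.1)

/-- the graph with parameters `i` and `k` hubs; for `k = 0`: the graph with one hub and a
pendant double edge -/
def graphN (Xn : List ℕ) (Tr : List (ℕ × Bool × ℕ × ℕ × ℕ)) (i k : ℕ) : MGraph :=
  if k = 0 then
    (extN :: (Xn ++ (Tr.map fun t => t.1) ++ (List.range 1).map hubN),
      (hubN 0, extN) :: (hubN 0, extN) :: (NEdges Xn Tr i 1 ++ HEdges Xn Tr i 1))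
  else
    (Xn ++ (Tr.map fun t => t.1) ++ (List.range k).map hubN, NEdges Xn Tr i k ++ HEdges Xn Tr i k)

theorem expand_append {α : Type*} (L1 L2 : List (α × α × ℕ)) :
    expand (L1 ++ L2) = expand L1 ++ expand L2 := by
  simp [expand]

theorem flatMap_single {α β : Type*} (L : List α) (f : α → β) :
    L.flatMap (fun x => [f x]) = L.map f := by
  induction L with
  | nil => rfl
  | cons a l ih => simp [List.flatMap_cons, ih]

theorem edges_code (Φ : Sys) (hΦ : Φ.OK) (i k : ℕ) :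
    (expand (edgesK (Φ.Xl ++ Φ.Yl) (rhoN Φ.Xl i) (LN Φ.Xl Φ.Yl Φ.mem Φ.sgn i)
      (hubsK Nm.hub k))).map (fun e => (nm e.1, nm e.2))
      = NEdges (Φ.Xl.map nm) (Φ.Yl.map (codeT Φ)) i k ++
        HEdges (Φ.Xl.map nm) (Φ.Yl.map (codeT Φ)) i k := by
  obtain ⟨_, _, hdis⟩ := List.nodup_append.mp (Sys.nodup_XY hΦ)
  unfold edgesK
  rw [expand_append, List.map_append]
  have hlen : (hubsK Nm.hub k).length = k := by simp [hubsK]
  congr 1
  · unfold expand LN NEdges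
    rw [hlen]
    simp only [List.map_flatMap, List.flatMap_map, List.map_map]
    rw [List.flatMap_assoc]
    congr 1
    funext x
    rw [List.flatMap_map]
    apply List.flatMap_congr
    intro y hy
    simp only [Function.comp_def, List.map_replicate, codeT]
    congr 3
    unfold wN wtN
    have h1 := mem_tr3 Φ hy x
    have h2 : (nm x = nm (tr3 Φ y).1 ∨ nm x = nm (tr3 Φ y).2.1 ∨ nm x = nm (tr3 Φ y).2.2) ↔
        x ∈ Φ.mem y := by
      rw [h1, nm_injective.eq_iff, nm_injective.eq_iff, nm_injective.eq_iff]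
    by_cases h : x ∈ Φ.mem y
    · rw [if_pos h]
      exact (if_pos (h2.2 h)).symm
    · rw [if_neg h]
      exact (if_neg (fun h' => h (h2.1 h'))).symm
  · unfold expand HEdges hubsK
    simp only [List.map_flatMap, List.flatMap_map, List.flatMap_assoc, List.map_map,
      List.flatMap_append, List.map_append, List.map_replicate]
    congr 1
    funext h
    congr 1
    · rw [← flatMap_single]
      apply List.flatMap_congr
      intro x hx
      simp [rhoN, hx, hubN]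
    · apply List.flatMap_congr
      intro y hy
      have : y ∉ Φ.Xl := fun h' => hdis y h' y hy rfl
      simp only [rhoN, this, if_false]
      rfl

/-! ### the count of a renamed graph -/

theorem hub_not_mem (Φ : Sys) (k : ℕ) : Nm.hub k ∉ Φ.Xl ++ Φ.Yl := by
  rw [List.mem_append, Sys.mem_Xl, Sys.mem_Yl]
  simp

theorem ext_not_mem (Φ : Sys) : Nm.ext ∉ Φ.Xl ++ Φ.Yl := by
  rw [List.mem_append, Sys.mem_Xl, Sys.mem_Yl]
  simp

theorem hub_injective : Function.Injective Nm.hub := by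
  intro a b h; simpa using h

theorem spanConn_mono (G : MGraph) {A B : Finset (Fin G.2.length)} (h : A ⊆ B)
    (hA : SpanConn G A) : SpanConn G B := by
  intro u hu v hv
  refine eqvGen_mono' ?_ u v (hA u hu v hv)
  rintro a b ⟨i, hi, h'⟩
  exact .rel _ _ ⟨i, h hi, h'⟩

theorem count_eq {α : Type*} [DecidableEq α] (f : α → ℕ) (hf : Function.Injective f)
    (V : List α) (hV : V.Nodup) (hne : V ≠ []) (E : List (α × α)) :
    (unicyclicCount (V.map f, E.map fun e => (f e.1, f e.2)) : ℚ) = pp V.toFinset E id := by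
  classical
  set G : MGraph := (V.map f, E.map fun e => (f e.1, f e.2)) with hG
  have hne' : G.1 ≠ [] := by simpa [hG] using hne
  have hcard : (V.toFinset.image id).card = V.length := by
    rw [Finset.image_id, List.toFinset_card_of_nodup hV]
  have hren : rc G.1.toFinset G.2 id V.length = rc V.toFinset E id V.length := by
    rw [← rc_rename f hf V.toFinset E id id (fun _ => rfl)]
    congr 1
    ext x
    simp [hG]
  have hlen : G.1.length = V.length := by simp [hG]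
  have key : unicyclicCount G = rc G.1.toFinset G.2 id V.length := by
    unfold unicyclicCount
    rw [card_spanConn G hne', hlen]
  unfold pp
  rw [key, hren, hcard]

/-- multigraphs: nonempty, no repeated vertices, no loops -/
def WF (G : MGraph) : Prop :=
  G.1 ≠ [] ∧ G.1.Nodup ∧ ∀ e ∈ G.2, e.1 ∈ G.1 ∧ e.2 ∈ G.1 ∧ e.1 ≠ e.2

theorem WF_map {α : Type*} (f : α → ℕ) (hf : Function.Injective f)
    (V : List α) (hV : V.Nodup) (hne : V ≠ []) (E : List (α × α))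
    (hE : ∀ e ∈ E, e.1 ∈ V ∧ e.2 ∈ V ∧ e.1 ≠ e.2) :
    WF (V.map f, E.map fun e => (f e.1, f e.2)) := by
  refine ⟨by simpa using hne, hV.map hf, ?_⟩
  intro e he
  obtain ⟨e', he', rfl⟩ := List.mem_map.mp he
  obtain ⟨h1, h2, h3⟩ := hE e' he'
  exact ⟨List.mem_map_of_mem h1, List.mem_map_of_mem h2, fun h => h3 (hf h)⟩

/-- the count is zero for multigraphs that are not connected or have too few edges -/
theorem count_zero (G : MGraph) (hWF : WF G)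
    (h : ¬ (IsConnGraph G ∧ G.1.length ≤ G.2.length)) : unicyclicCount G = 0 := by
  unfold unicyclicCount
  rw [Nat.card_eq_zero]
  left
  refine ⟨?_⟩
  rintro ⟨A, hA1, hA⟩
  apply h
  refine ⟨⟨hWF.1, hWF.2.1, hWF.2.2, spanConn_mono G (Finset.subset_univ A) hA⟩, ?_⟩
  have : A.card ≤ G.2.length := by simpa using Finset.card_le_univ A
  omega

theorem mem_expand' {α : Type*} {L : List (α × α × ℕ)} {e : α × α} (h : e ∈ expand L) :
    ∃ x ∈ L, e = (x.1, x.2.1) := by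
  unfold expand at h
  obtain ⟨x, hx, h'⟩ := List.mem_flatMap.mp h
  exact ⟨x, hx, (List.eq_of_mem_replicate h')⟩

/-- the edges of the hub graphs -/
theorem edges_ok (Φ : Sys) (hΦ : Φ.OK) (i k : ℕ) :
    ∀ e ∈ expand (edgesK (Φ.Xl ++ Φ.Yl) (rhoN Φ.Xl i) (LN Φ.Xl Φ.Yl Φ.mem Φ.sgn i)
      (hubsK Nm.hub k)), e.1 ∈ Φ.Xl ++ Φ.Yl ++ hubsK Nm.hub k ∧
        e.2 ∈ Φ.Xl ++ Φ.Yl ++ hubsK Nm.hub k ∧ e.1 ≠ e.2 := by
  obtain ⟨_, _, hdis⟩ := List.nodup_append.mp (Sys.nodup_XY hΦ)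
  intro e he
  obtain ⟨⟨a, b, c⟩, hx, rfl⟩ := mem_expand' he
  clear he
  show a ∈ _ ∧ b ∈ _ ∧ a ≠ b
  unfold edgesK at hx
  rcases List.mem_append.mp hx with h | h
  · obtain ⟨e', he', h1⟩ := List.mem_map.mp h
    unfold LN at he'
    obtain ⟨x, hxm, he'⟩ := List.mem_flatMap.mp he'
    obtain ⟨y, hym, rfl⟩ := List.mem_map.mp he'
    simp only [Prod.mk.injEq] at h1
    obtain ⟨rfl, rfl, _⟩ := h1
    refine ⟨?_, ?_, ?_⟩
    · simp [hym]
    · simp [hxm]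
    · exact (hdis _ hxm _ hym).symm
  · obtain ⟨h', hh', h2⟩ := List.mem_flatMap.mp h
    obtain ⟨w, hw, h3⟩ := List.mem_map.mp h2
    simp only [Prod.mk.injEq] at h3
    obtain ⟨rfl, rfl, _⟩ := h3
    refine ⟨List.mem_append_right _ hh', List.mem_append_left _ hw, ?_⟩
    intro heq
    obtain ⟨j, _, rfl⟩ := List.mem_map.mp hh'
    rw [← heq] at hw
    exact hub_not_mem Φ j hw

theorem nodup_V (Φ : Sys) (hΦ : Φ.OK) (k : ℕ) : (Φ.Xl ++ Φ.Yl ++ hubsK Nm.hub k).Nodup := by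
  rw [List.nodup_append]
  refine ⟨Sys.nodup_XY hΦ, (List.nodup_range).map hub_injective, ?_⟩
  intro a ha b hb hab
  obtain ⟨j, _, rfl⟩ := List.mem_map.mp hb
  rw [hab] at ha
  exact hub_not_mem Φ j ha

theorem Xl_ne_nil (Φ : Sys) (hΦ : Φ.OK) : Φ.Xl ≠ [] := by
  have : Nm.E 0 ∈ Φ.Xl := by
    rw [Sys.mem_Xl]
    exact Or.inr ⟨0, hΦ.pos, Or.inl rfl⟩
  exact List.ne_nil_of_mem this

/-- the graph with `k ≥ 1` hubs -/
theorem graphN_eq (Φ : Sys) (hΦ : Φ.OK) (i k : ℕ) (hk : 1 ≤ k) :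
    graphN (Φ.Xl.map nm) (Φ.Yl.map (codeT Φ)) i k = ((Φ.Xl ++ Φ.Yl ++ hubsK Nm.hub k).map nm,
      (expand (edgesK (Φ.Xl ++ Φ.Yl) (rhoN Φ.Xl i) (LN Φ.Xl Φ.Yl Φ.mem Φ.sgn i)
      (hubsK Nm.hub k))).map (fun e => (nm e.1, nm e.2))) := by
  rw [edges_code Φ hΦ]
  unfold graphN
  rw [if_neg (by omega)]
  congr 1
  simp [hubsK, codeT, Function.comp_def, hubN]

theorem graphN_WF (Φ : Sys) (hΦ : Φ.OK) (i k : ℕ) (hk : 1 ≤ k) :
    WF (graphN (Φ.Xl.map nm) (Φ.Yl.map (codeT Φ)) i k) := by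
  rw [graphN_eq Φ hΦ i k hk]
  exact WF_map nm nm_injective _ (nodup_V Φ hΦ k) (by simp [Xl_ne_nil Φ hΦ]) _
    (edges_ok Φ hΦ i k)

/-- the count of the graph with `k ≥ 1` hubs -/
theorem count_graphN (Φ : Sys) (hΦ : Φ.OK) (i k : ℕ) (hk : 1 ≤ k) :
    (unicyclicCount (graphN (Φ.Xl.map nm) (Φ.Yl.map (codeT Φ)) i k) : ℚ)
      = Pk Φ.Xl Φ.Yl Φ.mem Φ.sgn Nm.hub i k := by
  rw [graphN_eq Φ hΦ i k hk, count_eq nm nm_injective _ (nodup_V Φ hΦ k)
    (by simp [Xl_ne_nil Φ hΦ])]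
  unfold Pk
  rw [← List.toFinset_append]

theorem graphN_zero_eq (Φ : Sys) (hΦ : Φ.OK) (i : ℕ) :
    graphN (Φ.Xl.map nm) (Φ.Yl.map (codeT Φ)) i 0
      = ((Nm.ext :: (Φ.Xl ++ Φ.Yl ++ hubsK Nm.hub 1)).map nm,
      ((Nm.hub 0, Nm.ext) :: (Nm.hub 0, Nm.ext) ::
      expand (edgesK (Φ.Xl ++ Φ.Yl) (rhoN Φ.Xl i) (LN Φ.Xl Φ.Yl Φ.mem Φ.sgn i)
        (hubsK Nm.hub 1))).map (fun e => (nm e.1, nm e.2))) := by
  rw [List.map_cons, List.map_cons, List.map_cons, edges_code Φ hΦ]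
  unfold graphN
  rw [if_pos rfl]
  congr 1
  simp [hubsK, codeT, Function.comp_def, hubN, extN]

theorem nodup_V_zero (Φ : Sys) (hΦ : Φ.OK) :
    (Nm.ext :: (Φ.Xl ++ Φ.Yl ++ hubsK Nm.hub 1)).Nodup := by
  refine List.nodup_cons.2 ⟨?_, nodup_V Φ hΦ 1⟩
  rw [List.mem_append]
  rintro (h | h)
  · exact ext_not_mem Φ h
  · simp [hubsK] at h

theorem graphN_WF_zero (Φ : Sys) (hΦ : Φ.OK) (i : ℕ) :
    WF (graphN (Φ.Xl.map nm) (Φ.Yl.map (codeT Φ)) i 0) := by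
  rw [graphN_zero_eq Φ hΦ i]
  have hhub : Nm.hub 0 ∈ Φ.Xl ++ Φ.Yl ++ hubsK Nm.hub 1 := by simp [hubsK]
  refine WF_map nm nm_injective _ (nodup_V_zero Φ hΦ) (by simp) _ ?_
  have hz : (Nm.hub 0, Nm.ext).1 ∈ Nm.ext :: (Φ.Xl ++ Φ.Yl ++ hubsK Nm.hub 1) ∧
      (Nm.hub 0, Nm.ext).2 ∈ Nm.ext :: (Φ.Xl ++ Φ.Yl ++ hubsK Nm.hub 1) ∧
      (Nm.hub 0, Nm.ext).1 ≠ (Nm.hub 0, Nm.ext).2 :=
    ⟨List.mem_cons_of_mem _ hhub, List.mem_cons_self .., by simp⟩
  intro e he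
  rcases List.mem_cons.mp he with rfl | he
  · exact hz
  rcases List.mem_cons.mp he with rfl | he
  · exact hz
  · obtain ⟨h1, h2, h3⟩ := edges_ok Φ hΦ i 1 e he
    exact ⟨List.mem_cons_of_mem _ h1, List.mem_cons_of_mem _ h2, h3⟩

/-- the count of the graph with a pendant double edge -/
theorem count_graphN_zero (Φ : Sys) (hΦ : Φ.OK) (i : ℕ) :
    (unicyclicCount (graphN (Φ.Xl.map nm) (Φ.Yl.map (codeT Φ)) i 0) : ℚ)
      = Pplus Φ.Xl Φ.Yl Φ.mem Φ.sgn Nm.hub Nm.ext i := by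
  rw [graphN_zero_eq Φ hΦ i, count_eq nm nm_injective _ (nodup_V_zero Φ hΦ) (by simp)]
  unfold Pplus
  rw [← List.toFinset_append, ← List.toFinset_cons]

theorem graphN_WF' (Φ : Sys) (hΦ : Φ.OK) (i k : ℕ) :
    WF (graphN (Φ.Xl.map nm) (Φ.Yl.map (codeT Φ)) i k) := by
  rcases Nat.eq_zero_or_pos k with rfl | hk
  · exact graphN_WF_zero Φ hΦ i
  · exact graphN_WF Φ hΦ i k hk

/-- the exponent bound `D + 1` -/
def DD (p q : ℕ) : ℕ := 2 * (p + q) + 2 * (p * q) + 1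

open Classical in
/-- the number of models from the answers -/
theorem main_formula0 (Φ : Sys) (hΦ : Φ.OK) (g : ℕ → ℕ → ℕ)
    (hg : ∀ i k, g i k = unicyclicCount (graphN (Φ.Xl.map nm) (Φ.Yl.map (codeT Φ)) i k)) :
    (-2 : ℚ) ^ Φ.Yl.length * (∑ T ∈ Φ.rs.toFinset.powerset with Φ.Sat T,
      ∏ j ∈ T, (if Φ.s j then (-1 : ℚ) else 1))
      = ∑ i ∈ Icc 1 (DD Φ.Xl.length Φ.Yl.length),
        (-1) ^ (i + 1) * ((DD Φ.Xl.length Φ.Yl.length).choose i : ℚ) *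
        (thetaF (Φ.Xl.length + Φ.Yl.length) ((Φ.Xl.length : ℚ) + Φ.Yl.length * ((i : ℚ) - 1))
          (fun k => g i k) (g i 0) / (i : ℚ) ^ Φ.Xl.length) := by
  have h1 := core Φ.Xl Φ.Yl (Sys.nodup_XY hΦ) (Xl_ne_nil Φ hΦ) Φ.mem Φ.sgn (Sys.mem_card hΦ)
    Nm.hub hub_injective (fun k h => hub_not_mem Φ k (by simpa using h)) Nm.ext
    (fun h => ext_not_mem Φ (by simpa using h)) (by simp)
  rw [Sys.coverSum_eq hΦ] at h1
  rw [h1]
  have hlen : (Φ.Xl ++ Φ.Yl).length = Φ.Xl.length + Φ.Yl.length := List.length_append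
  rw [hlen]
  unfold DD
  apply Finset.sum_congr rfl
  intro i hi
  have hX : 0 < Φ.Xl.length := List.length_pos_iff.mpr (Xl_ne_nil Φ hΦ)
  have hth : thetaF (Φ.Xl.length + Φ.Yl.length) ((Φ.Xl.length : ℚ) + Φ.Yl.length * ((i : ℚ) - 1))
      (Pk Φ.Xl Φ.Yl Φ.mem Φ.sgn Nm.hub i) (Pplus Φ.Xl Φ.Yl Φ.mem Φ.sgn Nm.hub Nm.ext i)
      = thetaF (Φ.Xl.length + Φ.Yl.length) ((Φ.Xl.length : ℚ) + Φ.Yl.length * ((i : ℚ) - 1))
          (fun k => g i k) (g i 0) := by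
    unfold thetaF
    have h0 : ((g i 0 : ℕ) : ℚ) = Pplus Φ.Xl Φ.Yl Φ.mem Φ.sgn Nm.hub Nm.ext i := by
      rw [hg, count_graphN_zero Φ hΦ]
    have h1 : ∀ k, 1 ≤ k → ((g i k : ℕ) : ℚ) = Pk Φ.Xl Φ.Yl Φ.mem Φ.sgn Nm.hub i k := by
      intro k hk
      rw [hg, count_graphN Φ hΦ i k hk]
    beta_reduce
    rw [h0, h1 1 le_rfl]
    congr 1
    apply Finset.sum_congr rfl
    intro k hk
    rw [h1 k (Finset.mem_Icc.mp hk).1]
  rw [hth]

theorem main_formula (φ : CNF ℕ) (g : ℕ → ℕ → ℕ)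
    (hg : ∀ i k, g i k = unicyclicCount
      (graphN ((sysOf φ).Xl.map nm) ((sysOf φ).Yl.map (codeT (sysOf φ))) i k)) :
    (-2 : ℚ) ^ (sysOf φ).Yl.length * (3 * satCount φ)
      = ∑ i ∈ Icc 1 (DD (sysOf φ).Xl.length (sysOf φ).Yl.length),
        (-1) ^ (i + 1) * ((DD (sysOf φ).Xl.length (sysOf φ).Yl.length).choose i : ℚ) *
        (thetaF ((sysOf φ).Xl.length + (sysOf φ).Yl.length)
          (((sysOf φ).Xl.length : ℚ) + (sysOf φ).Yl.length * ((i : ℚ) - 1))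
          (fun k => g i k) (g i 0) / (i : ℚ) ^ (sysOf φ).Xl.length) := by
  have h := main_formula0 (sysOf φ) (sysOf_OK φ) g hg
  rw [sum_sys φ] at h
  exact h

end Pool.Agent.Uni
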