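import Pool.Agent.H527R2.SharpP

/-!
# Products, powers, factorials and binomial coefficients in polynomial time
-/

namespace Pool.Agent.NPC.Uc

variable {α β : Type} [TEnc α] [TEnc β]

theorem size_mul_le (m n : ℕ) : (m * n).size ≤ m.size + n.size := by
  rw [Nat.size_le, pow_add]
  exact Nat.mul_lt_mul'' (Nat.lt_size_self m) (Nat.lt_size_self n)

theorem poly_prod {l : α → List ℕ} (hl : Poly l) : Poly (fun a => (l a).prod) := by
  obtain ⟨r, hr⟩ := hl.sz_le
  refine (Poly.foldr (s := fun _ => 1) (F := fun _ x s => x * s) hl (Poly.const 1)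
    (Poly.mul (Poly.fst (Poly.snd Poly.id)) (Poly.snd (Poly.snd Poly.id)))
    (Polynomial.C 4 * r + Polynomial.C 5) ?_).congr fun a => ?_
  · intro a k hk
    have key : ∀ l : List ℕ, (l.foldr (fun x s => x * s) 1).size ≤ sz l + 1 := by
      intro l
      induction l with
      | nil => simp
      | cons x l ih =>
        rw [List.foldr_cons]
        set s := l.foldr (fun x s => x * s) 1
        have h1 := size_mul_le x s
        have h5 := size_le_sz x
        simp
        omega
    have h1 := sz_nat_le (((l a).drop k).foldr (fun x s => x * s) 1)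
    have h2 := key ((l a).drop k)
    have h3 := Poly.sz_drop_le (l a) k
    have h4 := hr a
    simp only [Polynomial.eval_add, Polynomial.eval_mul, Polynomial.eval_C]
    omega
  · rw [List.prod_eq_foldr]

theorem upoly_min {b e : α → ℕ} (hb : UPoly b) (he : Poly e) :
    UPoly (fun a => min (e a) (b a)) :=
  UPoly.of_le (Poly.min he hb.toPoly) hb (fun a => min_le_right _ _)

theorem upoly_sub {b e : α → ℕ} (hb : UPoly b) (he : Poly e) :
    UPoly (fun a => b a - e a) :=
  UPoly.of_le (Poly.sub hb.toPoly he) hb (fun a => Nat.sub_le _ _)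

theorem poly_replicate {n : α → ℕ} {f : α → β} (hn : UPoly n) (hf : Poly f) :
    Poly (fun a => List.replicate (n a) (f a)) :=
  (Poly.map (F := fun a (_ : Unit) => f a) hn (hf.comp (Poly.fst Poly.id))).congr fun a => by simp

theorem poly_upow {n x : α → ℕ} (hn : UPoly n) (hx : Poly x) : Poly (fun a => x a ^ n a) :=
  (poly_prod (poly_replicate hn hx)).congr fun a => by simp

/-- bounded powers -/
def pw (b x e : ℕ) : ℕ := x ^ min e b

theorem poly_pw {b x e : α → ℕ} (hb : UPoly b) (hx : Poly x) (he : Poly e) :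
    Poly (fun a => pw (b a) (x a) (e a)) := poly_upow (upoly_min hb he) hx

theorem pw_eq {b e : ℕ} (x : ℕ) (h : e ≤ b) : pw b x e = x ^ e := by
  unfold pw; rw [min_eq_left h]

theorem poly_ufact {n : α → ℕ} (hn : UPoly n) : Poly (fun a => (n a).factorial) :=
  (poly_prod (Poly.map (F := fun _ k => k + 1) hn.range (Poly.succ (Poly.snd Poly.id)))).congr
    fun a => by
      show ((List.range (n a)).map (fun k => k + 1)).prod = _
      generalize n a = m
      induction m with
      | zero => simp
      | succ m ih =>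
        rw [List.range_succ, List.map_append, List.prod_append, ih, Nat.factorial_succ]
        simp [mul_comm]

/-- bounded factorials -/
def fc (b n : ℕ) : ℕ := (min n b).factorial

theorem poly_fc {b n : α → ℕ} (hb : UPoly b) (hn : Poly n) :
    Poly (fun a => fc (b a) (n a)) := poly_ufact (upoly_min hb hn)

theorem fc_eq {b n : ℕ} (h : n ≤ b) : fc b n = n.factorial := by
  unfold fc; rw [min_eq_left h]

/-- bounded binomial coefficients -/
def ch (b m k : ℕ) : ℕ := if k ≤ m then fc b m / (fc b k * fc b (m - k)) else 0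

theorem poly_ch {b m k : α → ℕ} (hb : UPoly b) (hm : Poly m) (hk : Poly k) :
    Poly (fun a => ch (b a) (m a) (k a)) := by
  unfold ch
  exact Poly.ite (Poly.decide_le hk hm) (Poly.div (poly_fc hb hm)
    (Poly.mul (poly_fc hb hk) (poly_fc hb (Poly.sub hm hk)))) (Poly.const 0)

theorem ch_eq {b m : ℕ} (k : ℕ) (h : m ≤ b) : ch b m k = m.choose k := by
  unfold ch
  split_ifs with h1
  · rw [fc_eq h, fc_eq (h1.trans h), fc_eq ((Nat.sub_le _ _).trans h), Nat.choose_eq_factorial_div_factorial h1]
  · rw [Nat.choose_eq_zero_of_lt (by omega)]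

/-- natural number version of the coefficients `cf` -/
def cfN (b T k n : ℕ) : ℕ :=
  ((List.range (T + 1)).map fun m => if 2 ≤ m ∧ k ≤ m then
    2 * pw b n (m - k) * ch b m k * (fc b T / fc b (m - 2)) * (fc b T / fc b (m - 1)) *
      (pw b (fc b T / k) (T + 1 - m) * pw b (fc b T) m) else 0).sum

theorem poly_cfN {b T k n : α → ℕ} (hb : UPoly b) (hT : UPoly T) (hk : Poly k) (hn : Poly n) :
    Poly (fun a => cfN (b a) (T a) (k a) (n a)) := by
  unfold cfN
  apply Poly.sum
  have f1 : Poly (fun x : α × ℕ => x.1) := Poly.fst Poly.id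
  have hm : Poly (fun x : α × ℕ => x.2) := Poly.snd Poly.id
  have hb' : UPoly (fun x : α × ℕ => b x.1) := hb.comp f1
  have hT' : Poly (fun x : α × ℕ => T x.1) := hT.toPoly.comp f1
  have hk' : Poly (fun x : α × ℕ => k x.1) := hk.comp f1
  have hn' : Poly (fun x : α × ℕ => n x.1) := hn.comp f1
  have hf := poly_fc hb' hT'
  refine Poly.map (F := fun a m => if 2 ≤ m ∧ k a ≤ m then
    2 * pw (b a) (n a) (m - k a) * ch (b a) m (k a) * (fc (b a) (T a) / fc (b a) (m - 2)) *
      (fc (b a) (T a) / fc (b a) (m - 1)) *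
      (pw (b a) (fc (b a) (T a) / k a) (T a + 1 - m) * pw (b a) (fc (b a) (T a)) m) else 0)
    (UPoly.add hT (UPoly.const 1)).range ?_
  refine Poly.ite (Poly.decide_and (Poly.decide_le (Poly.const 2) hm) (Poly.decide_le hk' hm))
    ?_ (Poly.const 0)
  refine Poly.mul (Poly.mul (Poly.mul (Poly.mul (Poly.mul (Poly.const 2)
    (poly_pw hb' hn' (Poly.sub hm hk'))) (poly_ch hb' hm hk'))
    (Poly.div hf (poly_fc hb' (Poly.sub hm (Poly.const 2)))))
    (Poly.div hf (poly_fc hb' (Poly.sub hm (Poly.const 1)))))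
    (Poly.mul (poly_pw hb' (Poly.div hf hk') (Poly.sub (Poly.succ hT') hm)) (poly_pw hb' hf hm))

end Pool.Agent.NPC.Uc
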