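import Pool.Agent.H527R2.UniO
import Pool.Agent.H527R2.UniP

/-!
# The arithmetic of the reduction in natural numbers
-/

namespace Pool.Agent.NPC.Uc

open Finset Pool.Agent.Uni

/-! ### The coefficients -/

/-- bound for all exponents -/
def bb (p q : ℕ) : ℕ := DD p q + (p + q) + 3

def niN (p q i : ℕ) : ℕ := p + q * (i - 1)

def eN (p q i : ℕ) : ℕ :=
  pw (bb p q) (fc (bb p q) (p + q)) (p + q + 3) * (1 + niN p q i * (p + q - 2))

def aN (p q i : ℕ) : ℕ :=
  ch (bb p q) (DD p q) i * pw (bb p q) (fc (bb p q) (DD p q) / i) p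

def posN (p q i k : ℕ) : ℕ :=
  if k = 0 then eN p q i else if k % 2 = 1 then cfN (bb p q) (p + q) k (niN p q i) else 0

def negN (p q i k : ℕ) : ℕ :=
  if k = 0 then 0 else if k = 1 then 2 * eN p q i else
    if k % 2 = 0 then cfN (bb p q) (p + q) k (niN p q i) else 0

def wP (p q i k : ℕ) : ℕ := aN p q i * (if i % 2 = 1 then posN p q i k else negN p q i k)

def wM (p q i k : ℕ) : ℕ := aN p q i * (if i % 2 = 1 then negN p q i k else posN p q i k)

def fin (p q A B : ℕ) : ℕ :=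
  ((A - B) + (B - A)) / (pw (bb p q) (fc (bb p q) (p + q)) (p + q + 3) *
    pw (bb p q) (fc (bb p q) (DD p q)) p * pw (bb p q) 2 q * 3)

/-! ### Polynomial time -/

section poly

variable {α : Type} [TEnc α] {p q i k A B : α → ℕ}

theorem poly_DD (hp : UPoly p) (hq : UPoly q) : UPoly (fun a => DD (p a) (q a)) :=
  UPoly.add (UPoly.add (UPoly.mul (UPoly.const 2) (UPoly.add hp hq))
    (UPoly.mul (UPoly.const 2) (UPoly.mul hp hq))) (UPoly.const 1)

theorem poly_bb (hp : UPoly p) (hq : UPoly q) : UPoly (fun a => bb (p a) (q a)) :=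
  UPoly.add (UPoly.add (poly_DD hp hq) (UPoly.add hp hq)) (UPoly.const 3)

theorem poly_niN (hp : UPoly p) (hq : UPoly q) (hi : Poly i) :
    Poly (fun a => niN (p a) (q a) (i a)) :=
  Poly.add hp.toPoly (Poly.mul hq.toPoly (Poly.sub hi (Poly.const 1)))

theorem poly_fT (hp : UPoly p) (hq : UPoly q) :
    Poly (fun a => pw (bb (p a) (q a)) (fc (bb (p a) (q a)) (p a + q a)) (p a + q a + 3)) :=
  poly_pw (poly_bb hp hq) (poly_fc (poly_bb hp hq) (UPoly.add hp hq).toPoly)
    (UPoly.add (UPoly.add hp hq) (UPoly.const 3)).toPoly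

theorem poly_eN (hp : UPoly p) (hq : UPoly q) (hi : Poly i) :
    Poly (fun a => eN (p a) (q a) (i a)) :=
  Poly.mul (poly_fT hp hq) (Poly.add (Poly.const 1) (Poly.mul (poly_niN hp hq hi)
    (Poly.sub (UPoly.add hp hq).toPoly (Poly.const 2))))

theorem poly_aN (hp : UPoly p) (hq : UPoly q) (hi : Poly i) :
    Poly (fun a => aN (p a) (q a) (i a)) :=
  Poly.mul (poly_ch (poly_bb hp hq) (poly_DD hp hq).toPoly hi) (poly_pw (poly_bb hp hq)
    (Poly.div (poly_fc (poly_bb hp hq) (poly_DD hp hq).toPoly) hi) hp.toPoly)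

theorem poly_cN (hp : UPoly p) (hq : UPoly q) (hi : Poly i) (hk : Poly k) :
    Poly (fun a => cfN (bb (p a) (q a)) (p a + q a) (k a) (niN (p a) (q a) (i a))) :=
  poly_cfN (poly_bb hp hq) (UPoly.add hp hq) hk (poly_niN hp hq hi)

theorem poly_posN (hp : UPoly p) (hq : UPoly q) (hi : Poly i) (hk : Poly k) :
    Poly (fun a => posN (p a) (q a) (i a) (k a)) := by
  unfold posN
  exact Poly.ite (Poly.decide_eq hk (Poly.const 0)) (poly_eN hp hq hi)
    (Poly.ite (Poly.decide_eq (Poly.mod hk (Poly.const 2)) (Poly.const 1)) (poly_cN hp hq hi hk)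
      (Poly.const 0))

theorem poly_negN (hp : UPoly p) (hq : UPoly q) (hi : Poly i) (hk : Poly k) :
    Poly (fun a => negN (p a) (q a) (i a) (k a)) := by
  unfold negN
  exact Poly.ite (Poly.decide_eq hk (Poly.const 0)) (Poly.const 0)
    (Poly.ite (Poly.decide_eq hk (Poly.const 1)) (Poly.mul (Poly.const 2) (poly_eN hp hq hi))
    (Poly.ite (Poly.decide_eq (Poly.mod hk (Poly.const 2)) (Poly.const 0)) (poly_cN hp hq hi hk)
      (Poly.const 0)))

theorem poly_wP (hp : UPoly p) (hq : UPoly q) (hi : Poly i) (hk : Poly k) :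
    Poly (fun a => wP (p a) (q a) (i a) (k a)) := by
  unfold wP
  exact Poly.mul (poly_aN hp hq hi) (Poly.ite
    (Poly.decide_eq (Poly.mod hi (Poly.const 2)) (Poly.const 1)) (poly_posN hp hq hi hk)
    (poly_negN hp hq hi hk))

theorem poly_wM (hp : UPoly p) (hq : UPoly q) (hi : Poly i) (hk : Poly k) :
    Poly (fun a => wM (p a) (q a) (i a) (k a)) := by
  unfold wM
  exact Poly.mul (poly_aN hp hq hi) (Poly.ite
    (Poly.decide_eq (Poly.mod hi (Poly.const 2)) (Poly.const 1)) (poly_negN hp hq hi hk)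
    (poly_posN hp hq hi hk))

theorem poly_fin (hp : UPoly p) (hq : UPoly q) (hA : Poly A) (hB : Poly B) :
    Poly (fun a => fin (p a) (q a) (A a) (B a)) := by
  unfold fin
  exact Poly.div (Poly.add (Poly.sub hA hB) (Poly.sub hB hA)) (Poly.mul (Poly.mul (Poly.mul
    (poly_fT hp hq) (poly_pw (poly_bb hp hq) (poly_fc (poly_bb hp hq) (poly_DD hp hq).toPoly)
      hp.toPoly)) (poly_pw (poly_bb hp hq) (Poly.const 2) hq.toPoly)) (Poly.const 3))

end poly

/-! ### Correctness -/

theorem cfN_eq {b T k : ℕ} (hk : 1 ≤ k) (hkT : k ≤ T) (hb : T + 3 ≤ b) (n : ℕ) :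
    (cfN b T k n : ℚ) = (T.factorial : ℚ) ^ (T + 3) * cf T k n := by
  unfold cfN cf
  have hset : Icc (max k 2) T = (Finset.range (T + 1)).filter (fun m => 2 ≤ m ∧ k ≤ m) := by
    ext m
    simp only [Finset.mem_Icc, Finset.mem_filter, Finset.mem_range, max_le_iff]
    constructor
    · rintro ⟨⟨h1, h2⟩, h3⟩; exact ⟨by omega, h2, h1⟩
    · rintro ⟨h1, h2, h3⟩; exact ⟨⟨h3, h2⟩, by omega⟩
  rw [hset, Finset.sum_filter, Finset.mul_sum]
  have hlist : ∀ F : ℕ → ℕ, ((List.range (T + 1)).map F).sum = ∑ m ∈ Finset.range (T + 1), F m :=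
    fun F => rfl
  rw [hlist]
  push_cast
  apply Finset.sum_congr rfl
  intro m hm
  have hm' : m ≤ T := by have := Finset.mem_range.mp hm; omega
  split_ifs with h
  · obtain ⟨h2, hkm⟩ := h
    have hF : (T.factorial : ℚ) ≠ 0 := by exact_mod_cast T.factorial_ne_zero
    have hk0 : (k : ℚ) ≠ 0 := by positivity
    have hf2 : ((m - 2).factorial : ℚ) ≠ 0 := by exact_mod_cast (m - 2).factorial_ne_zero
    have hf1 : ((m - 1).factorial : ℚ) ≠ 0 := by exact_mod_cast (m - 1).factorial_ne_zero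
    rw [pw_eq n (by omega), ch_eq k (by omega), fc_eq (by omega : T ≤ b),
      fc_eq (by omega : m - 2 ≤ b), fc_eq (by omega : m - 1 ≤ b), pw_eq _ (by omega : T + 1 - m ≤ b),
      pw_eq _ (by omega : m ≤ b)]
    rw [Nat.cast_pow, Nat.cast_div (Nat.factorial_dvd_factorial (by omega)) hf2,
      Nat.cast_div (Nat.factorial_dvd_factorial (by omega)) hf1, Nat.cast_pow, Nat.cast_pow,
      Nat.cast_div (Nat.dvd_factorial (by omega) (by omega)) hk0]
    have hpow : (T.factorial : ℚ) ^ (T + 3) = (T.factorial : ℚ) * (T.factorial : ℚ) *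
        ((T.factorial : ℚ) ^ (T + 1 - m) * (T.factorial : ℚ) ^ m) := by
      rw [← pow_add, show T + 1 - m + m = T + 1 by omega]
      ring
    rw [hpow, div_pow]
    field_simp
  · simp

theorem theta_N {p q i : ℕ} (hT : 2 ≤ p + q) (hi : 1 ≤ i) (g : ℕ → ℕ) :
    ∑ k ∈ Finset.range (p + q + 1), (g k : ℚ) * ((posN p q i k : ℚ) - (negN p q i k : ℚ))
      = ((p + q).factorial : ℚ) ^ (p + q + 3) *
        thetaF (p + q) ((p : ℚ) + q * ((i : ℚ) - 1)) (fun k => g k) (g 0) := by
  have hn : ((niN p q i : ℕ) : ℚ) = (p : ℚ) + q * ((i : ℚ) - 1) := by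
    unfold niN; push_cast [Nat.cast_sub hi]; ring
  have hb : p + q + 3 ≤ bb p q := by unfold bb; omega
  have he : ((eN p q i : ℕ) : ℚ) = ((p + q).factorial : ℚ) ^ (p + q + 3) *
      (1 + ((p : ℚ) + q * ((i : ℚ) - 1)) * (((p + q : ℕ) : ℚ) - 2)) := by
    unfold eN
    rw [pw_eq _ hb, fc_eq (by omega)]
    rw [← hn]
    push_cast [Nat.cast_sub hT]
    ring
  have hc : ∀ k, 1 ≤ k → k ≤ p + q → ((cfN (bb p q) (p + q) k (niN p q i) : ℕ) : ℚ)
      = ((p + q).factorial : ℚ) ^ (p + q + 3) * cf (p + q) k ((p : ℚ) + q * ((i : ℚ) - 1)) := by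
    intro k h1 h2
    rw [cfN_eq h1 h2 hb, hn]
  rw [Finset.sum_range_succ']
  have h0 : ((posN p q i 0 : ℕ) : ℚ) - ((negN p q i 0 : ℕ) : ℚ) = eN p q i := by
    simp [posN, negN]
  rw [h0]
  -- the remaining sum
  have hk : ∀ k ∈ Finset.range (p + q), (g (k + 1) : ℚ) *
      (((posN p q i (k + 1) : ℕ) : ℚ) - ((negN p q i (k + 1) : ℕ) : ℚ))
      = ((p + q).factorial : ℚ) ^ (p + q + 3) * ((-1) ^ (k + 1 + 1) * (g (k + 1) : ℚ) *
        cf (p + q) (k + 1) ((p : ℚ) + q * ((i : ℚ) - 1))) - (if k = 0 then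
          2 * (eN p q i : ℚ) * (g 1 : ℚ) else 0) := by
    intro k hk
    have hk' : k < p + q := Finset.mem_range.mp hk
    have hck := hc (k + 1) (by omega) (by omega)
    rcases Nat.eq_zero_or_pos k with rfl | hkpos
    · have e1 : posN p q i (0 + 1) = cfN (bb p q) (p + q) (0 + 1) (niN p q i) := by simp [posN]
      have e2 : negN p q i (0 + 1) = 2 * eN p q i := by simp [negN]
      rw [e1, e2, hck, if_pos rfl]
      push_cast
      ring
    · rw [if_neg (by omega), sub_zero]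
      rcases Nat.even_or_odd k with hev | hod
      · have hpar : (k + 1) % 2 = 1 := by have := Nat.even_iff.mp hev; omega
        have e1 : posN p q i (k + 1) = cfN (bb p q) (p + q) (k + 1) (niN p q i) := by
          simp [posN, hpar]
        have e2 : negN p q i (k + 1) = 0 := by
          unfold negN
          rw [if_neg (by omega), if_neg (by omega), if_neg (by omega)]
        rw [e1, e2, hck]
        have : (-1 : ℚ) ^ (k + 1 + 1) = 1 := by
          rw [show k + 1 + 1 = k + 2 by ring, pow_add, hev.neg_one_pow]; norm_num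
        rw [this]
        push_cast
        ring
      · have hpar : (k + 1) % 2 = 0 := by have := Nat.odd_iff.mp hod; omega
        have e1 : posN p q i (k + 1) = 0 := by
          unfold posN
          rw [if_neg (by omega), if_neg (by omega)]
        have e2 : negN p q i (k + 1) = cfN (bb p q) (p + q) (k + 1) (niN p q i) := by
          unfold negN
          rw [if_neg (by omega), if_neg (by omega), if_pos hpar]
        rw [e1, e2, hck]
        have : (-1 : ℚ) ^ (k + 1 + 1) = -1 := by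
          rw [show k + 1 + 1 = k + 2 by ring, pow_add, hod.neg_one_pow]; norm_num
        rw [this]
        push_cast
        ring
  rw [Finset.sum_congr rfl hk, Finset.sum_sub_distrib, ← Finset.mul_sum]
  have hite : ∑ k ∈ Finset.range (p + q), (if k = 0 then 2 * (eN p q i : ℚ) * (g 1 : ℚ) else 0)
      = 2 * (eN p q i : ℚ) * (g 1 : ℚ) := by
    rw [Finset.sum_ite_eq' (Finset.range (p + q)) 0 (fun _ => 2 * (eN p q i : ℚ) * (g 1 : ℚ)),
      if_pos (Finset.mem_range.mpr (by omega))]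
  rw [hite]
  have hIcc : ∑ k ∈ Icc 1 (p + q), (-1) ^ (k + 1) * (g k : ℚ) *
      cf (p + q) k ((p : ℚ) + q * ((i : ℚ) - 1))
      = ∑ k ∈ Finset.range (p + q), (-1) ^ (k + 1 + 1) * (g (k + 1) : ℚ) *
        cf (p + q) (k + 1) ((p : ℚ) + q * ((i : ℚ) - 1)) := by
    rw [Finset.range_eq_Ico, Finset.sum_Ico_add' (fun k => (-1) ^ (k + 1) * (g k : ℚ) *
      cf (p + q) k ((p : ℚ) + q * ((i : ℚ) - 1))) 0 (p + q) 1]
    rfl
  unfold thetaF
  rw [hIcc, he]
  ring

theorem sum_divmod {M : Type*} [AddCommMonoid M] (F : ℕ → ℕ → M) (T : ℕ) : ∀ D : ℕ,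
    ∑ t ∈ Finset.range (D * (T + 1)), F (t / (T + 1)) (t % (T + 1))
      = ∑ i ∈ Finset.range D, ∑ k ∈ Finset.range (T + 1), F i k := by
  intro D
  induction D with
  | zero => simp
  | succ D ih =>
    rw [Finset.sum_range_succ, ← ih, Nat.succ_mul, Finset.sum_range_add]
    congr 1
    apply Finset.sum_congr rfl
    intro k hk
    have hk' : k < T + 1 := Finset.mem_range.mp hk
    rw [mul_comm D (T + 1), Nat.mul_add_div (by omega), Nat.mul_add_mod, Nat.div_eq_of_lt hk',
      Nat.mod_eq_of_lt hk', add_zero]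

/-- `a_i` -/
theorem aN_eq {p q i : ℕ} (hi : 1 ≤ i) (hiD : i ≤ DD p q) :
    ((aN p q i : ℕ) : ℚ) = ((DD p q).factorial : ℚ) ^ p * ((DD p q).choose i : ℚ) /
      (i : ℚ) ^ p := by
  unfold aN
  have hi0 : (i : ℚ) ≠ 0 := by positivity
  rw [ch_eq i (by unfold bb; omega), pw_eq _ (by unfold bb; omega : p ≤ bb p q),
    fc_eq (by unfold bb; omega), Nat.cast_mul, Nat.cast_pow,
    Nat.cast_div (Nat.dvd_factorial (by omega) hiD) hi0, div_pow]
  ring

theorem sum_weights {p q : ℕ} (hT : 2 ≤ p + q) (g : ℕ → ℕ → ℕ) :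
    ((∑ t ∈ Finset.range (DD p q * (p + q + 1)),
        g (t / (p + q + 1) + 1) (t % (p + q + 1)) *
          wP p q (t / (p + q + 1) + 1) (t % (p + q + 1)) : ℕ) : ℚ) -
      ((∑ t ∈ Finset.range (DD p q * (p + q + 1)),
        g (t / (p + q + 1) + 1) (t % (p + q + 1)) *
          wM p q (t / (p + q + 1) + 1) (t % (p + q + 1)) : ℕ) : ℚ)
      = ((p + q).factorial : ℚ) ^ (p + q + 3) * ((DD p q).factorial : ℚ) ^ p *
        ∑ i ∈ Icc 1 (DD p q), (-1) ^ (i + 1) * ((DD p q).choose i : ℚ) *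
          (thetaF (p + q) ((p : ℚ) + q * ((i : ℚ) - 1)) (fun k => g i k) (g i 0) /
            (i : ℚ) ^ p) := by
  rw [sum_divmod (fun i k => g (i + 1) k * wP p q (i + 1) k) (p + q) (DD p q),
    sum_divmod (fun i k => g (i + 1) k * wM p q (i + 1) k) (p + q) (DD p q)]
  push_cast
  rw [← Finset.sum_sub_distrib]
  have hIcc : ∑ i ∈ Icc 1 (DD p q), (-1) ^ (i + 1) * ((DD p q).choose i : ℚ) *
          (thetaF (p + q) ((p : ℚ) + q * ((i : ℚ) - 1)) (fun k => g i k) (g i 0) / (i : ℚ) ^ p)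
      = ∑ i ∈ Finset.range (DD p q), (-1) ^ (i + 1 + 1) * ((DD p q).choose (i + 1) : ℚ) *
          (thetaF (p + q) ((p : ℚ) + q * (((i + 1 : ℕ) : ℚ) - 1)) (fun k => g (i + 1) k)
            (g (i + 1) 0) / ((i + 1 : ℕ) : ℚ) ^ p) := by
    rw [Finset.range_eq_Ico, Finset.sum_Ico_add' (fun i => (-1) ^ (i + 1) *
      ((DD p q).choose i : ℚ) * (thetaF (p + q) ((p : ℚ) + q * ((i : ℚ) - 1))
        (fun k => g i k) (g i 0) / (i : ℚ) ^ p)) 0 (DD p q) 1]
    rfl
  rw [hIcc, Finset.mul_sum]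
  apply Finset.sum_congr rfl
  intro i hi
  have hi' : i < DD p q := Finset.mem_range.mp hi
  rw [← Finset.sum_sub_distrib]
  have hth := theta_N hT (by omega : 1 ≤ i + 1) (fun k => g (i + 1) k)
  have hterm : ∀ k ∈ Finset.range (p + q + 1),
      (g (i + 1) k : ℚ) * (wP p q (i + 1) k : ℚ) - (g (i + 1) k : ℚ) * (wM p q (i + 1) k : ℚ)
      = (-1) ^ (i + 1 + 1) * (aN p q (i + 1) : ℚ) * ((g (i + 1) k : ℚ) *
        ((posN p q (i + 1) k : ℚ) - (negN p q (i + 1) k : ℚ))) := by
    intro k _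
    unfold wP wM
    rcases Nat.even_or_odd i with hev | hod
    · have hpar : (i + 1) % 2 = 1 := by have := Nat.even_iff.mp hev; omega
      rw [if_pos hpar, if_pos hpar]
      have : (-1 : ℚ) ^ (i + 1 + 1) = 1 := by
        rw [show i + 1 + 1 = i + 2 by ring, pow_add, hev.neg_one_pow]; norm_num
      rw [this]; push_cast; ring
    · have hpar : ¬ (i + 1) % 2 = 1 := by have := Nat.odd_iff.mp hod; omega
      rw [if_neg hpar, if_neg hpar]
      have : (-1 : ℚ) ^ (i + 1 + 1) = -1 := by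
        rw [show i + 1 + 1 = i + 2 by ring, pow_add, hod.neg_one_pow]; norm_num
      rw [this]; push_cast; ring
  rw [Finset.sum_congr rfl hterm, ← Finset.mul_sum, hth, aN_eq (by omega) (by omega)]
  ring

theorem fin_eq {p q A B s : ℕ}
    (h : (A : ℚ) - B = ((p + q).factorial : ℚ) ^ (p + q + 3) * ((DD p q).factorial : ℚ) ^ p *
      ((-2 : ℚ) ^ q * (3 * s))) : fin p q A B = s := by
  unfold fin
  rw [pw_eq _ (by unfold bb; omega : p + q + 3 ≤ bb p q), pw_eq _ (by unfold bb; omega : p ≤ bb p q),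
    pw_eq _ (by unfold bb; omega : q ≤ bb p q), fc_eq (by unfold bb; omega : p + q ≤ bb p q),
    fc_eq (by unfold bb; omega : DD p q ≤ bb p q)]
  set C := (p + q).factorial ^ (p + q + 3) * (DD p q).factorial ^ p * 2 ^ q * 3 with hC
  have hCpos : 0 < C := by
    have := (p + q).factorial_pos
    have := (DD p q).factorial_pos
    positivity
  have hkey : (A - B) + (B - A) = C * s := by
    have h2 : (-2 : ℚ) ^ q = (-1) ^ q * 2 ^ q := by
      rw [show (-2 : ℚ) = (-1) * 2 by norm_num, mul_pow]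
    rcases neg_one_pow_eq_or ℚ q with h3 | h3
    · rw [h2, h3] at h
      have h4 : (A : ℚ) = B + C * s := by
        rw [hC]; push_cast; linarith
      have h5 : A = B + C * s := by exact_mod_cast h4
      omega
    · rw [h2, h3] at h
      have h4 : (B : ℚ) = A + C * s := by
        rw [hC]; push_cast; linarith
      have h5 : B = A + C * s := by exact_mod_cast h4
      omega
  rw [hkey, Nat.mul_div_cancel_left _ hCpos]

end Pool.Agent.NPC.Uc
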