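import Pool.Agent.H527R2.UniQ

/-!
# The reduction is computable in polynomial time: the graphs
-/

namespace Pool.Agent.NPC.Uc

open Pool.Agent.Uni Pool.Agent.NPC.Cnt

variable {α β : Type} [TEnc α] [TEnc β]

/-! ### The rows and columns -/

theorem poly_dd {l : α → List ℕ} (hl : Poly l) : Poly (fun a => dd (l a)) := by
  obtain ⟨r, hr⟩ := hl.sz_le
  refine (Poly.foldr (s := fun _ => ([] : List ℕ))
    (F := fun _ v acc => if v ∈ acc then acc else v :: acc) hl (Poly.const [])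
    (Poly.ite (Poly.decide_mem (Poly.fst (Poly.snd Poly.id)) (Poly.snd (Poly.snd Poly.id)))
      (Poly.snd (Poly.snd Poly.id))
      (Poly.cons (Poly.fst (Poly.snd Poly.id)) (Poly.snd (Poly.snd Poly.id)))) r ?_).congr
    fun a => rfl
  intro a k hk
  have key : ∀ l : List ℕ, sz (l.foldr (fun v acc => if v ∈ acc then acc else v :: acc) [])
      ≤ sz l := by
    intro l
    induction l with
    | nil => simp
    | cons x l ih =>
      rw [List.foldr_cons]
      split_ifs
      · simp; omega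
      · simp; omega
  exact (key _).trans ((Poly.sz_drop_le _ _).trans (hr a))

theorem poly_rowsL {f : α → CNF ℕ} (hf : Poly f) : Poly (fun a => rowsL (f a)) := by
  unfold rowsL
  refine Poly.cons (Poly.const 0) (Poly.cons (Poly.const 1) (Poly.append ?_ ?_))
  · refine Poly.map (F := fun _ v => 2 * v + 2) (poly_dd ?_)
      (Poly.add (Poly.mul (Poly.const 2) (Poly.snd Poly.id)) (Poly.const 2))
    exact Poly.map (F := fun _ (x : Bool × ℕ) => x.2) (Poly.flatten hf) (Poly.snd (Poly.snd Poly.id))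
  · exact Poly.map (F := fun _ i => 2 * i + 3) (Poly.range_length hf)
      (Poly.add (Poly.mul (Poly.const 2) (Poly.snd Poly.id)) (Poly.const 3))

theorem poly_colsL {f : α → CNF ℕ} (hf : Poly f) : Poly (fun a => colsL (f a)) := by
  unfold colsL
  refine Poly.append ?_ (Poly.const _)
  refine Poly.flatMap (F := fun _ (c : List (Bool × ℕ) × ℕ) => c.1.map fun l =>
    (((true, 2 * c.2 + 3), (l.1, 2 * l.2 + 2)) : (Bool × ℕ) × (Bool × ℕ))) (Poly.zipIdx hf) ?_
  refine Poly.map (α := α × (List (Bool × ℕ) × ℕ)) (F := fun x (l : Bool × ℕ) =>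
    (((true, 2 * x.2.2 + 3), (l.1, 2 * l.2 + 2)) : (Bool × ℕ) × (Bool × ℕ)))
    (Poly.fst (Poly.snd Poly.id)) ?_
  exact Poly.pair (Poly.pair (Poly.const true) (Poly.add (Poly.mul (Poly.const 2)
    (Poly.snd (Poly.snd (Poly.fst Poly.id)))) (Poly.const 3)))
    (Poly.pair (Poly.fst (Poly.snd Poly.id)) (Poly.add (Poly.mul (Poly.const 2)
      (Poly.snd (Poly.snd Poly.id))) (Poly.const 2)))

theorem upoly_M {f : α → CNF ℕ} (hf : Poly f) : UPoly (fun a => (colsL (f a)).length) :=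
  UPoly.length (poly_colsL hf)

theorem poly_col {f : α → CNF ℕ} {p : α → ℕ} (hf : Poly f) (hp : Poly p) :
    Poly (fun a => (colsL (f a)).getD (p a) ((true, 0), (true, 1))) :=
  Poly.getD (poly_colsL hf) hp (Poly.const _)

theorem poly_l1 {f : α → CNF ℕ} {p : α → ℕ} (hf : Poly f) (hp : Poly p) :
    Poly (fun a => (sysOf (f a)).l1 (p a)) := Poly.fst (poly_col hf hp)

theorem poly_l2 {f : α → CNF ℕ} {p : α → ℕ} (hf : Poly f) (hp : Poly p) :
    Poly (fun a => (sysOf (f a)).l2 (p a)) := Poly.snd (poly_col hf hp)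

theorem poly_tag (c : ℕ) {j p : α → ℕ} (hj : Poly j) (hp : Poly p) :
    Poly (fun a => Nat.pair c (Nat.pair (j a) (p a))) :=
  pNatPair (Poly.const c) (pNatPair hj hp)

theorem poly_tip {f : α → CNF ℕ} {b : α → Bool} {j p : α → ℕ} (hf : Poly f) (hb : Poly b)
    (hj : Poly j) (hp : Poly p) : Poly (fun a => nm ((sysOf (f a)).tip (b a) (j a) (p a))) := by
  refine (Poly.ite (Poly.decide_or (Poly.decide_eq (Poly.pair hb hj) (poly_l1 hf hp))
    (Poly.decide_eq (Poly.pair hb hj) (poly_l2 hf hp)))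
    (poly_tag 3 (Poly.const 0) hp) (poly_tag 2 hj hp)).congr fun a => ?_
  unfold Sys.tip
  split_ifs <;> rfl

theorem poly_isCl {j : α → ℕ} (hj : Poly j) : Poly (fun a => isCl (j a)) := by
  unfold isCl
  exact Poly.and (Poly.decide_eq (Poly.mod hj (Poly.const 2)) (Poly.const 1))
    (Poly.not (Poly.decide_eq hj (Poly.const 1)))

theorem poly_nx {M p : α → ℕ} (hM : Poly M) (hp : Poly p) : Poly (fun a => nx (M a) (p a)) := by
  unfold nx
  exact Poly.ite (Poly.decide_eq (Poly.succ hp) hM) (Poly.const 0) (Poly.succ hp)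

/-! ### The lists of elements and triples -/

theorem poly_list2 {a b : α → β} (ha : Poly a) (hb : Poly b) : Poly (fun x => [a x, b x]) :=
  Poly.cons ha (Poly.cons hb (Poly.const []))

theorem poly_list3 {a b c : α → β} (ha : Poly a) (hb : Poly b) (hc : Poly c) :
    Poly (fun x => [a x, b x, c x]) :=
  Poly.cons ha (Poly.cons hb (Poly.cons hc (Poly.const [])))

theorem poly_Xn : Poly (fun φ : CNF ℕ => (sysOf φ).Xl.map nm) := by
  have h1 : Poly (fun φ : CNF ℕ => (rowsL φ).flatMap fun j =>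
      (List.range (colsL φ).length).flatMap fun p =>
        [nm (Nm.A j p), nm (Nm.B j p), nm (Nm.U j p)]) := by
    refine Poly.flatMap (F := fun φ j => (List.range (colsL φ).length).flatMap fun p =>
        [nm (Nm.A j p), nm (Nm.B j p), nm (Nm.U j p)]) (poly_rowsL Poly.id) ?_
    refine Poly.flatMap (α := CNF ℕ × ℕ) (F := fun x p =>
        [nm (Nm.A x.2 p), nm (Nm.B x.2 p), nm (Nm.U x.2 p)])
        (upoly_M (Poly.fst Poly.id)).range ?_
    have hj : Poly (fun x : (CNF ℕ × ℕ) × ℕ => x.1.2) := Poly.snd (Poly.fst Poly.id)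
    have hp : Poly (fun x : (CNF ℕ × ℕ) × ℕ => x.2) := Poly.snd Poly.id
    exact poly_list3 (poly_tag 0 hj hp) (poly_tag 1 hj hp) (poly_tag 2 hj hp)
  have h2 : Poly (fun φ : CNF ℕ => (List.range (colsL φ).length).flatMap fun p =>
        [nm (Nm.E p), nm (Nm.H p), nm (Nm.G p)]) := by
    refine Poly.flatMap (F := fun _ p => [nm (Nm.E p), nm (Nm.H p), nm (Nm.G p)])
      (upoly_M Poly.id).range ?_
    have hp : Poly (fun x : CNF ℕ × ℕ => x.2) := Poly.snd Poly.id
    exact poly_list3 (poly_tag 3 (Poly.const 0) hp) (poly_tag 4 (Poly.const 0) hp)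
      (poly_tag 5 (Poly.const 0) hp)
  refine (Poly.append h1 h2).congr fun φ => ?_
  unfold Sys.Xl
  rw [List.map_append, List.map_flatMap, List.map_flatMap]
  simp only [List.map_flatMap, List.map_cons, List.map_nil]
  rfl

/-- code of a triple -/
theorem poly_Tr : Poly (fun φ : CNF ℕ => (sysOf φ).Yl.map (codeT (sysOf φ))) := by
  have h1 : Poly (fun φ : CNF ℕ => (rowsL φ).flatMap fun j =>
      (List.range (colsL φ).length).flatMap fun p =>
        [codeT (sysOf φ) (Nm.Yp j p), codeT (sysOf φ) (Nm.Ym j p)]) := by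
    refine Poly.flatMap (F := fun φ j => (List.range (colsL φ).length).flatMap fun p =>
        [codeT (sysOf φ) (Nm.Yp j p), codeT (sysOf φ) (Nm.Ym j p)]) (poly_rowsL Poly.id) ?_
    refine Poly.flatMap (α := CNF ℕ × ℕ) (F := fun x p =>
        [codeT (sysOf x.1) (Nm.Yp x.2 p), codeT (sysOf x.1) (Nm.Ym x.2 p)])
        (upoly_M (Poly.fst Poly.id)).range ?_
    have hf : Poly (fun x : (CNF ℕ × ℕ) × ℕ => x.1.1) := Poly.fst (Poly.fst Poly.id)
    have hj : Poly (fun x : (CNF ℕ × ℕ) × ℕ => x.1.2) := Poly.snd (Poly.fst Poly.id)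
    have hp : Poly (fun x : (CNF ℕ × ℕ) × ℕ => x.2) := Poly.snd Poly.id
    refine poly_list2 ?_ ?_
    · refine Poly.pair (poly_tag 6 hj hp) (Poly.pair ?_ (Poly.pair (poly_tag 0 hj hp)
        (Poly.pair (poly_tag 1 hj hp) (poly_tip hf (Poly.const true) hj hp))))
      exact (Poly.ite (Poly.decide_eq hp (Poly.const 0)) (poly_isCl hj) (Poly.const false))
    · refine Poly.pair (poly_tag 7 hj hp) (Poly.pair (Poly.const false) (Poly.pair
        (poly_tag 0 hj hp) (Poly.pair ?_ (poly_tip hf (Poly.const false) hj hp))))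
      exact poly_tag 1 hj (poly_nx (upoly_M hf).toPoly hp)
  have h2 : Poly (fun φ : CNF ℕ => (List.range (colsL φ).length).flatMap fun p =>
        [codeT (sysOf φ) (Nm.Z0 p), codeT (sysOf φ) (Nm.Z1 p), codeT (sysOf φ) (Nm.Z2 p)]) := by
    refine Poly.flatMap (F := fun φ p => [codeT (sysOf φ) (Nm.Z0 p), codeT (sysOf φ) (Nm.Z1 p),
      codeT (sysOf φ) (Nm.Z2 p)]) (upoly_M Poly.id).range ?_
    have hf : Poly (fun x : CNF ℕ × ℕ => x.1) := Poly.fst Poly.id
    have hp : Poly (fun x : CNF ℕ × ℕ => x.2) := Poly.snd Poly.id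
    have h0 : Poly (fun _ : CNF ℕ × ℕ => 0) := Poly.const 0
    refine poly_list3 ?_ ?_ ?_
    · exact Poly.pair (poly_tag 8 h0 hp) (Poly.pair (Poly.const false) (Poly.pair
        (poly_tag 3 h0 hp) (Poly.pair (poly_tag 4 h0 hp) (poly_tag 5 h0 hp))))
    · exact Poly.pair (poly_tag 9 h0 hp) (Poly.pair (Poly.const false) (Poly.pair
        (poly_tag 2 (Poly.snd (poly_l1 hf hp)) hp) (Poly.pair (poly_tag 4 h0 hp)
        (poly_tag 5 h0 hp))))
    · exact Poly.pair (poly_tag 10 h0 hp) (Poly.pair (Poly.const false) (Poly.pair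
        (poly_tag 2 (Poly.snd (poly_l2 hf hp)) hp) (Poly.pair (poly_tag 4 h0 hp)
        (poly_tag 5 h0 hp))))
  refine (Poly.append h1 h2).congr fun φ => ?_
  unfold Sys.Yl
  rw [List.map_append, List.map_flatMap, List.map_flatMap]
  simp only [List.map_flatMap, List.map_cons, List.map_nil]
  rfl

/-! ### The graphs -/

section graph

variable {Xn : α → List ℕ} {Tr : α → List (ℕ × Bool × ℕ × ℕ × ℕ)} {i k : α → ℕ}

theorem upoly_wtN {x i : α → ℕ} {t : α → ℕ × Bool × ℕ × ℕ × ℕ} (hi : UPoly i) (hx : Poly x)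
    (ht : Poly t) : UPoly (fun a => wtN (i a) (x a) (t a)) := by
  refine UPoly.of_le (n := fun y => i y + 1) ?_ (UPoly.add hi (UPoly.const 1)) ?_
  · unfold wtN
    refine Poly.ite (Poly.decide_or (Poly.decide_eq hx (Poly.fst (Poly.snd (Poly.snd ht))))
        (Poly.decide_or (Poly.decide_eq hx (Poly.fst (Poly.snd (Poly.snd (Poly.snd ht)))))
        (Poly.decide_eq hx (Poly.snd (Poly.snd (Poly.snd (Poly.snd ht))))))) ?_ (Poly.const 0)
    exact Poly.ite (Poly.decide_bool (Poly.fst (Poly.snd ht)))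
        (Poly.sub hi.toPoly (Poly.const 1)) (Poly.const 1)
  · intro y
    unfold wtN
    split_ifs <;> omega

theorem poly_NEdges (hX : Poly Xn) (hT : Poly Tr) (hi : UPoly i) (hk : UPoly k) :
    Poly (fun a => NEdges (Xn a) (Tr a) (i a) (k a)) := by
  refine Poly.flatMap (F := fun a x => (Tr a).flatMap fun t => List.replicate
    (k a * (i a * wtN (i a) x t)) (t.1, x)) hX ?_
  refine Poly.flatMap (α := α × ℕ) (F := fun y t => List.replicate
    (k y.1 * (i y.1 * wtN (i y.1) y.2 t)) (t.1, y.2)) (hT.comp (Poly.fst Poly.id)) ?_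
  have ha : Poly (fun y : (α × ℕ) × (ℕ × Bool × ℕ × ℕ × ℕ) => y.1.1) := Poly.fst (Poly.fst Poly.id)
  have hx : Poly (fun y : (α × ℕ) × (ℕ × Bool × ℕ × ℕ × ℕ) => y.1.2) := Poly.snd (Poly.fst Poly.id)
  have ht : Poly (fun y : (α × ℕ) × (ℕ × Bool × ℕ × ℕ × ℕ) => y.2) := Poly.snd Poly.id
  have hi' : UPoly (fun y : (α × ℕ) × (ℕ × Bool × ℕ × ℕ × ℕ) => i y.1.1) := hi.comp ha
  have hk' : UPoly (fun y : (α × ℕ) × (ℕ × Bool × ℕ × ℕ × ℕ) => k y.1.1) := hk.comp ha
  have hw : UPoly (fun y : (α × ℕ) × (ℕ × Bool × ℕ × ℕ × ℕ) => wtN (i y.1.1) y.1.2 y.2) :=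
    upoly_wtN hi' hx ht
  exact poly_replicate (UPoly.mul hk' (UPoly.mul hi' hw)) (Poly.pair (Poly.fst ht) hx)

theorem poly_HEdges (hX : Poly Xn) (hT : Poly Tr) (hi : UPoly i) (hk : UPoly k) :
    Poly (fun a => HEdges (Xn a) (Tr a) (i a) (k a)) := by
  unfold HEdges
  refine Poly.flatMap (F := fun a h => ((Xn a).map fun x => (hubN h, x)) ++
    (Tr a).flatMap fun t => List.replicate (i a - 1) (hubN h, t.1)) hk.range ?_
  have ha : Poly (fun y : α × ℕ => y.1) := Poly.fst Poly.id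
  refine Poly.append ?_ ?_
  · refine Poly.map (α := α × ℕ) (F := fun y x => (hubN y.2, x)) (hX.comp ha) ?_
    exact Poly.pair (poly_tag 11 (Poly.const 0) (Poly.snd (Poly.fst Poly.id))) (Poly.snd Poly.id)
  · refine Poly.flatMap (α := α × ℕ) (F := fun y t => List.replicate (i y.1 - 1)
      (hubN y.2, t.1)) (hT.comp ha) ?_
    have h1 : UPoly (fun y : (α × ℕ) × (ℕ × Bool × ℕ × ℕ × ℕ) => i y.1.1 - 1) := by
      have hi' : UPoly (fun y : (α × ℕ) × (ℕ × Bool × ℕ × ℕ × ℕ) => i y.1.1) :=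
        hi.comp (Poly.fst (Poly.fst Poly.id))
      exact UPoly.of_le (Poly.sub hi'.toPoly (Poly.const 1)) hi' (fun y => Nat.sub_le _ _)
    exact poly_replicate h1 (Poly.pair (poly_tag 11 (Poly.const 0) (Poly.snd (Poly.fst Poly.id)))
      (Poly.fst (Poly.snd Poly.id)))

theorem poly_graphN (hX : Poly Xn) (hT : Poly Tr) (hi : UPoly i) (hk : UPoly k) :
    Poly (fun a => graphN (Xn a) (Tr a) (i a) (k a)) := by
  unfold graphN
  have h1 : UPoly (fun _ : α => 1) := UPoly.const 1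
  have hT1 : Poly (fun a => (Tr a).map fun t => t.1) :=
    Poly.map (F := fun _ t => t.1) hT (Poly.fst (Poly.snd Poly.id))
  have hhub : ∀ {k : α → ℕ}, UPoly k → Poly (fun a => (List.range (k a)).map hubN) := by
    intro k hk
    exact Poly.map (F := fun _ h => hubN h) hk.range (poly_tag 11 (Poly.const 0) (Poly.snd Poly.id))
  refine Poly.ite (Poly.decide_eq hk.toPoly (Poly.const 0)) (Poly.pair ?_ ?_) (Poly.pair ?_ ?_)
  · exact Poly.cons (Poly.const extN) (Poly.append (Poly.append hX hT1) (hhub h1))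
  · exact Poly.cons (Poly.const (hubN 0, extN)) (Poly.cons (Poly.const (hubN 0, extN))
      (Poly.append (poly_NEdges hX hT hi h1) (poly_HEdges hX hT hi h1)))
  · exact Poly.append (Poly.append hX hT1) (hhub hk)
  · exact Poly.append (poly_NEdges hX hT hi hk) (poly_HEdges hX hT hi hk)

end graph

end Pool.Agent.NPC.Uc
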