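import Pool.Agent.H527R2.UniR

/-!
# Connectivity tests in polynomial time
-/

namespace Pool.Agent.NPC.Uc

open Pool.Agent.Uni Pool.Agent.NPC.Cnt

variable {α β : Type} [TEnc α] [TEnc β]

/-- apply a list of substitutions -/
def app (S : List (ℕ × ℕ)) (x : ℕ) : ℕ := S.foldl (fun x s => if x = s.1 then s.2 else x) x

/-- the list of substitutions of a list of edges -/
def subsStep (S : List (ℕ × ℕ)) (e : ℕ × ℕ) : List (ℕ × ℕ) := S ++ [(app S e.2, app S e.1)]

def subs (l : List (ℕ × ℕ)) : List (ℕ × ℕ) := l.foldl subsStep []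

theorem labs_app : ∀ (l S : List (ℕ × ℕ)), labs (app S) l = app (l.foldl subsStep S) := by
  intro l
  induction l with
  | nil => intro S; rfl
  | cons e l ih =>
    intro S
    have h : mrg (app S) e.1 e.2 = app (subsStep S e) := by
      funext w
      unfold mrg subsStep
      conv_rhs => unfold app
      rw [List.foldl_append]
      rfl
    show labs (mrg (app S) e.1 e.2) l = _
    rw [h, ih]
    rfl

theorem labs_id (l : List (ℕ × ℕ)) : labs id l = app (subs l) := labs_app l []

theorem sz_app_le : ∀ (S : List (ℕ × ℕ)) (x B : ℕ), sz x ≤ B → (∀ s ∈ S, sz s.2 ≤ B) →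
    sz (app S x) ≤ B := by
  intro S
  induction S with
  | nil => intro x B hx _; exact hx
  | cons s S ih =>
    intro x B hx hS
    show sz (app S (if x = s.1 then s.2 else x)) ≤ B
    apply ih
    · split_ifs
      · exact hS s (List.mem_cons_self ..)
      · exact hx
    · exact fun s' hs' => hS s' (List.mem_cons_of_mem _ hs')

theorem sz_snd_le {S : List (ℕ × ℕ)} {s : ℕ × ℕ} (h : s ∈ S) : sz s.2 ≤ sz S := by
  have := sz_le_of_mem h
  obtain ⟨a, b⟩ := s
  simp only [sz_pair] at *
  omega

theorem poly_app {S : α → List (ℕ × ℕ)} {x : α → ℕ} (hS : Poly S) (hx : Poly x) :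
    Poly (fun a => app (S a) (x a)) := by
  obtain ⟨r, hr⟩ := hS.sz_le
  obtain ⟨r', hr'⟩ := hx.sz_le
  have hF : Poly (fun p : α × ℕ × (ℕ × ℕ) => if p.2.1 = p.2.2.1 then p.2.2.2 else p.2.1) := by
    refine Poly.ite ?_ ?_ ?_
    · exact Poly.decide_eq (Poly.fst (Poly.snd Poly.id)) (Poly.fst (Poly.snd (Poly.snd Poly.id)))
    · exact Poly.snd (Poly.snd (Poly.snd Poly.id))
    · exact Poly.fst (Poly.snd Poly.id)
  have h := Poly.foldl (α := α) (β := ℕ × ℕ) (σ := ℕ) (l := S) (s := x)
    (F := fun _ x s => if x = s.1 then s.2 else x) hS hx hF (r + r') ?_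
  · exact h
  intro a k hk
  rw [Polynomial.eval_add]
  refine sz_app_le ((S a).take k) (x a) _ ?_ ?_
  · have := hr' a; omega
  · intro s hs
    have := sz_snd_le (List.mem_of_mem_take hs)
    have := hr a
    omega

theorem subs_bound (B : ℕ) : ∀ (l S : List (ℕ × ℕ)), (∀ e ∈ l, sz e.1 ≤ B ∧ sz e.2 ≤ B) →
    (∀ e ∈ S, sz e.1 ≤ B ∧ sz e.2 ≤ B) →
    (∀ e ∈ l.foldl subsStep S, sz e.1 ≤ B ∧ sz e.2 ≤ B) ∧
      (l.foldl subsStep S).length = S.length + l.length := by
  intro l
  induction l with
  | nil => intro S _ hS; exact ⟨hS, by simp⟩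
  | cons e l ih =>
    intro S hl hS
    have he := hl e (List.mem_cons_self ..)
    have h := ih (subsStep S e) (fun e' he' => hl e' (List.mem_cons_of_mem _ he')) (by
      intro s hs
      rcases List.mem_append.mp hs with h | h
      · exact hS s h
      · rw [List.mem_singleton] at h
        subst h
        exact ⟨sz_app_le S _ B he.2 (fun s hs => (hS s hs).2),
          sz_app_le S _ B he.1 (fun s hs => (hS s hs).2)⟩)
    refine ⟨h.1, ?_⟩
    rw [List.foldl_cons, h.2]
    simp [subsStep]
    omega

theorem poly_subs {l : α → List (ℕ × ℕ)} (hl : Poly l) : Poly (fun a => subs (l a)) := by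
  obtain ⟨r, hr⟩ := hl.sz_le
  unfold subs
  refine Poly.foldl (s := fun _ => ([] : List (ℕ × ℕ))) (F := fun _ S e => subsStep S e) hl
    (Poly.const []) ?_ (r * (Polynomial.C 2 * r + Polynomial.C 2) + Polynomial.C 1) ?_
  · have hS : Poly (fun y : α × List (ℕ × ℕ) × (ℕ × ℕ) => y.2.1) := Poly.fst (Poly.snd Poly.id)
    have he : Poly (fun y : α × List (ℕ × ℕ) × (ℕ × ℕ) => y.2.2) := Poly.snd (Poly.snd Poly.id)
    exact Poly.append hS (Poly.cons (Poly.pair (poly_app hS (Poly.snd he))
      (poly_app hS (Poly.fst he))) (Poly.const []))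
  · intro a k hk
    have hB : ∀ e ∈ (l a).take k, sz e.1 ≤ r.eval (sz a) ∧ sz e.2 ≤ r.eval (sz a) := by
      intro e he
      have h1 := sz_le_of_mem (List.mem_of_mem_take he)
      have h2 := hr a
      obtain ⟨u, v⟩ := e
      simp only [sz_pair] at *
      omega
    obtain ⟨h1, h2⟩ := subs_bound (r.eval (sz a)) ((l a).take k) [] hB (by simp)
    have h3 := sz_le_length_mul (((l a).take k).foldl subsStep []) (2 * r.eval (sz a) + 1) (by
      intro e he
      have := h1 e he
      obtain ⟨u, v⟩ := e
      simp only [sz_pair] at *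
      omega)
    have h4 : (((l a).take k).foldl subsStep []).length ≤ r.eval (sz a) := by
      rw [h2]
      have h5 := length_lt_sz (l a)
      have h6 := hr a
      simp
      omega
    simp only [Polynomial.eval_add, Polynomial.eval_mul, Polynomial.eval_C]
    refine h3.trans (Nat.add_le_add_right (Nat.mul_le_mul h4 (by omega)) 1)

/-- all vertices have the same label -/
def allEq (S : List (ℕ × ℕ)) (V : List ℕ) : Bool :=
  V.all fun u => V.all fun v => decide (app S u = app S v)

theorem allEq_iff (S : List (ℕ × ℕ)) (V : List ℕ) :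
    allEq S V = true ↔ ∀ u ∈ V, ∀ v ∈ V, app S u = app S v := by
  simp [allEq]

theorem poly_allEq {S : α → List (ℕ × ℕ)} {V : α → List ℕ} (hS : Poly S) (hV : Poly V) :
    Poly (fun a => allEq (S a) (V a)) := by
  unfold allEq
  refine Poly.all (p := fun a u => (V a).all fun v => decide (app (S a) u = app (S a) v)) hV ?_
  refine Poly.all (α := α × ℕ) (p := fun y v => decide (app (S y.1) y.2 = app (S y.1) v))
    (hV.comp (Poly.fst Poly.id)) ?_
  have hS' : Poly (fun y : (α × ℕ) × ℕ => S y.1.1) := hS.comp (Poly.fst (Poly.fst Poly.id))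
  exact Poly.decide_eq (poly_app hS' (Poly.snd (Poly.fst Poly.id))) (poly_app hS' (Poly.snd Poly.id))

/-- well-formedness test -/
def wfB (G : MGraph) : Bool :=
  !G.1.isEmpty && (decide (dd G.1 = G.1) && G.2.all fun e =>
    decide (e.1 ∈ G.1) && (decide (e.2 ∈ G.1) && !decide (e.1 = e.2)))

theorem dd_length_le (l : List ℕ) : (dd l).length ≤ l.length := by
  induction l with
  | nil => simp [dd]
  | cons a l ih =>
    have : dd (a :: l) = if a ∈ dd l then dd l else a :: dd l := rfl
    rw [this]
    split_ifs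
    · simp; omega
    · simpa using ih

theorem dd_eq_iff (l : List ℕ) : dd l = l ↔ l.Nodup := by
  constructor
  · intro h; rw [← h]; exact nodup_dd l
  · intro h
    induction l with
    | nil => rfl
    | cons a l ih =>
      have h1 : dd (a :: l) = if a ∈ dd l then dd l else a :: dd l := rfl
      obtain ⟨h2, h3⟩ := List.nodup_cons.1 h
      rw [h1, ih h3, if_neg h2]

theorem wfB_iff (G : MGraph) : wfB G = true ↔ WF G := by
  unfold wfB WF
  simp only [Bool.and_eq_true, decide_eq_true_eq, List.all_eq_true, Bool.not_eq_true',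
    List.isEmpty_eq_false_iff, dd_eq_iff, decide_eq_false_iff_not, ne_eq]

theorem poly_wfB {G : α → MGraph} (hG : Poly G) : Poly (fun a => wfB (G a)) := by
  unfold wfB
  refine Poly.and (Poly.not (Poly.isEmpty (Poly.fst hG))) (Poly.and
    (Poly.decide_eq (poly_dd (Poly.fst hG)) (Poly.fst hG)) ?_)
  refine Poly.all (p := fun a (e : ℕ × ℕ) => decide (e.1 ∈ (G a).1) &&
    (decide (e.2 ∈ (G a).1) && !decide (e.1 = e.2))) (Poly.snd hG) ?_
  have hV : Poly (fun y : α × (ℕ × ℕ) => (G y.1).1) := (Poly.fst hG).comp (Poly.fst Poly.id)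
  have he : Poly (fun y : α × (ℕ × ℕ) => y.2) := Poly.snd Poly.id
  exact Poly.and (Poly.decide_mem (Poly.fst he) hV) (Poly.and (Poly.decide_mem (Poly.snd he) hV)
    (Poly.not (Poly.decide_eq (Poly.fst he) (Poly.snd he))))

/-- connectivity of a set of edges, in terms of the labels -/
theorem conn_iff (V : List ℕ) (l : List (ℕ × ℕ)) : allEq (subs l) V = true ↔
    ∀ u ∈ V, ∀ v ∈ V, Relation.EqvGen (fun a b => (a, b) ∈ l) u v := by
  rw [allEq_iff]
  have h : ∀ u v, app (subs l) u = app (subs l) v ↔
      Relation.EqvGen (fun a b => (a, b) ∈ l) u v := by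
    intro u v
    rw [← labs_id, labs_iff]
    constructor
    · apply eqvGen_mono'
      rintro a b (h | h)
      · have : a = b := h
        rw [this]; exact .refl _
      · exact .rel _ _ h
    · apply eqvGen_mono'
      intro a b h
      exact .rel _ _ (Or.inr h)
  simp only [h]

theorem spanConn_univ_iff (G : MGraph) : SpanConn G Finset.univ ↔ allEq (subs G.2) G.1 = true := by
  rw [conn_iff]
  unfold SpanConn
  have h : ∀ a b, (∃ i ∈ (Finset.univ : Finset (Fin G.2.length)), G.2.get i = (a, b)) ↔
      (a, b) ∈ G.2 := by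
    intro a b
    rw [List.mem_iff_get]
    simp
  simp only [h]

/-- test whether a graph is connected with at least as many edges as vertices -/
def okB (G : MGraph) : Bool :=
  wfB G && (allEq (subs G.2) G.1 && decide (G.1.length ≤ G.2.length))

theorem okB_iff (G : MGraph) : okB G = true ↔ IsConnGraph G ∧ G.1.length ≤ G.2.length := by
  unfold okB IsConnGraph
  rw [Bool.and_eq_true, Bool.and_eq_true, wfB_iff, decide_eq_true_eq, ← spanConn_univ_iff]
  unfold WF
  tauto

theorem poly_okB {G : α → MGraph} (hG : Poly G) : Poly (fun a => okB (G a)) := by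
  unfold okB
  exact Poly.and (poly_wfB hG) (Poly.and (poly_allEq (poly_subs (Poly.snd hG)) (Poly.fst hG))
    (Poly.decide_le (Poly.length (Poly.fst hG)) (Poly.length (Poly.snd hG))))

end Pool.Agent.NPC.Uc
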