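import Pool.Agent.H527R2.UniS

/-!
# Counting spanning connected unicyclic subgraphs is `#P`-complete
-/

namespace Pool.Agent.NPC.Uc

open Pool.Agent.Uni Pool.Agent.NPC.Cnt

/-- Nonadaptive polynomial-time reductions to a function `g` on strings whose values at the codes
of the queries are known. -/
theorem turingReduces_of_list' {α : Type} [TEnc α] {f g : List Bool → ℕ} {g' : α → ℕ}
    (qs : List Bool → List α) (post : List Bool × List ℕ → ℕ) (hqs : Poly qs) (hpost : Poly post)
    (hg : ∀ x, ∀ a ∈ qs x, g (bits a) = g' a)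
    (hf : ∀ x, f x = post (x, (qs x).map g'))
    (r : Polynomial ℕ) (hr : ∀ x, ∀ a ∈ qs x, (g' a).size ≤ r.eval (sz a)) :
    TuringReduces f g := by
  let next : List Bool × List ℕ → List Bool ⊕ ℕ := fun s =>
    match (qs s.1)[s.2.length]? with
    | none => Sum.inr (post s)
    | some a => Sum.inl (bits a)
  have hbits : Poly (fun a : α => bits a) := poly_enc.comp (f := fun a : α => toT a)
    (Poly.toT' Poly.id)
  have hnext : Poly next := by
    refine (Poly.optCases (o := fun s : List Bool × List ℕ => (qs s.1)[s.2.length]?)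
      (g := fun s => Sum.inr (post s)) (h := fun _ a => Sum.inl (bits a))
      (Poly.getElem? (hqs.comp (Poly.fst Poly.id)) (Poly.length (Poly.snd Poly.id)))
      (Poly.inr hpost) (Poly.inl (hbits.comp (Poly.snd Poly.id)))).congr ?_
    intro s
    simp only [next]
    cases (qs s.1)[s.2.length]? <;> rfl
  obtain ⟨c1, hc1⟩ := hqs.sz_le
  have hdec : Poly (fun s : List Bool => ((decode s).getD ([], []) : List Bool × List ℕ)) :=
    (Poly.optCases (o := fun s : List Bool => (decode s : Option (List Bool × List ℕ)))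
      (g := fun _ => ([], [])) (h := fun _ b => b) poly_decode (Poly.const _)
      (Poly.snd Poly.id)).congr fun s => by
        cases (decode s : Option (List Bool × List ℕ)) <;> rfl
  refine ⟨next, fun s => bits (next ((decode s).getD ([], []))),
    c1.comp (Polynomial.C 4 * Polynomial.X + Polynomial.C 1) +
      r.comp (c1.comp (Polynomial.C 4 * Polynomial.X + Polynomial.C 1)), ?_, ?_, ?_⟩
  · apply PC.toPolyTime
    have h0 : Poly (fun s : List Bool => next ((decode s).getD ([], []))) :=
      Poly.comp (g := next) (f := fun s : List Bool =>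
        ((decode s).getD ([], []) : List Bool × List ℕ)) hnext hdec
    exact PC.comp (g := fun s : List Bool => next ((decode s).getD ([], [])))
      (f := fun s : List Bool => s) h0 PC.ofBits
  · intro s
    have : decode (bits s) = some s := decode_eq_some.2 rfl
    simp only [this, Option.getD_some]
  · intro x
    have hsx : sz x ≤ 4 * x.length + 1 := sz_listBool_le x
    have e1 : (c1.comp (Polynomial.C 4 * Polynomial.X + Polynomial.C 1)).eval x.length =
        c1.eval (4 * x.length + 1) := by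
      simp [Polynomial.eval_comp]
    have e2 : (r.comp (c1.comp (Polynomial.C 4 * Polynomial.X + Polynomial.C 1))).eval x.length =
        r.eval (c1.eval (4 * x.length + 1)) := by
      simp [Polynomial.eval_comp]
    have h1 : sz (qs x) ≤ c1.eval (4 * x.length + 1) := (hc1 x).trans (eval_mono c1 hsx)
    refine ⟨(qs x).map g', ?_, ?_, ?_⟩
    · rw [Polynomial.eval_add, e1, e2, List.length_map]
      have := length_lt_sz (qs x)
      omega
    · intro i hi
      rw [List.length_map] at hi
      have hq : (qs x)[i]'hi ∈ qs x := List.getElem_mem hi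
      have hsz := sz_le_of_mem hq
      refine ⟨bits ((qs x)[i]'hi), ?_, ?_, ?_, ?_⟩
      · simp only [next]
        have hl : ((List.map g' (qs x)).take i).length = i := by simp; omega
        rw [hl, List.getElem?_eq_getElem hi]
      · rw [bits_length, Polynomial.eval_add, e1, e2]
        omega
      · rw [hg x _ hq, List.getElem_map]
      · rw [hg x _ hq, Polynomial.eval_add, e1, e2]
        have h3 := hr x _ hq
        have h4 := eval_mono r (hsz.le.trans h1)
        omega
    · simp only [next]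
      have hl : (List.map g' (qs x)).length = (qs x).length := by simp
      rw [hl, List.getElem?_eq_none le_rfl]
      simp only
      rw [hf x]

/-- `#P`-hardness by a nonadaptive reduction from `#SAT`. -/
theorem sharpPHard_of_satCount' {α : Type} [TEnc α] {g : List Bool → ℕ} {g' : α → ℕ}
    (qs : CNF ℕ → List α) (post : CNF ℕ × List ℕ → ℕ) (hqs : Poly qs) (hpost : Poly post)
    (hg : ∀ φ, ∀ a ∈ qs φ, g (bits a) = g' a)
    (h : ∀ φ, satCount φ = post (φ, (qs φ).map g'))
    (r : Polynomial ℕ) (hr : ∀ φ, ∀ a ∈ qs φ, (g' a).size ≤ r.eval (sz a)) :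
    SharpPHard g := by
  rintro f ⟨V, p, hV, hf⟩
  obtain ⟨G, hG, hGf⟩ := parsimonious hV p
  have hG' : Poly G := PC.comp hG pc_raw
  refine turingReduces_of_list' (fun x => qs (G x)) (fun s => post (G s.1, s.2)) (hqs.comp hG')
    (hpost.comp (Poly.pair (hG'.comp (Poly.fst Poly.id)) (Poly.snd Poly.id)))
    (fun x => hg (G x)) (fun x => ?_) r (fun x => hr (G x))
  rw [hf x, ← hGf x, h]

/-! ### The queries -/

def Xn (φ : CNF ℕ) : List ℕ := (sysOf φ).Xl.map nm
def Tr (φ : CNF ℕ) : List (ℕ × Bool × ℕ × ℕ × ℕ) := (sysOf φ).Yl.map (codeT (sysOf φ))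
def pL (φ : CNF ℕ) : ℕ := (Xn φ).length
def qL (φ : CNF ℕ) : ℕ := (Tr φ).length

/-- the graph number `t` -/
def qry (φ : CNF ℕ) (t : ℕ) : MGraph :=
  graphN (Xn φ) (Tr φ) (min (t / (pL φ + qL φ + 1)) (DD (pL φ) (qL φ)) + 1)
    (t % (pL φ + qL φ + 1))

/-- two vertices with a double edge -/
def dummy : MGraph := ([0, 1], [(0, 1), (0, 1)])

def qryOK (φ : CNF ℕ) (t : ℕ) : MGraph := if okB (qry φ t) = true then qry φ t else dummy

def qs (φ : CNF ℕ) : List MGraph :=
  (List.range (DD (pL φ) (qL φ) * (pL φ + qL φ + 1))).map (qryOK φ)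

/-- indicator of the graphs that can be asked -/
def ind (G : MGraph) : ℕ := if okB G = true then 1 else 0

def wPt (p q t : ℕ) : ℕ := wP p q (t / (p + q + 1) + 1) (t % (p + q + 1))
def wMt (p q t : ℕ) : ℕ := wM p q (t / (p + q + 1) + 1) (t % (p + q + 1))

def valP (φ : CNF ℕ) (x : ℕ × ℕ) : ℕ := x.1 * ind (qry φ x.2) * wPt (pL φ) (qL φ) x.2
def valM (φ : CNF ℕ) (x : ℕ × ℕ) : ℕ := x.1 * ind (qry φ x.2) * wMt (pL φ) (qL φ) x.2

def post (s : CNF ℕ × List ℕ) : ℕ :=
  fin (pL s.1) (qL s.1) ((s.2.zipIdx.map (valP s.1)).sum) ((s.2.zipIdx.map (valM s.1)).sum)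

theorem upoly_pL : UPoly pL := UPoly.length poly_Xn
theorem upoly_qL : UPoly qL := UPoly.length poly_Tr

theorem poly_qry : Poly (fun x : CNF ℕ × ℕ => qry x.1 x.2) := by
  have hφ : Poly (fun x : CNF ℕ × ℕ => x.1) := Poly.fst Poly.id
  have ht : Poly (fun x : CNF ℕ × ℕ => x.2) := Poly.snd Poly.id
  have hp : UPoly (fun x : CNF ℕ × ℕ => pL x.1) := upoly_pL.comp hφ
  have hq : UPoly (fun x : CNF ℕ × ℕ => qL x.1) := upoly_qL.comp hφ
  have hT : UPoly (fun x : CNF ℕ × ℕ => pL x.1 + qL x.1 + 1) :=
    UPoly.add (UPoly.add hp hq) (UPoly.const 1)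
  have hi : UPoly (fun x : CNF ℕ × ℕ =>
      min (x.2 / (pL x.1 + qL x.1 + 1)) (DD (pL x.1) (qL x.1)) + 1) :=
    UPoly.add (upoly_min (poly_DD hp hq) (Poly.div ht hT.toPoly)) (UPoly.const 1)
  have hk : UPoly (fun x : CNF ℕ × ℕ => x.2 % (pL x.1 + qL x.1 + 1)) :=
    UPoly.of_le (Poly.mod ht hT.toPoly) hT (fun x => (Nat.mod_lt _ (Nat.succ_pos _)).le)
  exact poly_graphN (poly_Xn.comp hφ) (poly_Tr.comp hφ) hi hk

theorem poly_qryOK : Poly (fun x : CNF ℕ × ℕ => qryOK x.1 x.2) := by
  unfold qryOK
  exact Poly.ite (Poly.decide_bool (poly_okB poly_qry)) poly_qry (Poly.const dummy)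

theorem poly_qs : Poly qs := by
  have hT : UPoly (fun φ : CNF ℕ => DD (pL φ) (qL φ) * (pL φ + qL φ + 1)) :=
    UPoly.mul (poly_DD upoly_pL upoly_qL) (UPoly.add (UPoly.add upoly_pL upoly_qL) (UPoly.const 1))
  exact Poly.map (F := qryOK) hT.range poly_qryOK

theorem poly_ind {α : Type} [TEnc α] {G : α → MGraph} (hG : Poly G) :
    Poly (fun a => ind (G a)) :=
  Poly.ite (Poly.decide_bool (poly_okB hG)) (Poly.const 1) (Poly.const 0)

theorem poly_wPt {α : Type} [TEnc α] {p q t : α → ℕ} (hp : UPoly p) (hq : UPoly q)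
    (ht : Poly t) : Poly (fun a => wPt (p a) (q a) (t a)) := by
  have hT : Poly (fun a => p a + q a + 1) := (UPoly.add (UPoly.add hp hq) (UPoly.const 1)).toPoly
  exact poly_wP hp hq (Poly.succ (Poly.div ht hT)) (Poly.mod ht hT)

theorem poly_wMt {α : Type} [TEnc α] {p q t : α → ℕ} (hp : UPoly p) (hq : UPoly q)
    (ht : Poly t) : Poly (fun a => wMt (p a) (q a) (t a)) := by
  have hT : Poly (fun a => p a + q a + 1) := (UPoly.add (UPoly.add hp hq) (UPoly.const 1)).toPoly
  exact poly_wM hp hq (Poly.succ (Poly.div ht hT)) (Poly.mod ht hT)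

theorem poly_valP {α : Type} [TEnc α] {f : α → CNF ℕ} {x : α → ℕ × ℕ} (hf : Poly f)
    (hx : Poly x) : Poly (fun a => valP (f a) (x a)) := by
  have h1 : Poly (fun a => (x a).1) := Poly.fst hx
  have h2 : Poly (fun a => (x a).2) := Poly.snd hx
  have h3 : Poly (fun a => qry (f a) (x a).2) := Poly.comp (g := fun y : CNF ℕ × ℕ => qry y.1 y.2)
    (f := fun a => (f a, (x a).2)) poly_qry (Poly.pair hf h2)
  have h4 : Poly (fun a => ind (qry (f a) (x a).2)) := poly_ind h3
  have h5 : Poly (fun a => wPt (pL (f a)) (qL (f a)) (x a).2) :=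
    poly_wPt (UPoly.comp upoly_pL hf) (UPoly.comp upoly_qL hf) h2
  have h6 : Poly (fun a => (x a).1 * ind (qry (f a) (x a).2)) := Poly.mul h1 h4
  have h7 : Poly (fun a => ((x a).1 * ind (qry (f a) (x a).2)) *
    wPt (pL (f a)) (qL (f a)) (x a).2) := Poly.mul h6 h5
  exact h7

theorem poly_valM {α : Type} [TEnc α] {f : α → CNF ℕ} {x : α → ℕ × ℕ} (hf : Poly f)
    (hx : Poly x) : Poly (fun a => valM (f a) (x a)) := by
  have h1 : Poly (fun a => (x a).1) := Poly.fst hx
  have h2 : Poly (fun a => (x a).2) := Poly.snd hx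
  have h3 : Poly (fun a => qry (f a) (x a).2) := Poly.comp (g := fun y : CNF ℕ × ℕ => qry y.1 y.2)
    (f := fun a => (f a, (x a).2)) poly_qry (Poly.pair hf h2)
  have h4 : Poly (fun a => ind (qry (f a) (x a).2)) := poly_ind h3
  have h5 : Poly (fun a => wMt (pL (f a)) (qL (f a)) (x a).2) :=
    poly_wMt (UPoly.comp upoly_pL hf) (UPoly.comp upoly_qL hf) h2
  have h6 : Poly (fun a => (x a).1 * ind (qry (f a) (x a).2)) := Poly.mul h1 h4
  have h7 : Poly (fun a => ((x a).1 * ind (qry (f a) (x a).2)) *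
    wMt (pL (f a)) (qL (f a)) (x a).2) := Poly.mul h6 h5
  exact h7

theorem poly_post : Poly post := by
  have hφ : Poly (fun x : CNF ℕ × List ℕ => x.1) := Poly.fst Poly.id
  have hz : Poly (fun x : CNF ℕ × List ℕ => x.2.zipIdx) := Poly.zipIdx (Poly.snd Poly.id)
  have hp : UPoly (fun x : CNF ℕ × List ℕ => pL x.1) := UPoly.comp upoly_pL hφ
  have hq : UPoly (fun x : CNF ℕ × List ℕ => qL x.1) := UPoly.comp upoly_qL hφ
  have hφ' : Poly (fun y : (CNF ℕ × List ℕ) × (ℕ × ℕ) => y.1.1) := Poly.fst (Poly.fst Poly.id)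
  have hy' : Poly (fun y : (CNF ℕ × List ℕ) × (ℕ × ℕ) => y.2) := Poly.snd Poly.id
  have h1 : Poly (fun y : (CNF ℕ × List ℕ) × (ℕ × ℕ) => valP y.1.1 y.2) := poly_valP hφ' hy'
  have h2 : Poly (fun y : (CNF ℕ × List ℕ) × (ℕ × ℕ) => valM y.1.1 y.2) := poly_valM hφ' hy'
  have hA' : Poly (fun x : CNF ℕ × List ℕ => x.2.zipIdx.map (valP x.1)) :=
    Poly.map (F := fun (x : CNF ℕ × List ℕ) y => valP x.1 y) hz h1
  have hB' : Poly (fun x : CNF ℕ × List ℕ => x.2.zipIdx.map (valM x.1)) :=
    Poly.map (F := fun (x : CNF ℕ × List ℕ) y => valM x.1 y) hz h2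
  have hA : Poly (fun x : CNF ℕ × List ℕ => (x.2.zipIdx.map (valP x.1)).sum) := Poly.sum hA'
  have hB : Poly (fun x : CNF ℕ × List ℕ => (x.2.zipIdx.map (valM x.1)).sum) := Poly.sum hB'
  exact poly_fin hp hq hA hB

theorem zipIdx_sum (N : ℕ) (f : ℕ → ℕ) (F : ℕ × ℕ → ℕ) :
    ((((List.range N).map f).zipIdx).map F).sum = ∑ t ∈ Finset.range N, F (f t, t) := by
  have h : ((List.range N).map f).zipIdx = (List.range N).map (fun t => (f t, t)) := by
    apply List.ext_getElem
    · simp
    · intro i h1 h2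
      simp
  rw [h, List.map_map]
  rfl

theorem pL_eq (φ : CNF ℕ) : pL φ = (sysOf φ).Xl.length := by simp [pL, Xn]
theorem qL_eq (φ : CNF ℕ) : qL φ = (sysOf φ).Yl.length := by simp [qL, Tr]

theorem two_le (φ : CNF ℕ) : 2 ≤ pL φ + qL φ := by
  have h1 := (sysOf_OK φ).pos
  have h2 := Sys.Xl_length (Φ := sysOf φ)
  rw [pL_eq, h2]
  omega

/-- the answer number `(i, k)` -/
noncomputable def gA (φ : CNF ℕ) (i k : ℕ) : ℕ := unicyclicCount (graphN (Xn φ) (Tr φ) i k)

theorem gA_eq (φ : CNF ℕ) {t : ℕ} (ht : t < DD (pL φ) (qL φ) * (pL φ + qL φ + 1)) :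
    unicyclicCount (qryOK φ t) * ind (qry φ t)
        = gA φ (t / (pL φ + qL φ + 1) + 1) (t % (pL φ + qL φ + 1)) := by
  have hmin : min (t / (pL φ + qL φ + 1)) (DD (pL φ) (qL φ)) = t / (pL φ + qL φ + 1) := by
    apply min_eq_left
    exact (Nat.div_lt_of_lt_mul (by rw [mul_comm]; exact ht)).le
  have hq1 : qry φ t = graphN (Xn φ) (Tr φ) (t / (pL φ + qL φ + 1) + 1)
      (t % (pL φ + qL φ + 1)) := by
    unfold qry
    rw [hmin]
  unfold gA
  rw [← hq1]
  unfold qryOK ind
  by_cases h : okB (qry φ t) = true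
  · rw [if_pos h, if_pos h, mul_one]
  · rw [if_neg h, if_neg h, mul_zero]
    symm
    apply count_zero
    · rw [hq1]
      exact graphN_WF' (sysOf φ) (sysOf_OK φ) _ _
    · rw [← okB_iff]; exact h

theorem sumP_eq (φ : CNF ℕ) : ((((qs φ).map unicyclicCount).zipIdx).map (valP φ)).sum
      = ∑ t ∈ Finset.range (DD (pL φ) (qL φ) * (pL φ + qL φ + 1)),
        gA φ (t / (pL φ + qL φ + 1) + 1) (t % (pL φ + qL φ + 1)) *
          wP (pL φ) (qL φ) (t / (pL φ + qL φ + 1) + 1) (t % (pL φ + qL φ + 1)) := by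
  unfold qs
  rw [List.map_map, zipIdx_sum]
  apply Finset.sum_congr rfl
  intro t ht
  rw [← gA_eq φ (Finset.mem_range.mp ht)]
  rfl

theorem sumM_eq (φ : CNF ℕ) : ((((qs φ).map unicyclicCount).zipIdx).map (valM φ)).sum
      = ∑ t ∈ Finset.range (DD (pL φ) (qL φ) * (pL φ + qL φ + 1)),
        gA φ (t / (pL φ + qL φ + 1) + 1) (t % (pL φ + qL φ + 1)) *
          wM (pL φ) (qL φ) (t / (pL φ + qL φ + 1) + 1) (t % (pL φ + qL φ + 1)) := by
  unfold qs
  rw [List.map_map, zipIdx_sum]
  apply Finset.sum_congr rfl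
  intro t ht
  rw [← gA_eq φ (Finset.mem_range.mp ht)]
  rfl

/-- the number of satisfying assignments is computed from the answers -/
theorem satCount_eq (φ : CNF ℕ) : satCount φ = post (φ, (qs φ).map unicyclicCount) := by
  have hmain := main_formula φ (gA φ) (fun i k => rfl)
  rw [← pL_eq, ← qL_eq] at hmain
  have hsw := sum_weights (two_le φ) (gA φ)
  rw [← hmain, ← sumP_eq, ← sumM_eq] at hsw
  have h := fin_eq hsw
  rw [← h]
  unfold post
  rfl

/-! ### Hardness -/

theorem dummy_ok : IsConnGraph dummy ∧ dummy.1.length ≤ dummy.2.length := by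
  rw [← okB_iff]
  decide

theorem qryOK_ok (φ : CNF ℕ) (t : ℕ) :
    IsConnGraph (qryOK φ t) ∧ (qryOK φ t).1.length ≤ (qryOK φ t).2.length := by
  unfold qryOK
  split_ifs with h
  · exact (okB_iff _).1 h
  · exact dummy_ok

theorem count_size (G : MGraph) : (unicyclicCount G).size ≤ G.2.length + 1 := by
  rw [Nat.size_le]
  have h : unicyclicCount G ≤ 2 ^ G.2.length := by
    unfold unicyclicCount
    calc Nat.card {A : Finset (Fin G.2.length) // A.card = G.1.length ∧ SpanConn G A}
        ≤ Nat.card (Finset (Fin G.2.length)) :=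
          Nat.card_le_card_of_injective Subtype.val Subtype.val_injective
      _ = 2 ^ G.2.length := by simp
  have : 2 ^ G.2.length < 2 ^ (G.2.length + 1) := Nat.pow_lt_pow_right (by norm_num) (by omega)
  omega

/-- **`#P`-hardness**: every function that, on the codes of the connected loopless multigraphs `G`
with at least as many edges `m` as vertices `n`, gives the reliability coefficient `F_{m-n}(G)` is
`#P`-hard. -/
theorem hard (g : List Bool → ℕ)
    (hg : ∀ G : MGraph, IsConnGraph G → G.1.length ≤ G.2.length →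
      g (bits G) = Fcoeff G (G.2.length - G.1.length)) : SharpPHard g := by
  refine sharpPHard_of_satCount' (g' := unicyclicCount) qs post poly_qs poly_post ?_ satCount_eq
    (Polynomial.X + Polynomial.C 1) ?_
  · intro φ G hG
    obtain ⟨t, _, rfl⟩ := List.mem_map.mp hG
    obtain ⟨h1, h2⟩ := qryOK_ok φ t
    rw [hg _ h1 h2, Fcoeff_eq_unicyclicCount _ h2]
  · intro φ G _
    have h1 := count_size G
    have h2 := length_lt_sz G.2
    obtain ⟨V, E⟩ := G
    simp only [sz_pair, Polynomial.eval_add, Polynomial.eval_X, Polynomial.eval_C] at *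
    omega

/-! ### Membership -/

theorem sel_eq : ∀ (w : List Bool) (E : List (ℕ × ℕ)),
    sel w E = ((w.zip E).filter (fun x => x.1)).map (fun x => x.2) := by
  intro w
  induction w with
  | nil => intro E; cases E <;> simp [sel]
  | cons b w ih =>
    intro E
    cases E with
    | nil => cases b <;> simp [sel]
    | cons e E => cases b <;> simp [sel, ih E]

/-- the verifier -/
def ver (G : MGraph) (w : List Bool) : Bool :=
  wfB G && (decide (w.length = G.2.length) &&
    (decide ((w.filter fun b => b).length = G.1.length) && allEq (subs (sel w G.2)) G.1))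

theorem poly_ver : Poly (fun x : MGraph × List Bool => ver x.1 x.2) := by
  have hG : Poly (fun x : MGraph × List Bool => x.1) := Poly.fst Poly.id
  have hw : Poly (fun x : MGraph × List Bool => x.2) := Poly.snd Poly.id
  have hsel : Poly (fun x : MGraph × List Bool => sel x.2 x.1.2) := by
    refine Poly.congr ?_ (fun x => (sel_eq x.2 x.1.2).symm)
    exact Poly.map (F := fun _ (y : Bool × (ℕ × ℕ)) => y.2)
      (Poly.filter (p := fun _ (y : Bool × (ℕ × ℕ)) => y.1) (Poly.zip hw (Poly.snd hG))
        (Poly.fst (Poly.snd Poly.id))) (Poly.snd (Poly.snd Poly.id))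
  unfold ver
  exact Poly.and (poly_wfB hG) (Poly.and (Poly.decide_eq (Poly.length hw)
    (Poly.length (Poly.snd hG))) (Poly.and (Poly.decide_eq
    (Poly.length (Poly.filter (p := fun _ b => b) hw (Poly.snd Poly.id)))
      (Poly.length (Poly.fst hG))) (poly_allEq (poly_subs hsel) (Poly.fst hG))))

theorem count_eq_ver (G : MGraph) :
    Nat.card {w : List Bool // ver G w = true} =
      open Classical in if IsConnGraph G then unicyclicCount G else 0 := by
  classical
  by_cases hWF : WF G
  · have hne : G.1 ≠ [] := hWF.1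
    have hS : G.1.toFinset.Nonempty := by
      obtain ⟨x, hx⟩ := List.exists_mem_of_ne_nil _ hne
      exact ⟨x, by simpa using hx⟩
    have h1 : Nat.card {w : List Bool // ver G w = true} = unicyclicCount G := by
      unfold unicyclicCount
      rw [card_spanConn G hne, rc_eq_masks]
      refine Nat.card_congr (Equiv.subtypeEquivRight fun w => ?_)
      unfold ver
      rw [Bool.and_eq_true, wfB_iff, Bool.and_eq_true, decide_eq_true_eq, Bool.and_eq_true,
        decide_eq_true_eq, allEq_iff, card_image_eq_one hS, labs_id]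
      have hc : (w.filter fun b => b).length = w.count true := by
        rw [List.count_eq_length_filter]
        congr 1
        apply List.filter_congr
        intro b _
        cases b <;> rfl
      rw [hc]
      simp only [List.mem_toFinset]
      tauto
    rw [h1]
    split_ifs with h
    · rfl
    · exact count_zero G hWF (fun h' => h h'.1)
  · have h : ¬ IsConnGraph G := fun h => hWF ⟨h.1, h.2.1, h.2.2.1⟩
    rw [if_neg h, Nat.card_eq_zero]
    left
    refine ⟨?_⟩
    rintro ⟨w, hw⟩
    unfold ver at hw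
    rw [Bool.and_eq_true, wfB_iff] at hw
    exact hWF hw.1

open Classical in
/-- **Membership in `#P`.** -/
theorem mem_sharpP : SharpP (strFn fun G : MGraph =>
    if IsConnGraph G then unicyclicCount G else 0) := by
  have h := sharpP_typed (α := MGraph) (γ := List Bool) ver poly_ver
    (Polynomial.C 4 * Polynomial.X + Polynomial.C 1) (by
      intro G w hw
      unfold ver at hw
      rw [Bool.and_eq_true, Bool.and_eq_true, decide_eq_true_eq] at hw
      have h1 := hw.2.1
      have h2 := sz_listBool_le w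
      have h3 := length_lt_sz G.2
      obtain ⟨V, E⟩ := G
      simp only [sz_pair, Polynomial.eval_add, Polynomial.eval_mul, Polynomial.eval_X,
        Polynomial.eval_C] at *
      omega)
  have h2 : (fun G : MGraph => Nat.card {w : List Bool // ver G w = true})
      = fun G => if IsConnGraph G then unicyclicCount G else 0 := by
    funext G
    exact count_eq_ver G
  rw [← h2]
  exact h

end Pool.Agent.NPC.Uc
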